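import Pool.Agent.MP_92db0f_lc.Few3

/-!
Polynomial-time computations with few long queries.
-/

set_option autoImplicit false

namespace Pool.Agent.MP_92db0f_lc

open Lib.helper60 Function Turing Computability

lemma poly_le_pow_add (P : Polynomial ℕ) : ∃ k, ∀ n, P.eval n ≤ n ^ k + k := by
  obtain ⟨C, e, h⟩ := poly_le_pow P
  refine ⟨2 * e + (2 * (C + 2)) ^ e, fun n => (h n).trans ?_⟩
  rcases Nat.lt_or_ge n (C + 2) with h1 | h1
  · have h2 : (n + C) ^ e ≤ (2 * (C + 2)) ^ e := Nat.pow_le_pow_left (by omega) e
    omega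
  · have h2 : (n + C) ^ e ≤ (n ^ 2) ^ e := Nat.pow_le_pow_left (by nlinarith) e
    rw [← pow_mul] at h2
    have h3 : n ^ (2 * e) ≤ n ^ (2 * e + (2 * (C + 2)) ^ e) :=
      Nat.pow_le_pow_right (by omega) (by omega)
    omega

/-- The number of strings of length at most `m`. -/
lemma ncard_short (m : ℕ) : {Q : List Bool | Q.length ≤ m}.ncard ≤ 2 ^ (m + 1) := by
  classical
  have h1 : {Q : List Bool | Q.length ≤ m} ⊆
      ((Finset.range (2 ^ (m + 1))).image str : Set (List Bool)) := by
    intro Q hQ
    rw [Set.mem_ofPred_eq] at hQ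
    rw [Finset.coe_image]
    refine ⟨vl Q, ?_, str_vl Q⟩
    rw [Finset.mem_coe, Finset.mem_range]
    have h2 := vl_lt Q
    have h3 : 2 ^ (Q.length + 1) ≤ 2 ^ (m + 1) := Nat.pow_le_pow_right (by norm_num) (by omega)
    omega
  refine (Set.ncard_le_ncard h1 (Finset.finite_toSet _)).trans ?_
  rw [Set.ncard_coe_finset]
  exact Finset.card_image_le.trans (by rw [Finset.card_range])

theorem few_of_long {c : ℕ} {b : Bool} {L : Set (List Bool)} (h : InFewLong c b L) :
    InFewHeavy (c + 1) b L := by
  obtain ⟨A, q, d, a, N, P, C, hA, hq, hd, ha, hN, hx⟩ := h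
  have hq' := PT_of_enc3 hq
  obtain ⟨S, hS⟩ := hq'.size
  -- the length of the queries
  obtain ⟨k, hk⟩ := poly_le_pow_add (S.comp (4 * Polynomial.X + 4 * (Polynomial.X ^ c +
    Polynomial.C C) + 4 * P + 5))
  have hk' : ∀ n, S.eval (4 * n + 4 * (n ^ c + C) + 4 * P.eval n + 5) ≤ n ^ k + k := by
    intro n
    have := hk n
    simpa [Polynomial.eval_comp] using this
  have hlen : ∀ x : List Bool, ∀ i < N x.length,
      (q (x, a x.length, answers A q x (a x.length) i)).length ≤ x.length ^ k + k := by
    intro x i hi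
    have h1 := hS (x, a x.length, answers A q x (a x.length) i)
    have h2 := length_lt_tsize (q (x, a x.length, answers A q x (a x.length) i))
    have h3 : tsize (x, a x.length, answers A q x (a x.length) i) ≤
        4 * x.length + 4 * (x.length ^ c + C) + 4 * P.eval x.length + 5 := by
      rw [tsize_pair, tsize_pair]
      have h4 := tsize_bits_le x
      have h5 := tsize_bits_le (a x.length)
      have h6 := tsize_bits_le (answers A q x (a x.length) i)
      rw [length_answers] at h6
      have h7 := ha x.length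
      have h8 := hN x.length
      omega
    have h4 := evalMono S h3
    beta_reduce at h1 h4
    have h5 := hk' x.length
    omega
  -- the constants
  obtain ⟨κ, hκ⟩ := exists_poly_le P
  obtain ⟨C', hC'⟩ := pow_bound 1 (C + 1) c
  have hb : ∀ n, n ^ c + C + 1 ≤ n ^ (c + 1) + (C' + κ) := by
    intro n
    have := hC' n
    omega
  have hb2 : ∀ n, κ + n ≤ n ^ (c + 1) + (C' + κ) := by
    intro n
    have := Nat.le_self_pow (show c + 1 ≠ 0 by omega) n
    omega
  refine ⟨A, q, d, a, N, C' + κ, k, fun z => decide (z.2.length ≤ z.1.length ^ c + C),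
    ⟨hA, hq, hd, fun n => ?_, fun n => ?_, hlen, fun x => (hx x).2⟩, PT.verifier ?_, ?_⟩
  · have := hb n
    have := ha n
    omega
  · exact (hN n).trans ((hκ n).trans (Nat.pow_le_pow_right (by norm_num) (hb2 n)))
  · exact PT.nle (PT.length PT.snd) (PT.nadd (PT_npow (PT.length PT.fst) c) (PT.const C))
  · intro x
    constructor
    · have h1 : {Q : List Bool | Q ∈ A ∧ Q.length ≤ x.length ^ k + k ∧
          decide (Q.length ≤ x.length ^ c + C) = true} ⊆
          {Q : List Bool | Q.length ≤ x.length ^ c + C} := fun Q hQ => of_decide_eq_true hQ.2.2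
      refine (Set.ncard_le_ncard h1 (List.finite_length_le Bool _)).trans ?_
      exact (ncard_short _).trans (Nat.pow_le_pow_right (by norm_num) (hb _))
    · refine le_trans ?_ (show x.length ^ c + C ≤ x.length ^ (c + 1) + (C' + κ) by
        have := hb x.length; omega)
      refine le_trans (Set.ncard_le_ncard ?_ ?_) (hx x).1
      · rintro i ⟨h1, h2, h3⟩
        refine ⟨h1, ?_, h3⟩
        simp only [decide_eq_false_iff_not, not_le] at h2
        exact h2
      · exact (Set.finite_lt_nat (N x.length)).subset fun _ hi => hi.1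

end Pool.Agent.MP_92db0f_lc
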