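import Pool.Agent.MP_92db0f_lc.Eval

/-!
Certificates consisting of blocks; completeness for exponentially long certificates.
-/

set_option autoImplicit false

namespace Pool.Agent.MP_92db0f_lc

open Lib.helper60 Function Turing Computability

lemma eval_mul_le (P : Polynomial ℕ) (a b : ℕ) (hb : 1 ≤ b) :
    P.eval (a * b) ≤ P.eval a * b ^ P.natDegree := by
  rw [Polynomial.eval_eq_sum_range, Polynomial.eval_eq_sum_range, Finset.sum_mul]
  apply Finset.sum_le_sum
  intro i hi
  rw [Finset.mem_range] at hi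
  rw [mul_pow, mul_assoc]
  apply Nat.mul_le_mul_left
  apply Nat.mul_le_mul_left
  exact Nat.pow_le_pow_right hb (by omega)

lemma poly_le_pow (P : Polynomial ℕ) : ∃ C e, ∀ n, P.eval n ≤ (n + C) ^ e := by
  refine ⟨P.eval 1 + 1, P.natDegree + 1, fun n => ?_⟩
  have h1 : P.eval n ≤ P.eval (1 * (n + 1)) := evalMono P (by omega)
  have h2 := eval_mul_le P 1 (n + 1) (by omega)
  have h3 : P.eval 1 * (n + 1) ^ P.natDegree ≤
      (n + (P.eval 1 + 1)) * (n + (P.eval 1 + 1)) ^ P.natDegree :=
    Nat.mul_le_mul (by omega) (Nat.pow_le_pow_left (by omega) _)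
  rw [pow_succ, Nat.mul_comm ((n + (P.eval 1 + 1)) ^ P.natDegree)]
  exact h1.trans (h2.trans h3)

section

variable {α : Type} [DEnc α]

lemma PT_take {β : Type} [DEnc β] {n : α → ℕ} {l : α → List β} (hn : PT n) (hl : PT l) :
    PT (fun a => (l a).take (n a)) := by
  refine (PT.reverse (PT.drop (PT.nsub (PT.length hl) hn) (PT.reverse hl))).congr fun a => ?_
  have h := List.take_reverse (xs := (l a).reverse) (i := n a)
  rw [List.reverse_reverse, List.length_reverse] at h
  exact h.symm

lemma PT_leq {l₁ l₂ : α → List Bool} (h₁ : PT l₁) (h₂ : PT l₂) :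
    PT (fun a => decide (l₁ a = l₂ a)) := by
  have h : PT (fun a => decide ((l₁ a).length = (l₂ a).length) &&
      (List.range (l₁ a).length).all fun i =>
        decide ((l₁ a).getD i false = (l₂ a).getD i false)) := by
    refine PT.band (PT.neq (PT.length h₁) (PT.length h₂)) ?_
    refine PT.all (p := fun y : α × ℕ =>
      decide ((l₁ y.1).getD y.2 false = (l₂ y.1).getD y.2 false)) (PT.range (PT.length h₁)) ?_
    exact PT.beq (PT.getD (h₁.comp PT.fst) PT.snd (PT.const false))
      (PT.getD (h₂.comp PT.fst) PT.snd (PT.const false))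
  refine h.congr fun a => ?_
  rw [Bool.eq_iff_iff, Bool.and_eq_true, decide_eq_true_eq, decide_eq_true_eq, List.all_eq_true]
  simp only [List.mem_range, decide_eq_true_eq]
  constructor
  · rintro ⟨h1, h2⟩
    apply List.ext_getElem h1
    intro i hi hi'
    have h3 := h2 i hi
    rwa [List.getD_eq_getElem _ _ hi, List.getD_eq_getElem _ _ hi'] at h3
  · rintro h1
    rw [h1]
    exact ⟨rfl, fun _ _ => rfl⟩

end

/-- The content of the `i`-th block of length `B`. -/
def blk (B : ℕ) (f : List Bool) (i : ℕ) : List Bool := (unpair ((f.drop (i * B)).take B)).1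

lemma PT_blk {α : Type} [DEnc α] {B i : α → ℕ} {f : α → List Bool} (hB : PT B) (hf : PT f)
    (hi : PT i) : PT (fun a => blk (B a) (f a) (i a)) :=
  (PT_unpair.comp (PT_take hB (PT.drop (PT.nmul hi hB) hf))).p1

/-- A block of length `B` with the content `w`. -/
def mkBlk (B : ℕ) (w : List Bool) : List Bool :=
  encPair (w, List.replicate (B - (2 * w.length + 2)) false)

lemma length_mkBlk {B : ℕ} {w : List Bool} (h : 2 * w.length + 2 ≤ B) :
    (mkBlk B w).length = B := by
  unfold mkBlk
  rw [length_encPair, List.length_replicate]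
  omega

/-- A sequence of `M` blocks. -/
def mkFlat (B M : ℕ) (w : ℕ → List Bool) : List Bool :=
  (List.range M).flatMap fun i => mkBlk B (w i)

lemma mkFlat_succ (B M : ℕ) (w : ℕ → List Bool) :
    mkFlat B (M + 1) w = mkFlat B M w ++ mkBlk B (w M) := by
  unfold mkFlat
  rw [List.range_succ, List.flatMap_append]
  simp

lemma length_mkFlat {B M : ℕ} {w : ℕ → List Bool} (h : ∀ i < M, 2 * (w i).length + 2 ≤ B) :
    (mkFlat B M w).length = M * B := by
  induction M with
  | zero => simp [mkFlat]
  | succ M ih =>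
    rw [mkFlat_succ, List.length_append, ih fun i hi => h i (by omega),
      length_mkBlk (h M (by omega))]
    ring

lemma blk_mkFlat {B M : ℕ} {w : ℕ → List Bool} (h : ∀ i < M, 2 * (w i).length + 2 ≤ B) {i : ℕ}
    (hi : i < M) : blk B (mkFlat B M w) i = w i := by
  have key : ∀ M, (∀ i < M, 2 * (w i).length + 2 ≤ B) → ∀ i < M,
      ((mkFlat B M w).drop (i * B)).take B = mkBlk B (w i) := by
    intro M
    induction M with
    | zero => intro _ i hi; omega
    | succ M ih =>
      intro h i hi
      have hlen := length_mkFlat (M := M) (w := w) fun i hi => h i (by omega)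
      rw [mkFlat_succ]
      rcases Nat.lt_or_ge i M with h1 | h1
      · have h2 : (i + 1) * B ≤ M * B := Nat.mul_le_mul_right _ h1
        rw [Nat.add_mul, Nat.one_mul] at h2
        rw [List.drop_append_of_le_length (by omega),
          List.take_append_of_le_length (by rw [List.length_drop]; omega)]
        exact ih (fun i hi => h i (by omega)) i h1
      · have h2 : i = M := by omega
        subst h2
        rw [List.drop_append, hlen, Nat.sub_self, List.drop_zero,
          List.drop_of_length_le (by omega), List.nil_append]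
        exact List.take_of_length_le (by rw [length_mkBlk (h i (by omega))])
  unfold blk
  rw [key M h i hi]
  unfold mkBlk
  rw [unpair_enc]

lemma cert_bound (T : Polynomial ℕ) (κ n l e s₀ : ℕ)
    (hs₀ : s₀ = κ + 2 + T.eval 13 + T.natDegree * (κ + T.natDegree)) (hl : l ≤ 2 ^ (n + κ)) :
    2 * l + 2 + T.eval (2 * (2 * n + 2 + T.natDegree * (n + 1)) + 2 + l) ≤
      2 ^ (2 * (e + s₀) + 2 + (2 * n + 2 + T.natDegree * (n + 1)) + 1) := by
  obtain ⟨K, hK⟩ : ∃ K, K = T.natDegree := ⟨_, rfl⟩
  have hdeg : ∀ M, 1 ≤ M → T.eval (13 * M) ≤ T.eval 13 * M ^ K := by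
    intro M hM
    rw [hK]
    exact eval_mul_le T 13 M hM
  rw [← hK] at hs₀ ⊢
  have h1 : n + 1 ≤ 2 ^ n := Nat.lt_two_pow_self
  have h2 : K ≤ 2 ^ K := Nat.lt_two_pow_self.le
  have h3 : 2 ^ n ≤ 2 ^ (n + κ + K) := Nat.pow_le_pow_right (by norm_num) (by omega)
  have h4 : K * (n + 1) ≤ 2 ^ (n + κ + K) := by
    calc K * (n + 1) ≤ 2 ^ K * 2 ^ n := Nat.mul_le_mul h2 h1
      _ = 2 ^ (n + K) := by rw [← pow_add, Nat.add_comm]
      _ ≤ 2 ^ (n + κ + K) := Nat.pow_le_pow_right (by norm_num) (by omega)
  have h5 : 2 ^ (n + κ) ≤ 2 ^ (n + κ + K) := Nat.pow_le_pow_right (by norm_num) (by omega)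
  have h6 : 2 * (2 * n + 2 + K * (n + 1)) + 2 + l ≤ 13 * 2 ^ (n + κ + K) := by omega
  have h7 : T.eval (2 * (2 * n + 2 + K * (n + 1)) + 2 + l) ≤
      T.eval 13 * (2 ^ (n + κ + K)) ^ K :=
    (evalMono T h6).trans (hdeg _ (Nat.one_le_pow _ _ (by norm_num)))
  have h8 : T.eval 13 * (2 ^ (n + κ + K)) ^ K ≤ 2 ^ (T.eval 13 + (n + κ + K) * K) := by
    rw [pow_add 2 (T.eval 13), pow_mul 2 (n + κ + K)]
    exact Nat.mul_le_mul_right _ Nat.lt_two_pow_self.le
  have h9 : 2 * l + 2 ≤ 2 ^ (n + κ + 2) := by
    have h10 : 1 ≤ 2 ^ (n + κ) := Nat.one_le_pow _ _ (by norm_num)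
    rw [pow_succ, pow_succ]
    omega
  obtain ⟨F, hF⟩ : ∃ F, F = 2 * (e + s₀) + 2 + (2 * n + 2 + K * (n + 1)) := ⟨_, rfl⟩
  rw [← hF, pow_succ]
  have h11 : 2 ^ (n + κ + 2) ≤ 2 ^ F := by
    apply Nat.pow_le_pow_right (by norm_num)
    rw [hF, hs₀]
    omega
  have h12 : 2 ^ (T.eval 13 + (n + κ + K) * K) ≤ 2 ^ F := by
    apply Nat.pow_le_pow_right (by norm_num)
    rw [hF, hs₀]
    have h13 : (n + κ + K) * K = K * (κ + K) + K * n := by ring
    have h14 : K * (n + 1) = K * n + K := by ring
    rw [h13, h14]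
    omega
  omega

/-- Completeness for exponentially long certificates. -/
theorem KL_complete_exp {V : List Bool × List Bool → Bool} (hV : PT V) (κ : ℕ) :
    ∃ (u : List Bool) (K : ℕ), ∀ w,
      encPair (u, encPair (w, List.replicate (K * (w.length + 1)) true)) ∈ KL ↔
        ∃ y : List Bool, y.length ≤ 2 ^ (w.length + κ) ∧ V (w, y) = true := by
  let V' : List Bool × List Bool → Bool := fun p =>
    decide (p.2.length - 1 ≤ p2 p.2.length ((unpair p.1).1.length + κ)) && V ((unpair p.1).1, p.2)
  have hV' : PT V' := by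
    have h1 : PT (fun p : List Bool × List Bool => (unpair p.1).1) := (PT_unpair.comp PT.fst).p1
    have h2 : PT (fun p : List Bool × List Bool => p.2.length) := PT.length PT.snd
    exact PT.band (PT.nle (PT.nsub h2 (PT.const 1)) (PT_p2 h2 (PT.nadd (PT.length h1)
      (PT.const κ)))) (hV.comp (PT.pair h1 PT.snd))
  have hV'' : ∀ w t y : List Bool, V' (encPair (w, t), y) = true ↔
      y.length ≤ 2 ^ (w.length + κ) ∧ V (w, y) = true := by
    intro w t y
    simp only [V', unpair_enc, Bool.and_eq_true, decide_eq_true_eq]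
    rw [p2_eq]
    have h1 : 1 ≤ 2 ^ (w.length + κ) := Nat.one_le_pow _ _ (by norm_num)
    refine and_congr_left fun _ => ?_
    omega
  obtain ⟨cmp⟩ := PT.verifier hV'
  obtain ⟨φ, T, hs⟩ := exists_table cmp
  obtain ⟨s₀, hs₀⟩ : ∃ s₀, s₀ = κ + 2 + T.eval 13 + T.natDegree * (κ + T.natDegree) := ⟨_, rfl⟩
  refine ⟨encCNF φ ++ List.replicate s₀ true, T.natDegree, fun w => ?_⟩
  have hVK : ∀ w' y t, VK (encPair (encCNF φ ++ List.replicate s₀ true, w'), encPair (y, t)) =
      (thalt φ (trun φ (encPair (w', y)) t.length) &&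
        (tout φ (trun φ (encPair (w', y)) t.length)).headD false) := by
    intro w' y t
    unfold VK
    simp only [unpair_enc, parse_append_true]
  constructor
  · rintro ⟨c, _, hc⟩
    refine ⟨(unpair c).1, ?_⟩
    unfold VK at hc
    simp only [unpair_enc, parse_append_true, Bool.and_eq_true] at hc
    have h1 := (hs (encPair (w, List.replicate (T.natDegree * (w.length + 1)) true),
      (unpair c).1) (unpair c).2.length).2 hc.1
    rw [h1] at hc
    have h2 : V' (encPair (w, List.replicate (T.natDegree * (w.length + 1)) true),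
      (unpair c).1) = true := by simpa [encodeBool] using hc.2
    exact (hV'' _ _ _).mp h2
  · rintro ⟨y, hy1, hy2⟩
    refine ⟨encPair (y, List.replicate (T.eval (encPair (encPair (w, List.replicate
      (T.natDegree * (w.length + 1)) true), y)).length) true), ?_, ?_⟩
    · simp only [length_encPair, List.length_replicate, List.length_append, pow_one]
      exact cert_bound T κ w.length y.length _ s₀ hs₀ hy1
    · rw [hVK, List.length_replicate]
      have h1 := (hs (encPair (w, List.replicate (T.natDegree * (w.length + 1)) true), y) _).1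
        le_rfl
      have h2 := (hs (encPair (w, List.replicate (T.natDegree * (w.length + 1)) true), y) _).2 h1
      rw [h1, h2, (hV'' _ _ _).mpr ⟨hy1, hy2⟩]
      rfl

end Pool.Agent.MP_92db0f_lc
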