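import Pool.Agent.MP_92db0f_lc.TMSim
import Pool.Agent.Lib.helper60.NPLib

/-!
Enumeration of bit strings and capped numbers.
-/

set_option autoImplicit false

namespace Pool.Agent.MP_92db0f_lc

open Lib.helper60 Function

/-- The next string. -/
def sucS : List Bool → List Bool
  | [] => [false]
  | false :: t => true :: t
  | true :: t => false :: sucS t

/-- The `n`-th string. -/
def str (n : ℕ) : List Bool := sucS^[n] []

/-- The number of a string. -/
def vl : List Bool → ℕ
  | [] => 0
  | false :: t => 2 * vl t + 1
  | true :: t => 2 * vl t + 2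

lemma vl_sucS : ∀ t, vl (sucS t) = vl t + 1
  | [] => rfl
  | false :: t => rfl
  | true :: t => by
    simp only [sucS, vl, vl_sucS t]
    ring

lemma str_succ (n : ℕ) : str (n + 1) = sucS (str n) := iterate_succ_apply' _ _ _

lemma vl_str (n : ℕ) : vl (str n) = n := by
  induction n with
  | zero => rfl
  | succ n ih => rw [str_succ, vl_sucS, ih]

lemma vl_inj : ∀ {s t : List Bool}, vl s = vl t → s = t
  | [], [], _ => rfl
  | [], false :: t, h => by simp [vl] at h
  | [], true :: t, h => by simp [vl] at h
  | false :: s, [], h => by simp [vl] at h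
  | true :: s, [], h => by simp [vl] at h
  | false :: s, false :: t, h => by
    have h1 : vl s = vl t := by simp only [vl] at h; omega
    rw [vl_inj h1]
  | true :: s, true :: t, h => by
    have h1 : vl s = vl t := by simp only [vl] at h; omega
    rw [vl_inj h1]
  | false :: s, true :: t, h => by simp only [vl] at h; omega
  | true :: s, false :: t, h => by simp only [vl] at h; omega

lemma str_vl (s : List Bool) : str (vl s) = s := vl_inj (vl_str _)

lemma vl_lt : ∀ s : List Bool, vl s + 1 < 2 ^ (s.length + 1)
  | [] => by simp [vl]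
  | false :: t => by
    have := vl_lt t
    simp only [vl, List.length_cons]
    rw [pow_succ]
    omega
  | true :: t => by
    have := vl_lt t
    simp only [vl, List.length_cons]
    rw [pow_succ]
    omega

lemma le_vl : ∀ s : List Bool, 2 ^ s.length ≤ vl s + 1
  | [] => by simp [vl]
  | false :: t => by
    have := le_vl t
    simp only [vl, List.length_cons]
    rw [pow_succ]
    omega
  | true :: t => by
    have := le_vl t
    simp only [vl, List.length_cons]
    rw [pow_succ]
    omega

lemma length_str_lt {n m : ℕ} (h : n + 1 < 2 ^ m) : (str n).length < m := by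
  have h1 := le_vl (str n)
  rw [vl_str] at h1
  exact (Nat.pow_lt_pow_iff_right (by norm_num)).mp (lt_of_le_of_lt h1 h)

lemma length_str_le_self (n : ℕ) : (str n).length ≤ n := by
  have h1 := le_vl (str n)
  rw [vl_str] at h1
  have h2 : (str n).length < 2 ^ (str n).length := Nat.lt_two_pow_self
  omega

lemma lt_of_length_str {n m : ℕ} (h : (str n).length < m) : n + 1 < 2 ^ m := by
  have h1 := vl_lt (str n)
  rw [vl_str] at h1
  exact lt_of_lt_of_le h1 (Nat.pow_le_pow_right (by norm_num) h)

lemma vl_replicate (m : ℕ) : vl (List.replicate m false) + 1 = 2 ^ m := by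
  induction m with
  | zero => rfl
  | succ m ih =>
    rw [List.replicate_succ]
    simp only [vl]
    rw [pow_succ, ← ih]
    ring

/-- The strings with the numbers `2 ^ m - 1, ..., 2 ^ (m + 1) - 2` have length `m`. -/
lemma length_str_eq {m i : ℕ} (h : i < 2 ^ m) : (str (2 ^ m - 1 + i)).length = m := by
  have h0 : 0 < 2 ^ m := Nat.pos_of_ne_zero (by positivity)
  have h1 : (str (2 ^ m - 1 + i)).length < m + 1 := by
    apply length_str_lt
    rw [pow_succ]
    omega
  have h2 := vl_lt (str (2 ^ m - 1 + i))
  rw [vl_str] at h2
  by_contra hne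
  have h3 : (str (2 ^ m - 1 + i)).length + 1 ≤ m := by omega
  have h4 : 2 ^ ((str (2 ^ m - 1 + i)).length + 1) ≤ 2 ^ m :=
    Nat.pow_le_pow_right (by norm_num) h3
  omega

/-! ### capped numbers -/

/-- The number of a string, capped at `cap`. -/
def vlc (cap : ℕ) (s : List Bool) : ℕ :=
  s.reverse.foldl (fun v b => if 2 * v + (bif b then 2 else 1) ≤ cap then
    2 * v + (bif b then 2 else 1) else cap) 0

lemma vlc_eq (cap : ℕ) (s : List Bool) : vlc cap s = min cap (vl s) := by
  unfold vlc
  rw [List.foldl_reverse]
  induction s with
  | nil => simp [vl]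
  | cons b t ih =>
    rw [List.foldr_cons, ih]
    cases b
    · simp only [cond_false, vl]
      split_ifs <;> omega
    · simp only [cond_true, vl]
      split_ifs <;> omega

/-- The number `2 ^ m - 1`, capped. -/
def p2 (cap m : ℕ) : ℕ := vlc cap (List.replicate m false)

lemma p2_eq (cap m : ℕ) : p2 cap m = min cap (2 ^ m - 1) := by
  unfold p2
  rw [vlc_eq]
  have := vl_replicate m
  omega

lemma p2_eq' {cap m : ℕ} (h : 2 ^ m ≤ cap + 1) : p2 cap m = 2 ^ m - 1 := by
  rw [p2_eq]
  omega

/-! ### polynomial time -/

/-- One step of the computation of the successor. -/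
def sstep (s : Bool × List Bool) (b : Bool) : Bool × List Bool :=
  bif s.1 then (b, (!b) :: s.2) else (false, b :: s.2)

lemma sstep_false (w : List Bool) : ∀ acc, w.foldl sstep (false, acc) = (false, w.reverse ++ acc) := by
  induction w with
  | nil => intro acc; rfl
  | cons b w ih =>
    intro acc
    rw [List.foldl_cons]
    have : sstep (false, acc) b = (false, b :: acc) := rfl
    rw [this, ih]
    simp

lemma sstep_true (w : List Bool) : ∀ acc,
    (if (w.foldl sstep (true, acc)).1 = true then
      false :: (w.foldl sstep (true, acc)).2 else (w.foldl sstep (true, acc)).2) =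
      (sucS w).reverse ++ acc := by
  induction w with
  | nil => intro acc; simp [sucS]
  | cons b w ih =>
    intro acc
    rw [List.foldl_cons]
    cases b
    · have : sstep (true, acc) false = (false, true :: acc) := rfl
      rw [this, sstep_false]
      simp [sucS]
    · have : sstep (true, acc) true = (true, false :: acc) := rfl
      rw [this, ih]
      simp [sucS]

lemma PT_sucS : PT sucS := by
  have hs : PT (fun z : List Bool × (Bool × List Bool) × Bool => sstep z.2.1 z.2.2) := by
    unfold sstep
    have s : PT (fun z : List Bool × (Bool × List Bool) × Bool => z.2.1) := PT.snd.p1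
    have b : PT (fun z : List Bool × (Bool × List Bool) × Bool => z.2.2) := PT.snd.p2
    exact PT.cond s.p1 (PT.pair b (PT.cons (PT.bnot b) s.p2))
      (PT.pair (PT.const false) (PT.cons b s.p2))
  have hf := PT.foldl_lin (init := fun _ : List Bool => ((true, []) : Bool × List Bool))
    PT.id (PT.const _) hs 8 (by
      rintro x ⟨c, acc⟩ b
      have hb := tsize_bool_le b
      have hb' := tsize_bool_le (!b)
      have hf := tsize_bool_le false
      have hc := tsize_pos c
      unfold sstep
      cases c
      · simp only [cond_false, tsize_pair, tsize_cons]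
        omega
      · simp only [cond_true, tsize_pair, tsize_cons]
        omega)
  have h2 : PT (fun w : List Bool => (if (w.foldl sstep (true, [])).1 = true then
      false :: (w.foldl sstep (true, [])).2 else (w.foldl sstep (true, [])).2).reverse) := by
    refine PT.reverse (PT.ite ?_ (PT.cons (PT.const false) hf.p2) hf.p2)
    exact hf.p1.congr fun w => by simp
  refine h2.congr fun w => ?_
  rw [sstep_true]
  simp

lemma PT_str {α : Type} [DEnc α] {n : α → ℕ} (hn : PT n) : PT (fun x => str (n x)) := by
  refine PT.iterateNat (init := fun _ => ([] : List Bool)) hn (PT.const _) PT_sucS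
    ⟨fun x => 4 * tsize (n x) + 1, ((PB.const 4).mul hn.size).add (PB.const 1), ?_⟩
  intro x i hi
  have h1 : sucS^[i] [] = str i := rfl
  rw [h1]
  have h2 := tsize_bits_le (str i)
  have h3 := length_str_le_self i
  beta_reduce
  rw [tsize_nat]
  omega

lemma PT_vlc {α : Type} [DEnc α] {cap : α → ℕ} {s : α → List Bool} (hc : PT cap) (hs : PT s) :
    PT (fun x => vlc (cap x) (s x)) := by
  unfold vlc
  refine PT.foldl (g := fun z : α × ℕ × Bool => if 2 * z.2.1 + (bif z.2.2 then 2 else 1) ≤ cap z.1
    then 2 * z.2.1 + (bif z.2.2 then 2 else 1) else cap z.1) (PT.reverse hs) (PT.const 0) ?_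
    ⟨fun x => tsize (cap x), hc.size, ?_⟩
  · have h1 : PT (fun z : α × ℕ × Bool => 2 * z.2.1 + (bif z.2.2 then 2 else 1)) :=
      PT.nadd (PT.nmul (PT.const 2) PT.snd.p1) (PT.cond PT.snd.p2 (PT.const 2) (PT.const 1))
    exact PT.ite (PT.nle h1 (hc.comp PT.fst)) h1 (hc.comp PT.fst)
  · intro x l₁ l₂ _
    have h2 : ∀ (l : List Bool) (v : ℕ), v ≤ cap x →
        l.foldl (fun v b => if 2 * v + (bif b then 2 else 1) ≤ cap x then
          2 * v + (bif b then 2 else 1) else cap x) v ≤ cap x := by
      intro l
      induction l with
      | nil => intro v hv; exact hv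
      | cons b l ih =>
        intro v hv
        rw [List.foldl_cons]
        apply ih
        split_ifs with h
        · exact h
        · exact le_rfl
    have h3 := h2 l₁ 0 (Nat.zero_le _)
    change tsize (l₁.foldl (fun v b => if 2 * v + (bif b then 2 else 1) ≤ cap x then
          2 * v + (bif b then 2 else 1) else cap x) 0) ≤ tsize (cap x)
    rw [tsize_nat, tsize_nat]
    omega

lemma PT_p2 {α : Type} [DEnc α] {cap m : α → ℕ} (hc : PT cap) (hm : PT m) :
    PT (fun x => p2 (cap x) (m x)) :=
  PT_vlc hc (PT.replicate hm (PT.const false))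

lemma PT_encPair {α : Type} [DEnc α] {a b : α → List Bool} (ha : PT a) (hb : PT b) :
    PT (fun x => encPair (a x, b x)) := by
  unfold encPair
  refine PT.append ?_ (PT.append (PT.const _) hb)
  exact PT.flatMap (g := fun z : α × Bool => [z.2, z.2]) ha
    (PT.cons PT.snd (PT.cons PT.snd (PT.const [])))

lemma length_encPair (a b : List Bool) : (encPair (a, b)).length = 2 * a.length + 2 + b.length := by
  unfold encPair
  simp only [List.length_append, List.length_flatMap, List.length_cons, List.length_nil]
  simp
  ring

end Pool.Agent.MP_92db0f_lc
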