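import Pool.Agent.MP_92db0f_lc.Few3

/-!
Computations whose heavy queries have answers of low information have answer sequences of small
information.
-/

set_option autoImplicit false

namespace Pool.Agent.MP_92db0f_lc

open Lib.helper60 Function Turing Computability

/-! ### the verifier -/

/-- The answer to the query `Q`, according to the list of light strings in `y` and the answer `w`
for heavy queries. -/
def ansL (Λ : List Bool × List Bool → Bool) (x Q : List Bool) (y : List Bool) (t : ℕ) (w : Bool) :
    Bool :=
  bif Λ (x, Q) then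
    (List.range t).any fun j => decide ((unpair (blk (unpair y).1.length (unpair y).2 j)).1 = Q)
  else w

/-- The number of heavy queries among the first `i`. -/
def hc (q : List Bool × List Bool × List Bool → List Bool) (Λ : List Bool × List Bool → Bool)
    (x a v : List Bool) (i : ℕ) : ℕ :=
  ((List.range i).filter fun j => !Λ (x, q (x, a, v.take j))).length

/-- The verifier, in terms of the parts of its input. -/
def GWp (q : List Bool × List Bool × List Bool → List Bool)
    (Λ R G : List Bool × List Bool → Bool) (p : Polynomial ℕ) (c C k : ℕ)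
    (x a s v y : List Bool) : Bool :=
  decide (str v.length = (unpair (unpair s).2).1) &&
  (chkL Λ R p k x (unpair y).1 (vlc ((unpair y).1.length + 1) (unpair (unpair s).2).2) &&
  (decide ((unpair (unpair y).2).2.length - 1 ≤ p2 y.length (x.length ^ c + C)) &&
  (G (enc4 x a (unpair s).1 (unpair (unpair y).2).1, (unpair (unpair y).2).2) &&
  (List.range v.length).all fun i => decide (v.getD i false =
    ansL Λ x (q (x, a, v.take i)) (unpair y).1
      (vlc ((unpair y).1.length + 1) (unpair (unpair s).2).2)
      ((unpair (unpair y).2).1.getD (hc q Λ x a v i) false)))))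

/-- The verifier. -/
def GW (q : List Bool × List Bool × List Bool → List Bool)
    (Λ R G : List Bool × List Bool → Bool) (p : Polynomial ℕ) (c C k : ℕ)
    (z : List Bool × List Bool) : Bool :=
  GWp q Λ R G p c C k (unpair z.1).1 (unpair (unpair z.1).2).1
    (unpair (unpair (unpair z.1).2).2).1 (unpair (unpair (unpair z.1).2).2).2 z.2

lemma GW_enc4 (q : List Bool × List Bool × List Bool → List Bool)
    (Λ R G : List Bool × List Bool → Bool) (p : Polynomial ℕ) (c C k : ℕ)
    (x a s v y : List Bool) :
    GW q Λ R G p c C k (enc4 x a s v, y) = GWp q Λ R G p c C k x a s v y := by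
  simp only [GW, enc4, unpair_enc]

section PTs

variable {α : Type} [DEnc α] {q : List Bool × List Bool × List Bool → List Bool}
  {Λ R G : List Bool × List Bool → Bool}

lemma PT_ansL (hΛ : PT Λ) {x Q y : α → List Bool} {t : α → ℕ} {w : α → Bool} (hx : PT x)
    (hQ : PT Q) (hy : PT y) (ht : PT t) (hw : PT w) :
    PT (fun z => ansL Λ (x z) (Q z) (y z) (t z) (w z)) := by
  unfold ansL
  refine PT.cond (hΛ.comp (PT.pair hx hQ)) ?_ hw
  refine PT.any (p := fun w : α × ℕ => decide ((unpair (blk (unpair (y w.1)).1.length
      (unpair (y w.1)).2 w.2)).1 = Q w.1)) (PT.range ht) ?_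
  exact PT_leq (PT_blk' (hy.comp PT.fst) PT.snd).p1 (hQ.comp PT.fst)

lemma PT_hc (hq : PT q) (hΛ : PT Λ) {x a v : α → List Bool} {i : α → ℕ} (hx : PT x)
    (ha : PT a) (hv : PT v) (hi : PT i) : PT (fun z => hc q Λ (x z) (a z) (v z) (i z)) := by
  unfold hc
  refine PT.length (PT.filter (p := fun w : α × ℕ => !Λ (x w.1, q (x w.1, a w.1,
    (v w.1).take w.2))) (PT.range hi) ?_)
  exact PT.bnot (hΛ.comp (PT.pair (hx.comp PT.fst) (hq.comp (PT.pair (hx.comp PT.fst)
    (PT.pair (ha.comp PT.fst) (PT_take PT.snd (hv.comp PT.fst)))))))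

lemma PT_GW (hq : PT q) (hΛ : PT Λ) (hR : PT R) (hG : PT G) (p : Polynomial ℕ) (c C k : ℕ) :
    PT (GW q Λ R G p c C k) := by
  unfold GW GWp
  have hy : PT (fun z : List Bool × List Bool => z.2) := PT.snd
  have u1 : PT (fun z : List Bool × List Bool => unpair z.1) := PT_unpair.comp PT.fst
  have hx : PT (fun z : List Bool × List Bool => (unpair z.1).1) := u1.p1
  have u2 : PT (fun z : List Bool × List Bool => unpair (unpair z.1).2) := PT_unpair.comp u1.p2
  have ha : PT (fun z : List Bool × List Bool => (unpair (unpair z.1).2).1) := u2.p1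
  have u3 : PT (fun z : List Bool × List Bool => unpair (unpair (unpair z.1).2).2) :=
    PT_unpair.comp u2.p2
  have hs := u3.p1
  have hv := u3.p2
  have us := PT_unpair.comp hs
  have us2 := PT_unpair.comp us.p2
  have uy := PT_unpair.comp hy
  have uy2 := PT_unpair.comp uy.p2
  have ht : PT (fun z : List Bool × List Bool => vlc ((unpair z.2).1.length + 1)
      (unpair (unpair (unpair (unpair (unpair z.1).2).2).1).2).2) :=
    PT_vlc (PT.nsucc (PT.length uy.p1)) us2.p2
  have hm : PT (fun z : List Bool × List Bool => (unpair z.1).1.length ^ c + C) :=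
    PT.nadd (PT_npow (PT.length hx) c) (PT.const C)
  refine PT.band (PT_leq (PT_str (PT.length hv)) us2.p1) (PT.band (PT_chkL hΛ hR p k hx uy.p1 ht)
    (PT.band (PT.nle (PT.nsub (PT.length uy2.p2) (PT.const 1)) (PT_p2 (PT.length hy) hm))
      (PT.band ?_ ?_)))
  · unfold enc4
    exact hG.comp (PT.pair (PT_encPair hx (PT_encPair ha (PT_encPair us.p1 uy2.p1))) uy2.p2)
  · refine PT.all (p := fun w : (List Bool × List Bool) × ℕ =>
      decide ((unpair (unpair (unpair w.1.1).2).2).2.getD w.2 false =
      ansL Λ (unpair w.1.1).1 (q ((unpair w.1.1).1, (unpair (unpair w.1.1).2).1,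
        (unpair (unpair (unpair w.1.1).2).2).2.take w.2)) (unpair w.1.2).1
        (vlc ((unpair w.1.2).1.length + 1)
          (unpair (unpair (unpair (unpair (unpair w.1.1).2).2).1).2).2)
        ((unpair (unpair w.1.2).2).1.getD (hc q Λ (unpair w.1.1).1 (unpair (unpair w.1.1).2).1
          (unpair (unpair (unpair w.1.1).2).2).2 w.2) false))) (PT.range (PT.length hv)) ?_
    have hx' := hx.comp (PT.fst (α := List Bool × List Bool) (β := ℕ))
    have ha' := ha.comp (PT.fst (α := List Bool × List Bool) (β := ℕ))
    have hv' := hv.comp (PT.fst (α := List Bool × List Bool) (β := ℕ))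
    refine PT.beq (PT.getD hv' PT.snd (PT.const false)) ?_
    exact PT_ansL hΛ hx' (hq.comp (PT.pair hx' (PT.pair ha' (PT_take PT.snd hv'))))
      (uy.comp PT.fst).p1 (ht.comp PT.fst)
      (PT.getD (uy2.comp PT.fst).p1 (PT_hc hq hΛ hx' ha' hv' PT.snd) (PT.const false))

end PTs

/-! ### the answers to the heavy queries -/

lemma length_heavy (A : Set (List Bool)) (q : List Bool × List Bool × List Bool → List Bool)
    (Λ : List Bool × List Bool → Bool) (x a : List Bool) (i : ℕ) :
    (heavyAnswers A q Λ x a i).length =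
      ((List.range i).filter fun j => !Λ (x, q (x, a, answers A q x a j))).length := by
  induction i with
  | zero => rfl
  | succ i ih =>
    rw [List.range_succ, List.filter_append, List.length_append, ← ih]
    simp only [heavyAnswers, List.length_append]
    cases h : Λ (x, q (x, a, answers A q x a i)) <;> simp [h]

lemma heavy_prefix (A : Set (List Bool)) (q : List Bool × List Bool × List Bool → List Bool)
    (Λ : List Bool × List Bool → Bool) (x a : List Bool) (N i : ℕ) (hi : i ≤ N) :
    ∃ r, heavyAnswers A q Λ x a N = heavyAnswers A q Λ x a i ++ r := by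
  induction N with
  | zero =>
    have : i = 0 := by omega
    subst this
    exact ⟨[], by simp⟩
  | succ N ih =>
    rcases Nat.lt_or_ge N i with h | h
    · have : i = N + 1 := by omega
      subst this
      exact ⟨[], by simp⟩
    · obtain ⟨r, hr⟩ := ih h
      simp only [heavyAnswers]
      rw [hr, List.append_assoc]
      exact ⟨_, rfl⟩

open Classical in
lemma heavy_getD (A : Set (List Bool)) (q : List Bool × List Bool × List Bool → List Bool)
    (Λ : List Bool × List Bool → Bool) (x a : List Bool) (N i : ℕ) (hi : i < N)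
    (hΛ : Λ (x, q (x, a, answers A q x a i)) = false) :
    (heavyAnswers A q Λ x a N).getD (heavyAnswers A q Λ x a i).length false =
      decide (q (x, a, answers A q x a i) ∈ A) := by
  obtain ⟨r, hr⟩ := heavy_prefix A q Λ x a N (i + 1) (by omega)
  rw [hr]
  simp only [heavyAnswers, hΛ]
  rw [List.append_assoc, List.getD_append_right _ _ _ _ le_rfl, Nat.sub_self]
  simp

/-! ### correctness -/

section

variable {A : Set (List Bool)} {q : List Bool × List Bool × List Bool → List Bool}
    {Λ R G : List Bool × List Bool → Bool} {p : Polynomial ℕ} {c C k N : ℕ}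
    (hA : ∀ w, w ∈ A ↔ ∃ y : List Bool, y.length ≤ p.eval w.length ∧ R (w, y) = true)

open Classical in
include hA in
lemma ansL_eq {x a y : List Bool} {w : Bool} {i : ℕ}
    (hlen : (q (x, a, answers A q x a i)).length ≤ x.length ^ k + k)
    (hy : chkL Λ R p k x y (Dset A Λ k x).ncard = true)
    (hw : Λ (x, q (x, a, answers A q x a i)) = false →
      w = decide (q (x, a, answers A q x a i) ∈ A)) :
    ansL Λ x (q (x, a, answers A q x a i)) y (Dset A Λ k x).ncard w =
      decide (q (x, a, answers A q x a i) ∈ A) := by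
  unfold ansL
  obtain ⟨Q, hQ⟩ : ∃ Q, Q = q (x, a, answers A q x a i) := ⟨_, rfl⟩
  rw [← hQ] at hlen hw ⊢
  cases hΛ : Λ (x, Q)
  · rw [cond_false]
    exact hw hΛ
  · rw [cond_true, Bool.eq_iff_iff, decide_eq_true_eq]
    simp only [List.any_eq_true, List.mem_range, decide_eq_true_eq]
    constructor
    · rintro ⟨j, hj, h1⟩
      rw [← h1]
      exact chkL_sound hA hy j hj
    · intro h1
      exact chkL_complete hA hy Q ⟨h1, hlen, hΛ⟩

include hA in
lemma GWp_correct {x a s : List Bool} {E : ℕ}
    (hlen : ∀ i < N, (q (x, a, answers A q x a i)).length ≤ x.length ^ k + k)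
    (hG : ∀ v : List Bool, (∃ y : List Bool, y.length ≤ 2 ^ (x.length ^ c + C) ∧
      G (enc4 x a s v, y) = true) ↔ v = heavyAnswers A q Λ x a N)
    (hN : N ≤ 2 ^ (x.length ^ c + C))
    (hD : (Dset A Λ k x).ncard ≤ 2 ^ (x.length ^ c + C))
    (hE : 2 ^ (x.length ^ c + C) *
      (6 * (2 * (2 * (x.length ^ k + k) + 2 + p.eval (x.length ^ k + k)) + 2) + 11) ≤ 2 ^ E)
    (v : List Bool) :
    (∃ y : List Bool, y.length ≤ 2 ^ E ∧ GWp q Λ R G p c C k x a
      (encPair (s, encPair (str N, str (Dset A Λ k x).ncard))) v y = true) ↔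
      v = answers A q x a N := by
  classical
  constructor
  · rintro ⟨y, _, hy⟩
    unfold GWp at hy
    simp only [unpair_enc, Bool.and_eq_true, decide_eq_true_eq, List.all_eq_true,
      List.mem_range, vlc_eq, vl_str] at hy
    obtain ⟨h1, h2, hg1, hg2, h3⟩ := hy
    have h4 : v.length = N := by
      have := congrArg vl h1
      rwa [vl_str, vl_str] at this
    have h5 : min ((unpair y).1.length + 1) (Dset A Λ k x).ncard = (Dset A Λ k x).ncard := by
      have h6 := h2
      unfold chkL at h6
      simp only [Bool.and_eq_true, decide_eq_true_eq] at h6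
      have h7 := h6.1
      omega
    rw [h5] at h2 h3
    have hu : (unpair (unpair y).2).1 = heavyAnswers A q Λ x a N := by
      refine (hG _).mp ⟨_, ?_, hg2⟩
      rw [p2_eq] at hg1
      have h6 : 1 ≤ 2 ^ (x.length ^ c + C) := Nat.one_le_pow _ _ (by norm_num)
      omega
    rw [hu] at h3
    have key : ∀ i ≤ N, v.take i = answers A q x a i := by
      intro i
      induction i with
      | zero => intro _; rfl
      | succ i ih =>
        intro hi
        have h6 := ih (by omega)
        have h7 := h3 i (by omega)
        have h8 : hc q Λ x a v i = (heavyAnswers A q Λ x a i).length := by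
          rw [length_heavy]
          unfold hc
          congr 1
          apply List.filter_congr
          intro j hj
          rw [List.mem_range] at hj
          have h9 : v.take j = answers A q x a j := by
            have h10 := answers_take A q x a i j hj.le
            rw [← h6, List.take_take, min_eq_left hj.le] at h10
            exact h10
          rw [h9]
        rw [h6, h8, ansL_eq hA (hlen i (by omega)) h2
          (fun hΛ => heavy_getD A q Λ x a N i (by omega) hΛ)] at h7
        rw [List.getD_eq_getElem _ _ (by omega)] at h7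
        rw [List.take_succ_eq_append_getElem (by omega), h6, h7]
        simp only [answers]
    have h6 := key N le_rfl
    rwa [List.take_of_length_le (by omega)] at h6
  · rintro rfl
    obtain ⟨y, hy1, hy2⟩ := exists_chkL hA x hD
    obtain ⟨g, hg1, hg2⟩ := (hG _).mpr rfl
    have h0 : 1 ≤ 2 ^ (x.length ^ c + C) := Nat.one_le_pow _ _ (by norm_num)
    have hul : (heavyAnswers A q Λ x a N).length ≤ N := by
      rw [length_heavy]
      exact (List.length_filter_le _ _).trans (by rw [List.length_range])
    refine ⟨encPair (y, encPair (heavyAnswers A q Λ x a N, g)), ?_, ?_⟩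
    · rw [length_encPair, length_encPair]
      refine le_trans ?_ hE
      obtain ⟨Z, hZ⟩ : ∃ Z, Z = 2 * (2 * (x.length ^ k + k) + 2 + p.eval (x.length ^ k + k)) +
        2 := ⟨_, rfl⟩
      rw [← hZ] at hy1 ⊢
      have h1 : 2 ^ (x.length ^ c + C) * (6 * Z + 11) =
        2 * (2 ^ (x.length ^ c + C) * (3 * Z + 2)) + 7 * 2 ^ (x.length ^ c + C) := by ring
      rw [h1]
      omega
    · have h5 : min (y.length + 1) (Dset A Λ k x).ncard = (Dset A Λ k x).ncard := by
        have h6 := hy2
        unfold chkL at h6
        simp only [Bool.and_eq_true, decide_eq_true_eq] at h6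
        have h7 := h6.1
        omega
      unfold GWp
      simp only [unpair_enc, Bool.and_eq_true, decide_eq_true_eq, List.all_eq_true,
        List.mem_range, vlc_eq, vl_str]
      rw [h5, length_answers]
      refine ⟨rfl, hy2, ?_, hg2, ?_⟩
      · rw [p2_eq, length_encPair, length_encPair]
        omega
      · intro i hi
        have h8 : hc q Λ x a (answers A q x a N) i = (heavyAnswers A q Λ x a i).length := by
          rw [length_heavy]
          unfold hc
          congr 1
          apply List.filter_congr
          intro j hj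
          rw [List.mem_range] at hj
          rw [answers_take A q x a N j (by omega)]
        rw [answers_getD _ _ _ _ _ _ hi, answers_take _ _ _ _ _ _ hi.le, h8,
          ansL_eq hA (hlen i hi) hy2 (fun hΛ => heavy_getD A q Λ x a N i hi hΛ)]

end

lemma low_bound (c C κ : ℕ) : ∃ C', ∀ n, 5 * (n ^ c + C) + 7 + (κ + n) ≤
    n ^ (c + 2) + C' := by
  obtain ⟨C', hC'⟩ := pow_bound 6 (5 * C + 12 + κ) (c + 1)
  refine ⟨C', fun n => le_trans ?_ (hC' n)⟩
  have h1 : n ≤ n ^ (c + 1) := Nat.le_self_pow (by omega) n
  have h2 : n ^ c ≤ n ^ (c + 1) + 1 := by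
    rcases Nat.eq_zero_or_pos n with rfl | h
    · rcases Nat.eq_zero_or_pos c with rfl | hc
      · simp
      · rw [zero_pow (by omega)]; omega
    · exact (Nat.pow_le_pow_right h (by omega)).trans (Nat.le_succ _)
  omega

theorem small_of_low {c : ℕ} {L : Set (List Bool)} (h : InLowInfo c L) :
    InSmallInfo (c + 2) L := by
  obtain ⟨A, q, d, a, N, C, k, Λ, G, ⟨⟨R, p, hR, hA⟩, hq, hd, ha, hN, hlen, hL⟩, hΛ, hG, hx⟩ := h
  have hR' := PT_of_encPair hR
  have hΛ' := PT_of_encPair hΛ
  have hG' := PT_of_encPair hG
  have hq' := PT_of_enc3 hq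
  obtain ⟨κ, hκ⟩ := exists_poly_le
    (6 * (2 * (2 * (Polynomial.X ^ k + Polynomial.C k) + 2 +
      p.comp (Polynomial.X ^ k + Polynomial.C k)) + 2) + 11)
  have hκ' : ∀ n, 6 * (2 * (2 * (n ^ k + k) + 2 + p.eval (n ^ k + k)) + 2) + 11 ≤
      2 ^ (κ + n) := by
    intro n
    have := hκ n
    simpa [Polynomial.eval_comp] using this
  obtain ⟨C', hC'⟩ := low_bound c C κ
  have hb1 : ∀ n, n ^ c + C ≤ n ^ (c + 2) + C' := by
    intro n
    have := hC' n
    omega
  refine ⟨A, q, d, a, N, C', k, GW q Λ R G p c C k, ⟨⟨R, p, hR, hA⟩, hq, hd,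
    fun n => (ha n).trans (hb1 n), fun n => (hN n).trans (Nat.pow_le_pow_right (by norm_num)
      (hb1 n)), hlen, hL⟩, PT.verifier (PT_GW hq' hΛ' hR' hG' p c C k), ?_⟩
  intro x
  obtain ⟨hD, s, hs, hdes⟩ := hx x
  refine ⟨encPair (s, encPair (str (N x.length), str (Dset A Λ k x).ncard)), ?_, ?_⟩
  · rw [length_encPair, length_encPair]
    have h1 := length_str_le (hN x.length)
    have h2 := length_str_le hD
    have h3 := hC' x.length
    change 2 * s.length + 2 + (2 * (str (N x.length)).length + 2 +
      (str (Dset A Λ k x).ncard).length) ≤ _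
    unfold Dset
    omega
  · intro v
    simp only [GW_enc4]
    refine GWp_correct hA (hlen x) hdes (hN _) hD ?_ v
    calc _ ≤ 2 ^ (x.length ^ c + C) * 2 ^ (κ + x.length) := Nat.mul_le_mul_left _ (hκ' _)
      _ = 2 ^ (x.length ^ c + C + (κ + x.length)) := (pow_add _ _ _).symm
      _ ≤ _ := Nat.pow_le_pow_right (by norm_num) (by have := hC' x.length; omega)

end Pool.Agent.MP_92db0f_lc
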