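import Pool.Agent.MP_92db0f_lc.Diag
import Pool.Agent.MP_92db0f_lc.Long
import Pool.Agent.MP_92db0f_lc.Low

/-!
The main theorem.
-/

set_option autoImplicit false

namespace Pool.Agent.MP_92db0f_lc

open Lib.helper60 Function Turing Computability

lemma eventually_poly_le (P : Polynomial ℕ) : ∃ B, ∀ n, B ≤ n → P.eval n ≤ 2 ^ n := by
  obtain ⟨s₀, hs⟩ := exists_poly_le (P * Polynomial.X)
  refine ⟨2 ^ s₀, fun n hn => ?_⟩
  have h1 := hs n
  rw [Polynomial.eval_mul, Polynomial.eval_X, pow_add] at h1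
  have h2 : P.eval n * 2 ^ s₀ ≤ P.eval n * n := Nat.mul_le_mul_left _ hn
  have h3 : 2 ^ s₀ * P.eval n ≤ 2 ^ s₀ * 2 ^ n := by
    rw [Nat.mul_comm (2 ^ s₀) (P.eval n)]
    omega
  exact Nat.le_of_mul_le_mul_left h3 (by positivity)

theorem LD_not (D : ℕ) : ¬ InEA D (LD D) := by
  rintro ⟨W, b, C, hW, hb, hL⟩
  -- the table
  let V : List Bool × List Bool → Bool := fun p =>
    W (p.1, (unpair p.2).1, (unpair p.2).2.length)
  have hV : PT V := by
    have u : PT (fun p : List Bool × List Bool => unpair p.2) := PT_unpair.comp PT.snd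
    exact hW.comp (PT.pair PT.fst (PT.pair u.p1 (PT.length u.p2)))
  obtain ⟨cmp⟩ := PT.verifier hV
  obtain ⟨φ, T, hs⟩ := exists_table cmp
  -- the parameters
  obtain ⟨B, hB⟩ := eventually_poly_le ((3 * Polynomial.X + 2) ^ (D + 1) + 2)
  have hD0 : 0 < 2 ^ D := by positivity
  let s : ℕ := B + C + 2 ^ D + 1 + T.eval 9 + T.natDegree
  let z : List Bool := encCNF φ ++ List.replicate s true
  have hz : parse z = φ := parse_append_true φ s
  let ℓ : ℕ := z.length
  have hℓ : s ≤ ℓ := by simp [ℓ, z]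
  let n : ℕ := 2 * ℓ + 2 + ℓ
  have hn : s ≤ n := by simp only [n]; omega
  have hn1 : 1 ≤ n := by simp only [n]; omega
  have c1 : n ^ (D + 1) + 2 ≤ 2 ^ ℓ := by
    have h := hB ℓ (by omega)
    simp only [Polynomial.eval_add, Polynomial.eval_pow, Polynomial.eval_mul,
      Polynomial.eval_ofNat, Polynomial.eval_X] at h
    have : n = 3 * ℓ + 2 := by simp only [n]; omega
    rw [this]
    exact h
  have hposD : 1 ≤ n ^ D := Nat.one_le_pow _ _ hn1
  have hposD1 : 1 ≤ n ^ (D + 1) := Nat.one_le_pow _ _ hn1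
  have c2 : (n + C) ^ D + 1 ≤ n ^ (D + 1) := by
    have h1 : (n + C) ^ D ≤ (2 * n) ^ D := Nat.pow_le_pow_left (by omega) _
    rw [mul_pow] at h1
    have h2 : n ^ D * (2 ^ D + 1) ≤ n ^ D * n := Nat.mul_le_mul_left _ (by omega)
    rw [← pow_succ, Nat.mul_add, Nat.mul_one, Nat.mul_comm (n ^ D) (2 ^ D)] at h2
    omega
  have c2' : 2 ^ ((n + C) ^ D) ≤ 2 ^ (n ^ (D + 1)) - 1 := by
    have h1 : 2 ^ ((n + C) ^ D + 1) ≤ 2 ^ (n ^ (D + 1)) := Nat.pow_le_pow_right (by norm_num) c2
    rw [pow_succ] at h1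
    have h2 : 1 ≤ 2 ^ ((n + C) ^ D) := Nat.one_le_pow _ _ (by norm_num)
    omega
  have c3 : ∀ X v : List Bool, X.length = n → v.length ≤ n ^ (D + 1) →
      T.eval (encPair (X, encPair (v, List.replicate (2 ^ (n ^ (D + 1)) - 1) true))).length ≤
        2 ^ (n ^ (D + 2)) - 1 := by
    intro X v hX hv
    rw [length_encPair, length_encPair, List.length_replicate, hX]
    have h1 : n ^ (D + 1) < 2 ^ (n ^ (D + 1)) := Nat.lt_two_pow_self
    have h2 : n ≤ n ^ (D + 1) := Nat.le_self_pow (by omega) n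
    have h3 : 2 * n + 2 + (2 * v.length + 2 + (2 ^ (n ^ (D + 1)) - 1)) ≤
        9 * 2 ^ (n ^ (D + 1)) := by omega
    have h4 : T.eval (2 * n + 2 + (2 * v.length + 2 + (2 ^ (n ^ (D + 1)) - 1))) ≤
        T.eval 9 * (2 ^ (n ^ (D + 1))) ^ T.natDegree :=
      (evalMono T h3).trans (eval_mul_le T 9 _ (Nat.one_le_pow _ _ (by norm_num)))
    have h5 : T.eval 9 ≤ 2 ^ T.eval 9 := Nat.lt_two_pow_self.le
    have h6 : T.eval 9 * (2 ^ (n ^ (D + 1))) ^ T.natDegree ≤
        2 ^ (T.eval 9 + n ^ (D + 1) * T.natDegree) := by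
      rw [pow_add 2 (T.eval 9), pow_mul 2 (n ^ (D + 1))]
      exact Nat.mul_le_mul_right _ h5
    have h7 : T.eval 9 + n ^ (D + 1) * T.natDegree + 1 ≤ n ^ (D + 2) := by
      have h8 : n ^ (D + 1) * (T.natDegree + (T.eval 9 + 1)) ≤ n ^ (D + 1) * n :=
        Nat.mul_le_mul_left _ (by omega)
      rw [← pow_succ, show D + 1 + 1 = D + 2 from rfl, Nat.mul_add] at h8
      have h9 : T.eval 9 + 1 ≤ n ^ (D + 1) * (T.eval 9 + 1) := Nat.le_mul_of_pos_left _ (by omega)
      omega
    have h8 : 2 ^ (T.eval 9 + n ^ (D + 1) * T.natDegree + 1) ≤ 2 ^ (n ^ (D + 2)) :=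
      Nat.pow_le_pow_right (by norm_num) h7
    rw [pow_succ] at h8
    have h9 : 1 ≤ 2 ^ (T.eval 9 + n ^ (D + 1) * T.natDegree) := Nat.one_le_pow _ _ (by norm_num)
    omega
  -- the machine on the test inputs
  have hmach : ∀ X v : List Bool, X.length = n → v.length ≤ n ^ (D + 1) →
      machI D φ n X v = W (X, v, 2 ^ (n ^ (D + 1)) - 1) := by
    intro X v hX hv
    have h1 := (hs (X, encPair (v, List.replicate (2 ^ (n ^ (D + 1)) - 1) true))
      (2 ^ (n ^ (D + 2)) - 1)).1 (c3 X v hX hv)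
    have h2 := (hs (X, encPair (v, List.replicate (2 ^ (n ^ (D + 1)) - 1) true))
      (2 ^ (n ^ (D + 2)) - 1)).2 h1
    unfold machI
    rw [h1, h2]
    simp only [V, unpair_enc, List.length_replicate]
    rfl
  -- the contradiction
  have hne : {k | GoodI D z ℓ n k}.Nonempty := by
    obtain ⟨k, _, hk⟩ := exists_good D z ℓ n
    exact ⟨k, hk⟩
  have hgood : GoodI D z ℓ n (sInf {k | GoodI D z ℓ n k}) := Nat.sInf_mem hne
  have hbn : (b n).length ≤ n ^ (D + 1) := (hb n).trans (by omega)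
  obtain ⟨i, hi, h⟩ := hgood (b n) hbn
  have hu : (str (2 ^ ℓ - 1 + i)).length = ℓ := length_str_eq (by omega)
  have hX : (testI z ℓ i).length = n := by
    unfold testI
    rw [length_encPair, hu]
  rw [hz, hmach _ _ hX hbn] at h
  have h1 := hL (testI z ℓ i) (2 ^ (n ^ (D + 1)) - 1) (by rw [hX]; exact c2')
  rw [hX] at h1
  have h2 : testI z ℓ i ∈ LD D ↔
      (str (sInf {k | GoodI D z ℓ n k})).getD i false = true := by
    unfold testI
    rw [mem_LD_iff]
    unfold GI
    have h3 : (encPair (z, str (2 ^ ℓ - 1 + i))).length = n := hX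
    rw [h3, hu, vl_str, Nat.add_sub_cancel_left]
  apply h
  rw [Bool.eq_iff_iff, ← h1, h2]

/-- **Main theorem.** -/
theorem main (c : ℕ) : ∃ L, InNEXP L ∧ ¬ InLowInfo c L := by
  by_contra hcon
  push Not at hcon
  have hall : ∀ L, InNEXP L → InSmallInfo (c + 2) L := fun L hL => small_of_low (hcon L hL)
  obtain ⟨A, q, d, a, N, C, k, G, hcomp, _⟩ := hall KL KL_mem
  obtain ⟨e, he⟩ := inEA_of_computes hcomp
  exact LD_not _ (inEA_fixed he (hall _ (LD_mem ((c + 2 + 2) * (e + 1) + 1))))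

/-- Languages with answer sequences of small information, as a special case. -/
theorem low_of_small {c : ℕ} {L : Set (List Bool)} (h : InSmallInfo c L) : InLowInfo c L := by
  obtain ⟨A, q, d, a, N, C, k, G, hcomp, hG, hx⟩ := h
  refine ⟨A, q, d, a, N, C, k, fun _ => false, G, hcomp, PT.verifier (PT.const false), hG, ?_⟩
  intro x
  refine ⟨by simp, ?_⟩
  obtain ⟨s, hs, hdes⟩ := hx x
  refine ⟨s, hs, ?_⟩
  have key : ∀ i, heavyAnswers A q (fun _ => false) x (a x.length) i =
      answers A q x (a x.length) i := by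
    intro i
    induction i with
    | zero => rfl
    | succ i ih => simp [heavyAnswers, answers, ih]
  rw [key]
  exact hdes

/-- **Corollary.** For every `c` there is a language in NEXP such that every polynomial-time
computation with an NP oracle and `n ^ c + C` bits of advice that decides it makes, for some
inputs, more than `n ^ c + C` queries that are longer than `n ^ c + C` and are answered yes, and
also more than `n ^ c + C` such queries that are answered no. -/
theorem main_long (c : ℕ) : ∃ L, InNEXP L ∧ ∀ b, ¬ InFewLong c b L := by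
  obtain ⟨L, h1, h2⟩ := main (2 * (c + 1) + 2)
  exact ⟨L, h1, fun b hb => h2 (low_of_small (small_of_few (few_of_long hb)))⟩

end Pool.Agent.MP_92db0f_lc
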