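import Pool.Agent.MP_92db0f_lc.SMCode
import Pool.Agent.Lib.helper60.ToTM2

/-!
Every polynomial-time Turing machine is simulated by a table.
-/

set_option autoImplicit false

namespace Pool.Agent.MP_92db0f_lc

open Lib.helper60 Function H66 Turing

/-- The table simulates the function. -/
def Sim {α β : Type} (φ : CNF) (T : Polynomial ℕ) (ea : α → List Bool) (eb : β → List Bool)
    (f : α → β) : Prop :=
  ∀ (a : α) (t : ℕ), (T.eval (ea a).length ≤ t → thalt φ (trun φ (ea a) t) = true) ∧
    (thalt φ (trun φ (ea a) t) = true → tout φ (trun φ (ea a) t) = eb (f a))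

theorem exists_table {α β : Type} {ea : α → List Bool} {eb : β → List Bool} {f : α → β}
    (cmp : TM2ComputableInPolyTime ea eb f) : ∃ (φ : CNF) (T : Polynomial ℕ), Sim φ T ea eb f := by
  classical
  let tm := cmp.tm
  let _ : DecidableEq tm.K := tm.kDecidableEq
  let _ : Fintype tm.K := tm.kFin
  let _ : Fintype tm.Λ := tm.ΛFin
  let _ : Fintype tm.σ := tm.σFin
  let _ : Fintype (tm.Γ tm.k₀) := tm.Γk₀Fin
  have _ : Finite (usedS tm.m tm.k₀) := (usedS_finite tm.m tm.k₀).to_subtype
  let _ : Fintype (usedS tm.m tm.k₀) := Fintype.ofFinite _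
  obtain ⟨D, hD⟩ : ∃ D, ∀ l, msize (tm.m l) ≤ D :=
    ⟨∑ l, msize (tm.m l), fun l => Finset.single_le_sum (f := fun l => msize (tm.m l))
      (fun _ _ => Nat.zero_le _) (Finset.mem_univ l)⟩
  let c₀ : CC tm.m := (⟨some (tm.m tm.main), mem_stmts.2 ⟨_, TM2.stmts₁_self⟩⟩, tm.initialState)
  let e : Bool → AA tm.m tm.k₀ := fun o => inj tm.m tm.k₀ tm.k₀ (cmp.inputAlphabet.symm o)
  let good : AA tm.m tm.k₀ := inj tm.m tm.k₀ tm.k₁ (cmp.outputAlphabet.symm true)
  let hlt : CC tm.m → Bool := fun c => decide (c.1.val = none)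
  let M := toSM tm.m tm.k₀
  let φ := codeSM M tm.k₀ tm.k₁ c₀ (e false) (e true) good hlt
  refine ⟨φ, Polynomial.C D * cmp.time, fun a t => ?_⟩
  -- the run of the machine
  have hrun := cmp.outputsFun a
  obtain ⟨⟨steps, hsteps⟩, hle⟩ := hrun
  simp only at hle
  obtain ⟨n, hn', hmr⟩ := mstep_run tm.m tm.k₀ D hD steps _ _ hsteps
  have hrel0 : Rel tm.m tm.k₀ (img tm.m (initList tm ((ea a).map cmp.inputAlphabet.invFun)))
      (c₀, fun k => if k = tm.k₀ then (ea a).map (fun b => bif b then e true else e false)
        else []) := by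
    refine ⟨rfl, ?_, ?_⟩
    · intro k
      by_cases hk : k = tm.k₀
      · subst hk
        have h1 : (img tm.m (initList tm ((ea a).map cmp.inputAlphabet.invFun))).2 tm.k₀ =
            (ea a).map cmp.inputAlphabet.invFun := by
          show (initList tm _).stk tm.k₀ = _
          unfold initList
          simp
        rw [h1, List.map_map]
        simp only [if_true]
        apply List.map_congr_left
        intro b _
        cases b <;> rfl
      · have h1 : (img tm.m (initList tm ((ea a).map cmp.inputAlphabet.invFun))).2 k = [] := by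
          show (initList tm _).stk k = _
          unfold initList
          exact dif_neg hk
        rw [h1]
        simp [hk]
    · intro k z hz
      by_cases hk : k = tm.k₀
      · exact Or.inl hk
      · have h1 : (img tm.m (initList tm ((ea a).map cmp.inputAlphabet.invFun))).2 k = [] := by
          show (initList tm _).stk k = _
          unfold initList
          exact dif_neg hk
        rw [h1] at hz
        simp at hz
  have hrelt := hrel0.iterate t
  have hT0 := RelT.init M tm.k₀ tm.k₁ c₀ (e false) (e true) good hlt (ea a)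
  have hTt : RelT (M.step^[t] (c₀, fun k => if k = tm.k₀ then
      (ea a).map (fun b => bif b then e true else e false) else [])) (trun φ (ea a) t) :=
    hT0.iterate M tm.k₀ tm.k₁ c₀ (e false) (e true) good hlt t
  have hhalt : thalt φ (trun φ (ea a) t) = true ↔
      ((mstep tm.m tm.k₀)^[t] (img tm.m (initList tm
        ((ea a).map cmp.inputAlphabet.invFun)))).1.1 = none := by
    rw [hTt.halt M tm.k₀ tm.k₁ c₀ (e false) (e true) good hlt]
    simp only [hlt, decide_eq_true_eq]
    rw [hrelt.1]
  have hfinal : (img tm.m (haltList tm ((eb (f a)).map cmp.outputAlphabet.invFun))).1.1 = none :=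
    rfl
  have hstay : ∀ (s : (Option (TM2.Stmt tm.Γ tm.Λ tm.σ) × tm.σ) × (∀ k, List (tm.Γ k))) (r : ℕ),
      s.1.1 = none → (mstep tm.m tm.k₀)^[r] s = s := by
    rintro ⟨⟨q, v⟩, S⟩ r hs
    simp only at hs
    subst hs
    exact mstep_halted _ _ _ _ _
  constructor
  · intro ht
    rw [hhalt]
    have hnt : n ≤ t := by
      refine hn'.trans (le_trans ?_ ht)
      rw [Polynomial.eval_mul, Polynomial.eval_C]
      exact Nat.mul_le_mul_left D hle
    obtain ⟨r, hr⟩ := Nat.exists_eq_add_of_le hnt
    rw [hr, Nat.add_comm, iterate_add_apply, hmr, hstay _ _ hfinal]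
    exact hfinal
  · intro hh
    rw [hhalt] at hh
    have hsame : (mstep tm.m tm.k₀)^[t] (img tm.m (initList tm
        ((ea a).map cmp.inputAlphabet.invFun))) =
        img tm.m (haltList tm ((eb (f a)).map cmp.outputAlphabet.invFun)) := by
      rcases le_total n t with hnt | htn
      · obtain ⟨r, hr⟩ := Nat.exists_eq_add_of_le hnt
        rw [hr, Nat.add_comm, iterate_add_apply, hmr, hstay _ _ hfinal]
      · obtain ⟨r, hr⟩ := Nat.exists_eq_add_of_le htn
        have h1 := hmr
        rw [hr, Nat.add_comm, iterate_add_apply, hstay _ r hh] at h1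
        exact h1
    rw [hsame] at hrelt
    obtain ⟨_, hr2, hr3⟩ := hrelt
    rw [hTt.out M tm.k₀ tm.k₁ c₀ (e false) (e true) good hlt]
    have hstk : (img tm.m (haltList tm ((eb (f a)).map cmp.outputAlphabet.invFun))).2 tm.k₁ =
        (eb (f a)).map cmp.outputAlphabet.invFun := by
      show (haltList tm _).stk tm.k₁ = _
      unfold haltList
      simp
    have h4 := hr2 tm.k₁
    have h5 := hr3 tm.k₁
    rw [hstk] at h4 h5
    rw [h4, List.map_map, List.map_map]
    conv_rhs => rw [← List.map_id (eb (f a))]
    apply List.map_congr_left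
    intro b hb
    simp only [Function.comp_apply, id]
    rw [Bool.eq_iff_iff, decide_eq_true_eq]
    constructor
    · intro h6
      have h7 := inj_eq (h5 _ (List.mem_map_of_mem hb)) h6
      exact cmp.outputAlphabet.symm.injective h7
    · intro h6
      rw [h6]
      rfl

/-- The output of the table after sufficiently many steps, as a function on strings. -/
def strFun (φ : CNF) (T : Polynomial ℕ) (w : List Bool) : List Bool :=
  tout φ (trun φ w (T.eval w.length))

lemma PT_npow {α : Type} [DEnc α] {f : α → ℕ} (hf : PT f) (k : ℕ) : PT (fun a => f a ^ k) := by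
  induction k with
  | zero => exact (PT.const 1).congr fun a => by simp
  | succ k ih => exact (PT.nmul ih hf).congr fun a => by rw [pow_succ]

lemma PT_peval {α : Type} [DEnc α] (P : Polynomial ℕ) {f : α → ℕ} (hf : PT f) :
    PT (fun a => P.eval (f a)) := by
  have h : ∀ m : ℕ, PT (fun a => ∑ i ∈ Finset.range m, P.coeff i * f a ^ i) := by
    intro m
    induction m with
    | zero => exact (PT.const 0).congr fun a => by simp
    | succ m ih =>
      exact (PT.nadd ih (PT.nmul (PT.const (P.coeff m)) (PT_npow hf m))).congr fun a => by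
        rw [Finset.sum_range_succ]
  exact (h (P.natDegree + 1)).congr fun a => by rw [Polynomial.eval_eq_sum_range]

lemma PT_strFun (φ : CNF) (T : Polynomial ℕ) : PT (strFun φ T) := by
  unfold strFun
  exact PT_tout (PT.const φ) (PT_trun (PT.const φ) PT.id (PT_peval T (PT.length PT.id)))

lemma Sim.strFun {α β : Type} {φ : CNF} {T : Polynomial ℕ} {ea : α → List Bool}
    {eb : β → List Bool} {f : α → β} (h : Sim φ T ea eb f) (a : α) :
    MP_92db0f_lc.strFun φ T (ea a) = eb (f a) :=
  (h a _).2 ((h a _).1 le_rfl)

/-- **Polynomial-time Turing machines compute functions of the class `PT`.** -/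
theorem exists_PT {α β : Type} {ea : α → List Bool} {eb : β → List Bool} {f : α → β}
    (h : Nonempty (TM2ComputableInPolyTime ea eb f)) :
    ∃ F : List Bool → List Bool, PT F ∧ ∀ a, F (ea a) = eb (f a) := by
  obtain ⟨cmp⟩ := h
  obtain ⟨φ, T, hs⟩ := exists_table cmp
  exact ⟨strFun φ T, PT_strFun φ T, hs.strFun⟩

end Pool.Agent.MP_92db0f_lc
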