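import Pool.Agent.MP_92db0f_lc.Defs

/-!
Further classes of languages decided with an NP oracle, used in proofs and corollaries.
-/

set_option autoImplicit false

namespace Pool.Agent.MP_92db0f_lc

open Turing Computability Lib.helper60

/-- Languages decided by a computation as above whose sequence of answers on each input `x` has a
nondeterministic description `s` of length at most `n ^ c + C`: the sequence of answers is the
only string `v` such that the polynomial-time verifier `G` accepts `x`, the advice, `s` and `v`
with some certificate of length at most `2 ^ (n ^ c + C)`. -/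
def InSmallInfo (c : ℕ) (L : Set (List Bool)) : Prop :=
  ∃ (A : Set (List Bool)) (q : List Bool × List Bool × List Bool → List Bool)
    (d : List Bool × List Bool × List Bool → Bool) (a : ℕ → List Bool) (N : ℕ → ℕ) (C k : ℕ)
    (G : List Bool × List Bool → Bool),
    Computes A L q d a N c C k ∧ Nonempty (TM2ComputableInPolyTime encPair encodeBool G) ∧
    ∀ x : List Bool, ∃ s : List Bool, s.length ≤ x.length ^ c + C ∧
      ∀ v : List Bool, (∃ y : List Bool, y.length ≤ 2 ^ (x.length ^ c + C) ∧
        G (enc4 x (a x.length) s v, y) = true) ↔
          v = answers A q x (a x.length) (N x.length)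

/-- Languages decided by a computation as above with the following restriction. There is a
polynomial-time test `Λ` which, given the input `x`, divides the queries into light and heavy
ones. For every input `x` of length `n` at most `2 ^ (n ^ c + C)` light strings of length at most
`n ^ k + k` are in the oracle `A`, and at most `n ^ c + C` of the queries are heavy and have the
answer `b`. -/
def InFewHeavy (c : ℕ) (b : Bool) (L : Set (List Bool)) : Prop :=
  ∃ (A : Set (List Bool)) (q : List Bool × List Bool × List Bool → List Bool)
    (d : List Bool × List Bool × List Bool → Bool) (a : ℕ → List Bool) (N : ℕ → ℕ) (C k : ℕ)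
    (Λ : List Bool × List Bool → Bool),
    Computes A L q d a N c C k ∧ Nonempty (TM2ComputableInPolyTime encPair encodeBool Λ) ∧
    ∀ x : List Bool,
      {Q : List Bool | Q ∈ A ∧ Q.length ≤ x.length ^ k + k ∧ Λ (x, Q) = true}.ncard ≤
        2 ^ (x.length ^ c + C) ∧
      {i : ℕ | i < N x.length ∧
        Λ (x, q (x, a x.length, answers A q x (a x.length) i)) = false ∧
        (q (x, a x.length, answers A q x (a x.length) i) ∈ A ↔ b = true)}.ncard ≤
        x.length ^ c + C

/-- Languages decided in polynomial time with an oracle `A` in NP and at most `n ^ c + C` bits of
advice for inputs of length `n`, by a computation which on every input of length `n` makes at most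
`n ^ c + C` queries that are longer than `n ^ c + C` and have the answer `b`. The number `N n` of
all queries is bounded by a polynomial. -/
def InFewLong (c : ℕ) (b : Bool) (L : Set (List Bool)) : Prop :=
  ∃ (A : Set (List Bool)) (q : List Bool × List Bool × List Bool → List Bool)
    (d : List Bool × List Bool × List Bool → Bool) (a : ℕ → List Bool) (N : ℕ → ℕ)
    (P : Polynomial ℕ) (C : ℕ),
    InNP A ∧ Nonempty (TM2ComputableInPolyTime enc3 (fun w => w) q) ∧
    Nonempty (TM2ComputableInPolyTime enc3 encodeBool d) ∧
    (∀ n, (a n).length ≤ n ^ c + C) ∧ (∀ n, N n ≤ P.eval n) ∧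
    ∀ x : List Bool,
      {i : ℕ | i < N x.length ∧
        x.length ^ c + C < (q (x, a x.length, answers A q x (a x.length) i)).length ∧
        (q (x, a x.length, answers A q x (a x.length) i) ∈ A ↔ b = true)}.ncard ≤
        x.length ^ c + C ∧
      (x ∈ L ↔ d (x, a x.length, answers A q x (a x.length) (N x.length)) = true)

end Pool.Agent.MP_92db0f_lc
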