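import Pool.Agent.MP_92db0f_lc.Certs
import Pool.Agent.MP_92db0f_lc.DefsB

/-!
Oracle computations are evaluated in deterministic exponential time.
-/

set_option autoImplicit false

namespace Pool.Agent.MP_92db0f_lc

open Lib.helper60 Function Turing Computability

theorem inEA_of_computes {A L : Set (List Bool)}
    {q : List Bool × List Bool × List Bool → List Bool}
    {d : List Bool × List Bool × List Bool → Bool} {a : ℕ → List Bool} {N : ℕ → ℕ}
    {c C k : ℕ} (h : Computes A L q d a N c C k) : ∃ e, InEA e L := by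
  obtain ⟨⟨R, p, hR, hA⟩, hq, hd, ha, hN, hlen, hL⟩ := h
  have hR' := PT_of_encPair hR
  have hq' := PT_of_enc3 hq
  have hd' := PT_of_enc3' hd
  let ansF : (List Bool × List Bool × ℕ) × List Bool → Bool := fun z =>
    (List.range z.1.2.2).any fun i => decide ((str i).length ≤ p.eval z.2.length) &&
      R (z.2, str i)
  have hF : PT ansF := by
    refine PT.any (p := fun y : ((List Bool × List Bool × ℕ) × List Bool) × ℕ =>
      decide ((str y.2).length ≤ p.eval y.1.2.length) && R (y.1.2, str y.2))
      (PT.range PT.fst.p2.p2) ?_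
    exact PT.band (PT.nle (PT.length (PT_str PT.snd)) (PT_peval p (PT.length PT.fst.p2)))
      (hR'.comp (PT.pair PT.fst.p2 (PT_str PT.snd)))
  let P : Polynomial ℕ := (p.comp (Polynomial.X ^ k + Polynomial.C k) + 1) +
    (3 * (Polynomial.X ^ c + Polynomial.C C) + 5)
  obtain ⟨C', e, hCe⟩ := poly_le_pow P
  have hP : ∀ n, p.eval (n ^ k + k) + 1 + (3 * (n ^ c + C) + 5) ≤ (n + C') ^ e := by
    intro n
    have := hCe n
    simpa [P, Polynomial.eval_comp] using this
  refine ⟨e, evalW q d ansF, fun n => encPair (a n, encPair ([], str (N n))), C',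
    PT_evalW hq' hd' hF, ?_, ?_⟩
  · intro n
    rw [length_encPair, length_encPair]
    have h1 := ha n
    have h2 := length_str_le (hN n)
    have h3 := hP n
    simp only [List.length_nil]
    omega
  · intro x pad hpad
    have h3 := hP x.length
    have h4 : 2 ^ (x.length ^ c + C) ≤ 2 ^ ((x.length + C') ^ e) :=
      Nat.pow_le_pow_right (by norm_num) (by omega)
    refine evalW_correct (cap := fun n => n ^ k + k) (fun x => ⟨hlen x, hL x⟩) ansF
      (fun _ => []) x pad ((hN _).trans (h4.trans hpad)) ?_
    intro Q hQ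
    rw [hA Q]
    simp only [ansF, List.any_eq_true, List.mem_range, Bool.and_eq_true, decide_eq_true_eq]
    constructor
    · rintro ⟨i, _, h5, h6⟩
      exact ⟨str i, h5, h6⟩
    · rintro ⟨y, h5, h6⟩
      refine ⟨vl y, ?_, ?_, ?_⟩
      · have h7 := vl_lt y
        have h8 : p.eval Q.length ≤ p.eval (x.length ^ k + k) := evalMono p hQ
        have h9 : 2 ^ (y.length + 1) ≤ 2 ^ ((x.length + C') ^ e) :=
          Nat.pow_le_pow_right (by norm_num) (by omega)
        omega
      · rw [str_vl]; exact h5
      · rw [str_vl]; exact h6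

lemma InEA.mono {e e' : ℕ} (hee : e ≤ e') {L : Set (List Bool)} (h : InEA e L) : InEA e' L := by
  obtain ⟨W, b, C, hW, hb, hL⟩ := h
  have key : ∀ n, (n + C) ^ e ≤ (n + (C + 1)) ^ e' := fun n =>
    (Nat.pow_le_pow_left (by omega) e).trans (Nat.pow_le_pow_right (by omega) hee)
  exact ⟨W, b, C + 1, hW, fun n => (hb n).trans (key n), fun x pad hpad =>
    hL x pad ((Nat.pow_le_pow_right (by norm_num) (key _)).trans hpad)⟩

end Pool.Agent.MP_92db0f_lc
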