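import Pool.Agent.Lib.helper60.PNP

/-!
Nondeterministic exponential time, and oracle computations with an NP oracle.
-/

set_option autoImplicit false

namespace Pool.Agent.MP_92db0f_lc

open Turing Computability Lib.helper60

/-- The class NEXP: membership of `x` is witnessed by certificates of length at most
`2 ^ (|x| ^ k + k)`, which a deterministic Turing machine checks in time polynomial in the length
of `x` and the certificate. -/
def InNEXP (L : Set (List Bool)) : Prop :=
  ∃ (k : ℕ) (V : List Bool × List Bool → Bool),
    Nonempty (TM2ComputableInPolyTime encPair encodeBool V) ∧
    ∀ x, x ∈ L ↔ ∃ y : List Bool, y.length ≤ 2 ^ (x.length ^ k + k) ∧ V (x, y) = true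

/-- The code of a triple of bit strings. -/
def enc3 (p : List Bool × List Bool × List Bool) : List Bool :=
  encPair (p.1, encPair (p.2.1, p.2.2))

/-- The code of a quadruple of bit strings. -/
def enc4 (x a s v : List Bool) : List Bool := encPair (x, encPair (a, encPair (s, v)))

open Classical in
/-- The answers of the oracle `A` to the first `i` queries of the computation on input `x` with
advice `a`, where `q` computes the next query from `x`, `a` and the answers so far. -/
noncomputable def answers (A : Set (List Bool))
    (q : List Bool × List Bool × List Bool → List Bool) (x a : List Bool) : ℕ → List Bool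
  | 0 => []
  | i + 1 => answers A q x a i ++ [decide (q (x, a, answers A q x a i) ∈ A)]

/-- The language `L` is decided by a computation with the oracle `A` in NP, where the function `q`
gives the next query and the function `d` gives the final decision; both are computed in time
polynomial in the length of the input, the advice and the list of the answers so far. The advice
`a n` depends on the length `n` of the input only and has at most `n ^ c + C` bits. The number of
queries is `N n ≤ 2 ^ (n ^ c + C)`, and each query has length at most `n ^ k + k`. -/
structure Computes (A L : Set (List Bool)) (q : List Bool × List Bool × List Bool → List Bool)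
    (d : List Bool × List Bool × List Bool → Bool) (a : ℕ → List Bool) (N : ℕ → ℕ)
    (c C k : ℕ) : Prop where
  oracle : InNP A
  query : Nonempty (TM2ComputableInPolyTime enc3 (fun w => w) q)
  decision : Nonempty (TM2ComputableInPolyTime enc3 encodeBool d)
  advice : ∀ n, (a n).length ≤ n ^ c + C
  number : ∀ n, N n ≤ 2 ^ (n ^ c + C)
  length : ∀ x : List Bool, ∀ i < N x.length,
    (q (x, a x.length, answers A q x (a x.length) i)).length ≤ x.length ^ k + k
  decides : ∀ x : List Bool,
    x ∈ L ↔ d (x, a x.length, answers A q x (a x.length) (N x.length)) = true

open Classical in
/-- The answers to the heavy queries among the first `i` queries; the query `Q` is light if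
`Λ (x, Q) = true` and heavy otherwise. -/
noncomputable def heavyAnswers (A : Set (List Bool))
    (q : List Bool × List Bool × List Bool → List Bool) (Λ : List Bool × List Bool → Bool)
    (x a : List Bool) : ℕ → List Bool
  | 0 => []
  | i + 1 => heavyAnswers A q Λ x a i ++
      if Λ (x, q (x, a, answers A q x a i)) = true then []
      else [decide (q (x, a, answers A q x a i) ∈ A)]

/-- Languages decided by a computation as above with the following restriction. There is a
polynomial-time test `Λ` which, given the input `x`, divides the queries into light and heavy
ones. For every input `x` of length `n`, at most `2 ^ (n ^ c + C)` light strings of length at most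
`n ^ k + k` are in the oracle `A`, and the sequence of the answers to the heavy queries has a
nondeterministic description `s` of length at most `n ^ c + C`: this sequence is the only string
`v` such that the polynomial-time verifier `G` accepts `x`, the advice, `s` and `v` with some
certificate of length at most `2 ^ (n ^ c + C)`. -/
def InLowInfo (c : ℕ) (L : Set (List Bool)) : Prop :=
  ∃ (A : Set (List Bool)) (q : List Bool × List Bool × List Bool → List Bool)
    (d : List Bool × List Bool × List Bool → Bool) (a : ℕ → List Bool) (N : ℕ → ℕ) (C k : ℕ)
    (Λ G : List Bool × List Bool → Bool),
    Computes A L q d a N c C k ∧ Nonempty (TM2ComputableInPolyTime encPair encodeBool Λ) ∧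
    Nonempty (TM2ComputableInPolyTime encPair encodeBool G) ∧
    ∀ x : List Bool,
      {Q : List Bool | Q ∈ A ∧ Q.length ≤ x.length ^ k + k ∧ Λ (x, Q) = true}.ncard ≤
        2 ^ (x.length ^ c + C) ∧
      ∃ s : List Bool, s.length ≤ x.length ^ c + C ∧
        ∀ v : List Bool, (∃ y : List Bool, y.length ≤ 2 ^ (x.length ^ c + C) ∧
          G (enc4 x (a x.length) s v, y) = true) ↔
            v = heavyAnswers A q Λ x (a x.length) (N x.length)

end Pool.Agent.MP_92db0f_lc
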