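import Pool.Agent.MP_92db0f_lc.Enum
import Pool.Agent.MP_92db0f_lc.Defs

/-!
A complete problem for nondeterministic exponential time.
-/

set_option autoImplicit false

namespace Pool.Agent.MP_92db0f_lc

open Lib.helper60 Function Turing Computability

/-- The verifier of the complete problem: the first part of `z` is the code of a table machine,
the second part its input; the certificate consists of a string and a number of steps. -/
def VK (p : List Bool × List Bool) : Bool :=
  thalt (parse (unpair p.1).1) (trun (parse (unpair p.1).1)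
    (encPair ((unpair p.1).2, (unpair p.2).1)) (unpair p.2).2.length) &&
  (tout (parse (unpair p.1).1) (trun (parse (unpair p.1).1)
    (encPair ((unpair p.1).2, (unpair p.2).1)) (unpair p.2).2.length)).headD false

lemma PT_VK : PT VK := by
  unfold VK
  have u1 : PT (fun p : List Bool × List Bool => unpair p.1) := PT_unpair.comp PT.fst
  have u2 : PT (fun p : List Bool × List Bool => unpair p.2) := PT_unpair.comp PT.snd
  have hφ : PT (fun p : List Bool × List Bool => parse (unpair p.1).1) := PT_parse.comp u1.p1
  have hr : PT (fun p : List Bool × List Bool => trun (parse (unpair p.1).1)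
      (encPair ((unpair p.1).2, (unpair p.2).1)) (unpair p.2).2.length) :=
    PT_trun hφ (PT_encPair u1.p2 u2.p1) (PT.length u2.p2)
  exact PT.band (PT_thalt hφ hr) (PT.headD (PT_tout hφ hr) (PT.const false))

/-- The complete problem. -/
def KL : Set (List Bool) :=
  {z | ∃ y : List Bool, y.length ≤ 2 ^ (z.length ^ 1 + 1) ∧ VK (z, y) = true}

theorem KL_mem : InNEXP KL := ⟨1, VK, PT.verifier PT_VK, fun _ => Iff.rfl⟩

/-- A polynomial is bounded by a multiple of the exponential function. -/
lemma exists_poly_le (P : Polynomial ℕ) : ∃ s₀, ∀ n, P.eval n ≤ 2 ^ (s₀ + n) := by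
  have hmono : ∀ k : ℕ, ∃ s₀, ∀ n : ℕ, n ^ k ≤ 2 ^ (s₀ + n) := by
    intro k
    have h1 := (tendsto_pow_const_div_const_pow_of_one_lt k (one_lt_two (α := ℝ))).bddAbove_range
    obtain ⟨B, hB⟩ := h1
    obtain ⟨s₀, hs⟩ := exists_nat_ge B
    refine ⟨s₀, fun n => ?_⟩
    have h2 : (n : ℝ) ^ k / 2 ^ n ≤ B := hB ⟨n, rfl⟩
    have h3 : (n : ℝ) ^ k ≤ B * 2 ^ n := by
      rwa [div_le_iff₀ (by positivity)] at h2
    have h4 : (B : ℝ) ≤ 2 ^ s₀ := by
      have h5 : (s₀ : ℝ) ≤ 2 ^ s₀ := by exact_mod_cast Nat.lt_two_pow_self.le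
      exact hs.trans h5
    have h6 : (n : ℝ) ^ k ≤ 2 ^ (s₀ + n) := by
      rw [pow_add]
      exact h3.trans (mul_le_mul_of_nonneg_right h4 (by positivity))
    exact_mod_cast h6
  induction P using Polynomial.induction_on' with
  | add p q hp hq =>
    obtain ⟨s, hs⟩ := hp
    obtain ⟨t, ht⟩ := hq
    refine ⟨s + t + 1, fun n => ?_⟩
    rw [Polynomial.eval_add]
    have h1 := hs n
    have h2 := ht n
    have h3 : 2 ^ (s + n) ≤ 2 ^ (s + t + n) := Nat.pow_le_pow_right (by norm_num) (by omega)
    have h4 : 2 ^ (t + n) ≤ 2 ^ (s + t + n) := Nat.pow_le_pow_right (by norm_num) (by omega)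
    have h5 : 2 ^ (s + t + 1 + n) = 2 ^ (s + t + n) + 2 ^ (s + t + n) := by
      rw [show s + t + 1 + n = (s + t + n) + 1 by ring, pow_succ]
      ring
    omega
  | monomial k c =>
    obtain ⟨s, hs⟩ := hmono k
    refine ⟨c + s, fun n => ?_⟩
    rw [Polynomial.eval_monomial]
    have h1 : c ≤ 2 ^ c := Nat.lt_two_pow_self.le
    calc c * n ^ k ≤ 2 ^ c * 2 ^ (s + n) := Nat.mul_le_mul h1 (hs n)
      _ = 2 ^ (c + s + n) := by rw [← pow_add]; congr 1; ring

lemma parse_append_true (φ : CNF) (s : ℕ) : parse (encCNF φ ++ List.replicate s true) = φ := by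
  unfold parse
  rw [List.foldl_append, parse_enc_aux]
  have h : ∀ (s m : ℕ) (i : ℕ) (don : CNF), m ≤ 1 →
      ((List.replicate s true).foldl pstep (m, i, [], don)).2.2.2 = don := by
    intro s
    induction s with
    | zero => intro m i don _; rfl
    | succ s ih =>
      intro m i don hm
      rw [List.replicate_succ, List.foldl_cons]
      rcases Nat.le_one_iff_eq_zero_or_eq_one.mp hm with rfl | rfl
      · have : pstep (0, i, [], don) true = (1, 0, [], don) := by simp [pstep]
        rw [this]
        exact ih 1 0 don le_rfl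
      · have : pstep (1, i, [], don) true = (1, i + 1, [], don) := by simp [pstep]
        rw [this]
        exact ih 1 (i + 1) don le_rfl
  rw [h s 0 0 _ (by norm_num)]
  simp

/-- Completeness of the problem. -/
theorem KL_complete {V : List Bool × List Bool → Bool} (hV : PT V) (p : Polynomial ℕ)
    (hp : ∀ w y, V (w, y) = true → y.length ≤ p.eval w.length) :
    ∃ (u : List Bool), ∀ w, encPair (u, w) ∈ KL ↔ ∃ y, V (w, y) = true := by
  obtain ⟨cmp⟩ := PT.verifier hV
  obtain ⟨φ, T, hs⟩ := exists_table cmp
  let q : Polynomial ℕ := 2 * Polynomial.X + 2 + p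
  let P : Polynomial ℕ := 2 * p + 2 + T.comp q
  obtain ⟨s₀, hs₀⟩ := exists_poly_le P
  refine ⟨encCNF φ ++ List.replicate s₀ true, fun w => ?_⟩
  have hVK : ∀ y t, VK (encPair (encCNF φ ++ List.replicate s₀ true, w), encPair (y, t)) =
      (thalt φ (trun φ (encPair (w, y)) t.length) &&
        (tout φ (trun φ (encPair (w, y)) t.length)).headD false) := by
    intro y t
    unfold VK
    simp only [unpair_enc, parse_append_true]
  constructor
  · rintro ⟨c, _, hc⟩
    refine ⟨(unpair c).1, ?_⟩
    unfold VK at hc
    simp only [unpair_enc, parse_append_true, Bool.and_eq_true] at hc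
    have h1 := (hs (w, (unpair c).1) (unpair c).2.length).2 hc.1
    rw [h1] at hc
    simpa [encodeBool] using hc.2
  · rintro ⟨y, hy⟩
    refine ⟨encPair (y, List.replicate (T.eval (encPair (w, y)).length) true), ?_, ?_⟩
    · rw [length_encPair, length_encPair, length_encPair, List.length_replicate]
      have h1 := hp w y hy
      have h2 : T.eval (2 * w.length + 2 + y.length) ≤ T.eval (q.eval w.length) := by
        apply evalMono T
        simp only [q, Polynomial.eval_add, Polynomial.eval_mul, Polynomial.eval_ofNat,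
          Polynomial.eval_X]
        omega
      have h3 : 2 * y.length + 2 + T.eval (2 * w.length + 2 + y.length) ≤ P.eval w.length := by
        simp only [P, Polynomial.eval_add, Polynomial.eval_mul, Polynomial.eval_ofNat,
          Polynomial.eval_comp]
        omega
      refine (h3.trans (hs₀ _)).trans (Nat.pow_le_pow_right (by norm_num) ?_)
      rw [pow_one, List.length_append, List.length_replicate]
      omega
    · rw [hVK, List.length_replicate]
      have h1 := (hs (w, y) _).1 le_rfl
      have h2 := (hs (w, y) _).2 h1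
      rw [h1, h2, hy]
      rfl

end Pool.Agent.MP_92db0f_lc
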