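import Pool.Agent.MP_92db0f_lc.Certs

/-!
A language in nondeterministic (in fact deterministic) exponential time that cannot be decided with
a fixed exponent, even with advice.
-/

set_option autoImplicit false

namespace Pool.Agent.MP_92db0f_lc

open Lib.helper60 Function Turing Computability

/-- The test inputs. -/
def testIn (z : List Bool) (l P i : ℕ) : List Bool := encPair (z, str (p2 P l + i))

/-- The table machine `φ` on an input with advice. -/
def machB (D : ℕ) (φ : CNF) (P n : ℕ) (X b : List Bool) : Bool :=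
  thalt φ (trun φ (encPair (X, encPair (b, List.replicate (p2 P (n ^ (D + 1))) true)))
    (p2 P (n ^ (D + 2)))) &&
  (tout φ (trun φ (encPair (X, encPair (b, List.replicate (p2 P (n ^ (D + 1))) true)))
    (p2 P (n ^ (D + 2))))).headD false

/-- The `k`-th string differs from the answers of the machine, for all advice strings. -/
def goodB (D : ℕ) (z : List Bool) (l n P k : ℕ) : Bool :=
  (List.range P).all fun j => (!decide ((str j).length ≤ n ^ (D + 1))) ||
    (List.range (n ^ (D + 1) + 2)).any fun i =>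
      !decide (machB D (parse z) P n (testIn z l P i) (str j) = (str k).getD i false)

/-- The diagonal function. -/
def GD (D : ℕ) (x : List Bool) (P : ℕ) : Bool :=
  (str (((List.range P).filter fun k =>
    goodB D (unpair x).1 (unpair x).2.length x.length P k).headD 0)).getD
    (vlc P (unpair x).2 - p2 P (unpair x).2.length) false

/-- The exponent needed. -/
def EE (D n : ℕ) : ℕ := (n + 2) ^ (D + 2) + 3

/-- The verifier of the diagonal language. -/
def VD (D : ℕ) (p : List Bool × List Bool) : Bool :=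
  decide (p2 (p.2.length + 1) (EE D p.1.length) ≤ p.2.length) && GD D p.1 p.2.length

/-- The diagonal language. -/
def LD (D : ℕ) : Set (List Bool) :=
  {x | ∃ y : List Bool, y.length ≤ 2 ^ (x.length ^ (3 ^ (D + 2) + 2 * D + 7) +
    (3 ^ (D + 2) + 2 * D + 7)) ∧ VD D (x, y) = true}

section

variable {α : Type} [DEnc α]

lemma PT_testIn {z : α → List Bool} {l P i : α → ℕ} (hz : PT z) (hl : PT l) (hP : PT P)
    (hi : PT i) : PT (fun a => testIn (z a) (l a) (P a) (i a)) :=
  PT_encPair hz (PT_str (PT.nadd (PT_p2 hP hl) hi))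

lemma PT_machB (D : ℕ) {φ : α → CNF} {P n : α → ℕ} {X b : α → List Bool} (hφ : PT φ) (hP : PT P)
    (hn : PT n) (hX : PT X) (hb : PT b) :
    PT (fun a => machB D (φ a) (P a) (n a) (X a) (b a)) := by
  unfold machB
  have hr : PT (fun a => trun (φ a) (encPair (X a, encPair (b a,
      List.replicate (p2 (P a) ((n a) ^ (D + 1))) true))) (p2 (P a) ((n a) ^ (D + 2)))) :=
    PT_trun hφ (PT_encPair hX (PT_encPair hb (PT.replicate (PT_p2 hP (PT_npow hn _))
      (PT.const true)))) (PT_p2 hP (PT_npow hn _))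
  exact PT.band (PT_thalt hφ hr) (PT.headD (PT_tout hφ hr) (PT.const false))

lemma PT_goodB (D : ℕ) {z : α → List Bool} {l n P k : α → ℕ} (hz : PT z) (hl : PT l) (hn : PT n)
    (hP : PT P) (hk : PT k) : PT (fun a => goodB D (z a) (l a) (n a) (P a) (k a)) := by
  unfold goodB
  refine PT.all (p := fun y : α × ℕ => (!decide ((str y.2).length ≤ n y.1 ^ (D + 1))) ||
    (List.range (n y.1 ^ (D + 1) + 2)).any fun i =>
      !decide (machB D (parse (z y.1)) (P y.1) (n y.1) (testIn (z y.1) (l y.1) (P y.1) i)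
        (str y.2) = (str (k y.1)).getD i false)) (PT.range hP) ?_
  have hn' : PT (fun y : α × ℕ => n y.1) := hn.comp PT.fst
  refine PT.bor (PT.bnot (PT.nle (PT.length (PT_str PT.snd)) (PT_npow hn' _))) ?_
  refine PT.any (p := fun y : (α × ℕ) × ℕ =>
      !decide (machB D (parse (z y.1.1)) (P y.1.1) (n y.1.1)
        (testIn (z y.1.1) (l y.1.1) (P y.1.1) y.2) (str y.1.2) = (str (k y.1.1)).getD y.2 false))
    (PT.range (PT.nadd (PT_npow hn' _) (PT.const 2))) ?_
  have h1 : PT (fun y : (α × ℕ) × ℕ => y.1.1) := PT.fst.p1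
  refine PT.bnot (PT.beq ?_ (PT.getD (PT_str (hk.comp h1)) PT.snd (PT.const false)))
  exact PT_machB D (PT_parse.comp (hz.comp h1)) (hP.comp h1) (hn.comp h1)
    (PT_testIn (hz.comp h1) (hl.comp h1) (hP.comp h1) PT.snd) (PT_str PT.fst.p2)

lemma PT_GD (D : ℕ) {x : α → List Bool} {P : α → ℕ} (hx : PT x) (hP : PT P) :
    PT (fun a => GD D (x a) (P a)) := by
  unfold GD
  have hu : PT (fun a => unpair (x a)) := PT_unpair.comp hx
  refine PT.getD (PT_str (PT.headD ?_ (PT.const 0)))
    (PT.nsub (PT_vlc hP hu.p2) (PT_p2 hP (PT.length hu.p2))) (PT.const false)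
  refine PT.filter (p := fun y : α × ℕ =>
    goodB D (unpair (x y.1)).1 (unpair (x y.1)).2.length (x y.1).length (P y.1) y.2)
    (PT.range hP) ?_
  have hu' : PT (fun y : α × ℕ => unpair (x y.1)) := hu.comp PT.fst
  exact PT_goodB D hu'.p1 (PT.length hu'.p2) (PT.length (hx.comp PT.fst)) (hP.comp PT.fst) PT.snd

end

lemma PT_VD (D : ℕ) : PT (VD D) := by
  unfold VD EE
  have hn : PT (fun p : List Bool × List Bool => p.1.length) := PT.length PT.fst
  have hl : PT (fun p : List Bool × List Bool => p.2.length) := PT.length PT.snd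
  exact PT.band (PT.nle (PT_p2 (PT.nsucc hl) (PT.nadd (PT_npow (PT.nadd hn (PT.const 2)) _)
    (PT.const 3))) hl) (PT_GD D PT.fst hl)

theorem LD_mem (D : ℕ) : InNEXP (LD D) :=
  ⟨3 ^ (D + 2) + 2 * D + 7, VD D, PT.verifier (PT_VD D), fun _ => Iff.rfl⟩

/-! ### the values without caps -/

/-- The machine without caps. -/
def machI (D : ℕ) (φ : CNF) (n : ℕ) (X b : List Bool) : Bool :=
  thalt φ (trun φ (encPair (X, encPair (b, List.replicate (2 ^ (n ^ (D + 1)) - 1) true)))
    (2 ^ (n ^ (D + 2)) - 1)) &&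
  (tout φ (trun φ (encPair (X, encPair (b, List.replicate (2 ^ (n ^ (D + 1)) - 1) true)))
    (2 ^ (n ^ (D + 2)) - 1))).headD false

/-- The test inputs without caps. -/
def testI (z : List Bool) (l i : ℕ) : List Bool := encPair (z, str (2 ^ l - 1 + i))

/-- The goal of the diagonalization. -/
def GoodI (D : ℕ) (z : List Bool) (l n k : ℕ) : Prop :=
  ∀ b : List Bool, b.length ≤ n ^ (D + 1) → ∃ i < n ^ (D + 1) + 2,
    machI D (parse z) n (testI z l i) b ≠ (str k).getD i false

lemma exists_good (D : ℕ) (z : List Bool) (l n : ℕ) :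
    ∃ k, k + 1 < 2 ^ (n ^ (D + 1) + 3) ∧ GoodI D z l n k := by
  by_contra hcon
  push Not at hcon
  let m := n ^ (D + 1)
  let g : Fin (2 ^ (m + 1)) → (Fin (m + 2) → Bool) := fun j i =>
    machI D (parse z) n (testI z l i) (str j)
  have hg : Surjective g := by
    intro T
    have h1 := vl_lt (List.ofFn T)
    rw [List.length_ofFn] at h1
    have h2 := hcon (vl (List.ofFn T)) h1
    unfold GoodI at h2
    push Not at h2
    obtain ⟨b, hb, h3⟩ := h2
    have h4 := vl_lt b
    have h5 : vl b < 2 ^ (m + 1) := by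
      have : 2 ^ (b.length + 1) ≤ 2 ^ (m + 1) := Nat.pow_le_pow_right (by norm_num) (by omega)
      omega
    refine ⟨⟨vl b, h5⟩, ?_⟩
    funext i
    have h6 := h3 i i.isLt
    rw [str_vl, List.getD_eq_getElem _ _ (by rw [List.length_ofFn]; exact i.isLt)] at h6
    simp only [g, str_vl]
    rw [h6, List.getElem_ofFn]
  have h1 := Fintype.card_le_of_surjective g hg
  simp only [Fintype.card_fun, Fintype.card_fin, Fintype.card_bool] at h1
  have h2 : 2 ^ (m + 1) < 2 ^ (m + 2) := Nat.pow_lt_pow_right (by norm_num) (by omega)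
  omega

lemma head_filter_range (P : ℕ) (p : ℕ → Bool) (k : ℕ) (hk : k < P) (h1 : p k = true)
    (h2 : ∀ j < k, p j = false) : ((List.range P).filter p).headD 0 = k := by
  rw [List.headD_eq_head?_getD, List.head?_filter]
  have : (List.range P).find? p = some k := by
    rw [List.find?_range_eq_some]
    refine ⟨h1, List.mem_range.mpr hk, fun j hj => by rw [h2 j hj]; rfl⟩
  rw [this]
  rfl

section

variable {D : ℕ} {z : List Bool} {l n P : ℕ} (hl : l ≤ n) (hP : 2 ^ EE D n ≤ P + 1)

include hP in
lemma cap_le {m : ℕ} (hm : m ≤ EE D n) : 2 ^ m ≤ P + 1 :=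
  (Nat.pow_le_pow_right (by norm_num) hm).trans hP

lemma pow1_le (D n : ℕ) : n ^ (D + 1) + 3 ≤ EE D n := by
  unfold EE
  have h1 : n ^ (D + 1) ≤ (n + 2) ^ (D + 1) := Nat.pow_le_pow_left (by omega) _
  have h2 : (n + 2) ^ (D + 1) ≤ (n + 2) ^ (D + 2) := Nat.pow_le_pow_right (by omega) (by omega)
  omega

lemma pow2_le (D n : ℕ) : n ^ (D + 2) ≤ EE D n := by
  unfold EE
  have h1 : n ^ (D + 2) ≤ (n + 2) ^ (D + 2) := Nat.pow_le_pow_left (by omega) _
  omega

lemma self_le (D n : ℕ) : n + 1 ≤ EE D n := by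
  unfold EE
  have h1 : (n + 2) ^ 1 ≤ (n + 2) ^ (D + 2) := Nat.pow_le_pow_right (by omega) (by omega)
  rw [pow_one] at h1
  omega

include hP in
lemma machB_eq (φ : CNF) (X b : List Bool) : machB D φ P n X b = machI D φ n X b := by
  unfold machB machI
  have h1 := pow1_le D n
  rw [p2_eq' (cap_le hP (by omega : n ^ (D + 1) ≤ EE D n)), p2_eq' (cap_le hP (pow2_le D n))]

include hl hP in
lemma testIn_eq (i : ℕ) : testIn z l P i = testI z l i := by
  unfold testIn testI
  have h1 := self_le D n
  rw [p2_eq' (cap_le hP (by omega : l ≤ EE D n))]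

include hl hP in
lemma goodB_iff (k : ℕ) : goodB D z l n P k = true ↔ GoodI D z l n k := by
  unfold goodB GoodI
  simp only [List.all_eq_true, List.mem_range, Bool.or_eq_true, Bool.not_eq_true',
    decide_eq_false_iff_not, List.any_eq_true]
  constructor
  · intro h b hb
    have h1 := vl_lt b
    have h2 : 2 ^ (b.length + 1) ≤ P + 1 := cap_le hP (by have := pow1_le D n; omega)
    rcases h (vl b) (by omega) with h3 | ⟨i, hi, h3⟩
    · rw [str_vl] at h3
      exact absurd hb h3
    · rw [machB_eq hP, testIn_eq hl hP, str_vl] at h3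
      exact ⟨i, hi, h3⟩
  · intro h j _
    by_cases hb : (str j).length ≤ n ^ (D + 1)
    · right
      obtain ⟨i, hi, h3⟩ := h (str j) hb
      refine ⟨i, hi, ?_⟩
      rw [machB_eq hP, testIn_eq hl hP]
      exact h3
    · exact Or.inl hb

end

/-- The value of the diagonal function without caps. -/
noncomputable def GI (D : ℕ) (z u : List Bool) : Bool :=
  (str (sInf {k | GoodI D z u.length (encPair (z, u)).length k})).getD
    (vl u - (2 ^ u.length - 1)) false

lemma GD_eq {D : ℕ} {z u : List Bool} {P : ℕ} (hP : 2 ^ EE D (encPair (z, u)).length ≤ P + 1) :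
    GD D (encPair (z, u)) P = GI D z u := by
  classical
  have hl : u.length ≤ (encPair (z, u)).length := by rw [length_encPair]; omega
  have hne : {k | GoodI D z u.length (encPair (z, u)).length k}.Nonempty := by
    obtain ⟨k, _, hk⟩ := exists_good D z u.length (encPair (z, u)).length
    exact ⟨k, hk⟩
  have hmem := Nat.sInf_mem hne
  have hlt : sInf {k | GoodI D z u.length (encPair (z, u)).length k} < P := by
    obtain ⟨k, hk1, hk2⟩ := exists_good D z u.length (encPair (z, u)).length
    have h1 := Nat.sInf_le (s := {k | GoodI D z u.length (encPair (z, u)).length k}) hk2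
    have h2 := cap_le hP (pow1_le D (encPair (z, u)).length)
    omega
  unfold GD GI
  simp only [unpair_enc]
  rw [head_filter_range P _ _ hlt]
  · congr 1
    have h1 := self_le D (encPair (z, u)).length
    rw [p2_eq' (cap_le hP (by omega)), vlc_eq]
    have h2 := vl_lt u
    have h3 : 2 ^ (u.length + 1) ≤ P + 1 := cap_le hP (by omega)
    rw [min_eq_right (by omega)]
  · rw [goodB_iff hl hP]
    exact hmem
  · intro j hj
    rw [Bool.eq_false_iff]
    intro h
    rw [goodB_iff hl hP] at h
    exact absurd (Nat.sInf_le (s := {k | GoodI D z u.length (encPair (z, u)).length k}) h)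
      (not_le.mpr hj)

lemma EE_le (D n : ℕ) : EE D n ≤ n ^ (3 ^ (D + 2) + 2 * D + 7) + (3 ^ (D + 2) + 2 * D + 7) := by
  unfold EE
  have h0 : 0 < 3 ^ (D + 2) := by positivity
  rcases Nat.lt_or_ge n 2 with h | h
  · have h1 : (n + 2) ^ (D + 2) ≤ 3 ^ (D + 2) := Nat.pow_le_pow_left (by omega) _
    omega
  · have h1 : n + 2 ≤ n ^ 2 := by nlinarith
    have h2 : (n + 2) ^ (D + 2) ≤ (n ^ 2) ^ (D + 2) := Nat.pow_le_pow_left h1 _
    rw [← pow_mul] at h2
    have h3 : n ^ (2 * (D + 2)) ≤ n ^ (3 ^ (D + 2) + 2 * D + 7) := by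
      generalize 3 ^ (D + 2) = t at h0 ⊢
      exact Nat.pow_le_pow_right (by omega) (by omega)
    omega

theorem mem_LD_iff (D : ℕ) (z u : List Bool) : encPair (z, u) ∈ LD D ↔ GI D z u = true := by
  have hcheck : ∀ y : List Bool, p2 (y.length + 1) (EE D (encPair (z, u)).length) ≤ y.length ↔
      2 ^ EE D (encPair (z, u)).length ≤ y.length + 1 := by
    intro y
    rw [p2_eq]
    have : 0 < 2 ^ EE D (encPair (z, u)).length := by positivity
    omega
  constructor
  · rintro ⟨y, _, hy⟩
    simp only [VD, Bool.and_eq_true, decide_eq_true_eq, hcheck] at hy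
    rw [← GD_eq hy.1]
    exact hy.2
  · intro h
    refine ⟨List.replicate (2 ^ EE D (encPair (z, u)).length) true, ?_, ?_⟩
    · rw [List.length_replicate]
      exact Nat.pow_le_pow_right (by norm_num) (EE_le _ _)
    · simp only [VD, Bool.and_eq_true, decide_eq_true_eq]
      refine ⟨(hcheck _).mpr (by rw [List.length_replicate]; exact Nat.le_succ _), ?_⟩
      rw [GD_eq (by rw [List.length_replicate]; exact Nat.le_succ _), h]

end Pool.Agent.MP_92db0f_lc
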