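import Pool.Agent.MP_92db0f_lc.Complete

/-!
Deterministic evaluation of computations with short queries.
-/

set_option autoImplicit false

namespace Pool.Agent.MP_92db0f_lc

open Lib.helper60 Function Turing Computability

/-- The answers, computed with the help of a function in place of the oracle. -/
def simAns (q : List Bool × List Bool × List Bool → List Bool)
    (ansF : (List Bool × List Bool × ℕ) × List Bool → Bool) (x a b : List Bool) (pad : ℕ) :
    ℕ → List Bool
  | 0 => []
  | i + 1 => simAns q ansF x a b pad i ++ [ansF ((x, b, pad), q (x, a, simAns q ansF x a b pad i))]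

/-- One step of the computation of the answers. -/
def simStep (q : List Bool × List Bool × List Bool → List Bool)
    (ansF : (List Bool × List Bool × ℕ) × List Bool → Bool)
    (s : (List Bool × List Bool × List Bool × ℕ) × List Bool) :
    (List Bool × List Bool × List Bool × ℕ) × List Bool :=
  (s.1, s.2 ++ [ansF ((s.1.1, s.1.2.2.1, s.1.2.2.2), q (s.1.1, s.1.2.1, s.2))])

lemma simStep_iterate (q : List Bool × List Bool × List Bool → List Bool)
    (ansF : (List Bool × List Bool × ℕ) × List Bool → Bool) (x a b : List Bool) (pad i : ℕ) :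
    (simStep q ansF)^[i] ((x, a, b, pad), []) = ((x, a, b, pad), simAns q ansF x a b pad i) := by
  induction i with
  | zero => rfl
  | succ i ih => rw [iterate_succ_apply', ih]; rfl

lemma length_simAns (q : List Bool × List Bool × List Bool → List Bool)
    (ansF : (List Bool × List Bool × ℕ) × List Bool → Bool) (x a b : List Bool) (pad i : ℕ) :
    (simAns q ansF x a b pad i).length = i := by
  induction i with
  | zero => rfl
  | succ i ih => simp [simAns, ih]

lemma PT_simAns {q : List Bool × List Bool × List Bool → List Bool}
    {ansF : (List Bool × List Bool × ℕ) × List Bool → Bool} (hq : PT q) (hF : PT ansF) {α : Type}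
    [DEnc α] {x a b : α → List Bool} {pad i : α → ℕ} (hx : PT x) (ha : PT a) (hb : PT b)
    (hp : PT pad) (hi : PT i) :
    PT (fun z => simAns q ansF (x z) (a z) (b z) (pad z) (i z)) := by
  have hstep : PT (simStep q ansF) := by
    unfold simStep
    refine PT.pair PT.fst (PT.append PT.snd (PT.cons (hF.comp (PT.pair (PT.pair PT.fst.p1
      (PT.pair PT.fst.p2.p2.p1 PT.fst.p2.p2.p2)) (hq.comp (PT.pair PT.fst.p1
        (PT.pair PT.fst.p2.p1 PT.snd))))) (PT.const [])))
  have h0 : PT (fun z => (((x z, a z, b z, pad z), []) :
      (List Bool × List Bool × List Bool × ℕ) × List Bool)) :=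
    PT.pair (PT.pair hx (PT.pair ha (PT.pair hb hp))) (PT.const [])
  have h := PT.iterateNat (count := i) (init := fun z => (((x z, a z, b z, pad z), []) :
      (List Bool × List Bool × List Bool × ℕ) × List Bool)) hi h0 hstep
    ⟨fun z => tsize (x z, a z, b z, pad z) + (4 * tsize (i z) + 1) + 1,
      ((((PT.pair hx (PT.pair ha (PT.pair hb hp))).size).add
        (((PB.const 4).mul hi.size).add (PB.const 1))).add (PB.const 1)), by
      intro z j hj
      rw [simStep_iterate]
      have h1 := tsize_bits_le (simAns q ansF (x z) (a z) (b z) (pad z) j)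
      rw [length_simAns] at h1
      have h2 : tsize ((x z, a z, b z, pad z), simAns q ansF (x z) (a z) (b z) (pad z) j) =
        tsize (x z, a z, b z, pad z) + tsize (simAns q ansF (x z) (a z) (b z) (pad z) j) + 1 :=
        tsize_pair _ _
      rw [h2]
      have h3 : tsize (i z) = 2 * i z + 1 := tsize_nat _
      beta_reduce
      rw [h3]
      omega⟩
  refine h.p2.congr fun z => ?_
  rw [simStep_iterate]

/-- The deterministic evaluation. -/
def evalW (q : List Bool × List Bool × List Bool → List Bool)
    (d : List Bool × List Bool × List Bool → Bool)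
    (ansF : (List Bool × List Bool × ℕ) × List Bool → Bool)
    (p : List Bool × List Bool × ℕ) : Bool :=
  d (p.1, (unpair p.2.1).1, simAns q ansF p.1 (unpair p.2.1).1 (unpair (unpair p.2.1).2).1 p.2.2
    (vlc p.2.2 (unpair (unpair p.2.1).2).2))

lemma PT_evalW {q : List Bool × List Bool × List Bool → List Bool}
    {d : List Bool × List Bool × List Bool → Bool}
    {ansF : (List Bool × List Bool × ℕ) × List Bool → Bool} (hq : PT q) (hd : PT d)
    (hF : PT ansF) : PT (evalW q d ansF) := by
  unfold evalW
  have hx : PT (fun p : List Bool × List Bool × ℕ => p.1) := PT.fst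
  have hp : PT (fun p : List Bool × List Bool × ℕ => p.2.2) := PT.snd.p2
  have u : PT (fun p : List Bool × List Bool × ℕ => unpair p.2.1) := PT_unpair.comp PT.snd.p1
  have u2 : PT (fun p : List Bool × List Bool × ℕ => unpair (unpair p.2.1).2) :=
    PT_unpair.comp u.p2
  exact hd.comp (PT.pair hx (PT.pair u.p1 (PT_simAns hq hF hx u.p1 u2.p1 hp (PT_vlc hp u2.p2))))

/-- Correctness of the evaluation. -/
theorem evalW_correct {A L : Set (List Bool)}
    {q : List Bool × List Bool × List Bool → List Bool}
    {d : List Bool × List Bool × List Bool → Bool} {a : ℕ → List Bool} {N cap : ℕ → ℕ}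
    (hL : ∀ x : List Bool, (∀ i < N x.length,
        (q (x, a x.length, answers A q x (a x.length) i)).length ≤ cap x.length) ∧
      (x ∈ L ↔ d (x, a x.length, answers A q x (a x.length) (N x.length)) = true))
    (ansF : (List Bool × List Bool × ℕ) × List Bool → Bool) (b : ℕ → List Bool) (x : List Bool)
    (pad : ℕ) (hN : N x.length ≤ pad)
    (hF : ∀ Q : List Bool, Q.length ≤ cap x.length →
      (ansF ((x, b x.length, pad), Q) = true ↔ Q ∈ A)) :
    x ∈ L ↔ evalW q d ansF (x, encPair (a x.length, encPair (b x.length, str (N x.length))), pad) =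
      true := by
  classical
  unfold evalW
  simp only [unpair_enc]
  rw [vlc_eq, vl_str, min_eq_right hN, (hL x).2]
  have h : ∀ i ≤ N x.length, simAns q ansF x (a x.length) (b x.length) pad i =
      answers A q x (a x.length) i := by
    intro i
    induction i with
    | zero => intro _; rfl
    | succ i ih =>
      intro hi
      have h1 := ih (by omega)
      simp only [simAns, answers]
      rw [h1]
      congr 2
      rw [Bool.eq_iff_iff, decide_eq_true_eq]
      exact hF _ ((hL x).1 i (by omega))
  rw [h _ le_rfl]

/-- Languages decided deterministically in time polynomial in `2 ^ ((n + C) ^ e)` with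
`(n + C) ^ e` bits of advice. -/
def InEA (e : ℕ) (L : Set (List Bool)) : Prop :=
  ∃ (W : List Bool × List Bool × ℕ → Bool) (b : ℕ → List Bool) (C : ℕ), PT W ∧
    (∀ n, (b n).length ≤ (n + C) ^ e) ∧
    ∀ (x : List Bool) (pad : ℕ), 2 ^ ((x.length + C) ^ e) ≤ pad →
      (x ∈ L ↔ W (x, b x.length, pad) = true)

/-- Polynomial-time functions on triples. -/
lemma PT_of_enc3 {q : List Bool × List Bool × List Bool → List Bool}
    (h : Nonempty (TM2ComputableInPolyTime enc3 (fun w => w) q)) : PT q := by
  obtain ⟨F, hF, h1⟩ := exists_PT h
  have h2 : PT (fun p : List Bool × List Bool × List Bool => F (enc3 p)) :=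
    hF.comp (PT_encPair PT.fst (PT_encPair PT.snd.p1 PT.snd.p2))
  exact h2.congr fun p => h1 p

lemma PT_of_enc3' {d : List Bool × List Bool × List Bool → Bool}
    (h : Nonempty (TM2ComputableInPolyTime enc3 encodeBool d)) : PT d := by
  obtain ⟨F, hF, h1⟩ := exists_PT h
  have h2 : PT (fun p : List Bool × List Bool × List Bool => (F (enc3 p)).headD false) :=
    PT.headD (hF.comp (PT_encPair PT.fst (PT_encPair PT.snd.p1 PT.snd.p2))) (PT.const false)
  exact h2.congr fun p => by rw [h1 p]; rfl

lemma PT_of_encPair {d : List Bool × List Bool → Bool}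
    (h : Nonempty (TM2ComputableInPolyTime encPair encodeBool d)) : PT d := by
  obtain ⟨F, hF, h1⟩ := exists_PT h
  have h2 : PT (fun p : List Bool × List Bool => (F (encPair p)).headD false) :=
    PT.headD (hF.comp (PT_encPair PT.fst PT.snd)) (PT.const false)
  exact h2.congr fun p => by rw [h1 p]; rfl

/-- A number string is short. -/
lemma length_str_le {m k : ℕ} (h : m ≤ 2 ^ k) : (str m).length ≤ k + 1 := by
  have h1 : (str m).length < k + 2 := by
    apply length_str_lt
    rw [pow_succ, pow_succ]
    have : 0 < 2 ^ k := by positivity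
    omega
  omega

end Pool.Agent.MP_92db0f_lc
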