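import Pool.Agent.MP_92db0f_lc.Fixed3

/-!
Computations with few heavy queries have answer sequences of small information.
-/

set_option autoImplicit false

namespace Pool.Agent.MP_92db0f_lc

open Lib.helper60 Function Turing Computability

/-! ### the verifier -/

/-- The answer to the query `Q` with number `i`, according to the list of light strings in the
certificate and the list of positions. -/
def ansB (Λ : List Bool × List Bool → Bool) (b : Bool) (x Q : List Bool) (i : ℕ) (y : List Bool)
    (t : ℕ) (f : List Bool) (m : ℕ) : Bool :=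
  bif Λ (x, Q) then
    (List.range t).any fun j => decide ((unpair (blk (unpair y).1.length (unpair y).2 j)).1 = Q)
  else bif (List.range m).any fun j => decide (blk (2 * (m + 1) + 2) f j = str i) then b else !b

/-- The check of the list of light strings. -/
def chkL (Λ R : List Bool × List Bool → Bool) (p : Polynomial ℕ) (k : ℕ) (x y : List Bool)
    (t : ℕ) : Bool :=
  decide (t ≤ y.length) && ((List.range t).all fun j =>
    (Λ (x, (unpair (blk (unpair y).1.length (unpair y).2 j)).1) &&
    (decide ((unpair (blk (unpair y).1.length (unpair y).2 j)).1.length ≤ x.length ^ k + k) &&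
    (decide ((unpair (blk (unpair y).1.length (unpair y).2 j)).2.length ≤
      p.eval (unpair (blk (unpair y).1.length (unpair y).2 j)).1.length) &&
    R (unpair (blk (unpair y).1.length (unpair y).2 j))))) &&
    (List.range j).all fun i => !decide ((unpair (blk (unpair y).1.length (unpair y).2 i)).1 =
      (unpair (blk (unpair y).1.length (unpair y).2 j)).1))

/-- The verifier, in terms of the parts of its input. -/
def GBp (q : List Bool × List Bool × List Bool → List Bool) (Λ R : List Bool × List Bool → Bool)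
    (p : Polynomial ℕ) (c C k : ℕ) (b : Bool) (x a s v y : List Bool) : Bool :=
  decide (str v.length = (unpair s).1) &&
  (chkL Λ R p k x y (vlc (y.length + 1) (unpair (unpair s).2).1) &&
  (List.range v.length).all fun i => decide (v.getD i false =
    ansB Λ b x (q (x, a, v.take i)) i y (vlc (y.length + 1) (unpair (unpair s).2).1)
      (unpair (unpair s).2).2 (x.length ^ c + C)))

/-- The verifier. -/
def GB (q : List Bool × List Bool × List Bool → List Bool) (Λ R : List Bool × List Bool → Bool)
    (p : Polynomial ℕ) (c C k : ℕ) (b : Bool) (z : List Bool × List Bool) : Bool :=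
  GBp q Λ R p c C k b (unpair z.1).1 (unpair (unpair z.1).2).1
    (unpair (unpair (unpair z.1).2).2).1 (unpair (unpair (unpair z.1).2).2).2 z.2

lemma GB_enc4 (q : List Bool × List Bool × List Bool → List Bool)
    (Λ R : List Bool × List Bool → Bool) (p : Polynomial ℕ) (c C k : ℕ) (b : Bool)
    (x a s v y : List Bool) :
    GB q Λ R p c C k b (enc4 x a s v, y) = GBp q Λ R p c C k b x a s v y := by
  simp only [GB, enc4, unpair_enc]

section PTs

variable {α : Type} [DEnc α] {q : List Bool × List Bool × List Bool → List Bool}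
  {Λ R : List Bool × List Bool → Bool}

lemma PT_blk' {y : α → List Bool} {j : α → ℕ} (hy : PT y) (hj : PT j) :
    PT (fun z => unpair (blk (unpair (y z)).1.length (unpair (y z)).2 (j z))) :=
  PT_unpair.comp (PT_blk (PT.length (PT_unpair.comp hy).p1) (PT_unpair.comp hy).p2 hj)

lemma PT_ansB (hΛ : PT Λ) (b : Bool) {x Q y f : α → List Bool} {i t m : α → ℕ} (hx : PT x)
    (hQ : PT Q) (hi : PT i) (hy : PT y) (ht : PT t) (hf : PT f) (hm : PT m) :
    PT (fun z => ansB Λ b (x z) (Q z) (i z) (y z) (t z) (f z) (m z)) := by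
  unfold ansB
  refine PT.cond (hΛ.comp (PT.pair hx hQ)) ?_ (PT.cond ?_ (PT.const b) (PT.const (!b)))
  · refine PT.any (p := fun w : α × ℕ => decide ((unpair (blk (unpair (y w.1)).1.length
      (unpair (y w.1)).2 w.2)).1 = Q w.1)) (PT.range ht) ?_
    exact PT_leq (PT_blk' (hy.comp PT.fst) PT.snd).p1 (hQ.comp PT.fst)
  · refine PT.any (p := fun w : α × ℕ => decide (blk (2 * (m w.1 + 1) + 2) (f w.1) w.2 =
      str (i w.1))) (PT.range hm) ?_
    exact PT_leq (PT_blk (PT.nadd (PT.nmul (PT.const 2) (PT.nsucc (hm.comp PT.fst)))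
      (PT.const 2)) (hf.comp PT.fst) PT.snd) (PT_str (hi.comp PT.fst))

lemma PT_chkL (hΛ : PT Λ) (hR : PT R) (p : Polynomial ℕ) (k : ℕ) {x y : α → List Bool}
    {t : α → ℕ} (hx : PT x) (hy : PT y) (ht : PT t) :
    PT (fun z => chkL Λ R p k (x z) (y z) (t z)) := by
  unfold chkL
  refine PT.band (PT.nle ht (PT.length hy)) ?_
  refine PT.all (p := fun w : α × ℕ =>
    (Λ (x w.1, (unpair (blk (unpair (y w.1)).1.length (unpair (y w.1)).2 w.2)).1) &&
    (decide ((unpair (blk (unpair (y w.1)).1.length (unpair (y w.1)).2 w.2)).1.length ≤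
      (x w.1).length ^ k + k) &&
    (decide ((unpair (blk (unpair (y w.1)).1.length (unpair (y w.1)).2 w.2)).2.length ≤
      p.eval (unpair (blk (unpair (y w.1)).1.length (unpair (y w.1)).2 w.2)).1.length) &&
    R (unpair (blk (unpair (y w.1)).1.length (unpair (y w.1)).2 w.2))))) &&
    (List.range w.2).all fun i => !decide ((unpair (blk (unpair (y w.1)).1.length
      (unpair (y w.1)).2 i)).1 =
      (unpair (blk (unpair (y w.1)).1.length (unpair (y w.1)).2 w.2)).1)) (PT.range ht) ?_
  have hx' : PT (fun w : α × ℕ => x w.1) := hx.comp PT.fst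
  have hy' : PT (fun w : α × ℕ => y w.1) := hy.comp PT.fst
  have hb := PT_blk' hy' (PT.snd (α := α) (β := ℕ))
  refine PT.band (PT.band (hΛ.comp (PT.pair hx' hb.p1)) (PT.band (PT.nle (PT.length hb.p1)
    (PT.nadd (PT_npow (PT.length hx') k) (PT.const k))) (PT.band (PT.nle (PT.length hb.p2)
      (PT_peval p (PT.length hb.p1))) (hR.comp hb)))) ?_
  refine PT.all (p := fun w : (α × ℕ) × ℕ =>
    !decide ((unpair (blk (unpair (y w.1.1)).1.length (unpair (y w.1.1)).2 w.2)).1 =
      (unpair (blk (unpair (y w.1.1)).1.length (unpair (y w.1.1)).2 w.1.2)).1))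
      (PT.range PT.snd) ?_
  exact PT.bnot (PT_leq (PT_blk' (hy'.comp PT.fst) PT.snd).p1 (hb.comp PT.fst).p1)

lemma PT_GB (hq : PT q) (hΛ : PT Λ) (hR : PT R) (p : Polynomial ℕ) (c C k : ℕ) (b : Bool) :
    PT (GB q Λ R p c C k b) := by
  unfold GB GBp
  have hy : PT (fun z : List Bool × List Bool => z.2) := PT.snd
  have u1 : PT (fun z : List Bool × List Bool => unpair z.1) := PT_unpair.comp PT.fst
  have hx : PT (fun z : List Bool × List Bool => (unpair z.1).1) := u1.p1
  have u2 : PT (fun z : List Bool × List Bool => unpair (unpair z.1).2) := PT_unpair.comp u1.p2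
  have ha : PT (fun z : List Bool × List Bool => (unpair (unpair z.1).2).1) := u2.p1
  have u3 : PT (fun z : List Bool × List Bool => unpair (unpair (unpair z.1).2).2) :=
    PT_unpair.comp u2.p2
  have hs := u3.p1
  have hv := u3.p2
  have us := PT_unpair.comp hs
  have us2 := PT_unpair.comp us.p2
  have ht : PT (fun z : List Bool × List Bool => vlc (z.2.length + 1)
      (unpair (unpair (unpair (unpair (unpair z.1).2).2).1).2).1) :=
    PT_vlc (PT.nsucc (PT.length hy)) us2.p1
  refine PT.band (PT_leq (PT_str (PT.length hv)) us.p1) (PT.band (PT_chkL hΛ hR p k hx hy ht) ?_)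
  refine PT.all (p := fun w : (List Bool × List Bool) × ℕ =>
    decide ((unpair (unpair (unpair w.1.1).2).2).2.getD w.2 false =
    ansB Λ b (unpair w.1.1).1 (q ((unpair w.1.1).1, (unpair (unpair w.1.1).2).1,
      (unpair (unpair (unpair w.1.1).2).2).2.take w.2)) w.2 w.1.2 (vlc (w.1.2.length + 1)
      (unpair (unpair (unpair (unpair (unpair w.1.1).2).2).1).2).1)
      (unpair (unpair (unpair (unpair (unpair w.1.1).2).2).1).2).2
      ((unpair w.1.1).1.length ^ c + C))) (PT.range (PT.length hv)) ?_
  refine PT.beq (PT.getD (hv.comp PT.fst) PT.snd (PT.const false)) ?_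
  have hx' := hx.comp (PT.fst (α := List Bool × List Bool) (β := ℕ))
  refine PT_ansB hΛ b hx' (hq.comp (PT.pair hx' (PT.pair (ha.comp PT.fst)
    (PT_take PT.snd (hv.comp PT.fst))))) PT.snd (hy.comp PT.fst) (ht.comp PT.fst)
    (us2.p2.comp PT.fst) (PT.nadd (PT_npow (PT.length hx') c) (PT.const C))

end PTs

end Pool.Agent.MP_92db0f_lc
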