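import Pool.Agent.MP_92db0f_lc.Few

/-!
Computations with few heavy queries have answer sequences of small information.
-/

set_option autoImplicit false

namespace Pool.Agent.MP_92db0f_lc

open Lib.helper60 Function Turing Computability

/-- The `j`-th light string in the certificate. -/
def Qs (y : List Bool) (j : ℕ) : List Bool :=
  (unpair (blk (unpair y).1.length (unpair y).2 j)).1

section

variable {A : Set (List Bool)} {q : List Bool × List Bool × List Bool → List Bool}
    {Λ R : List Bool × List Bool → Bool} {p : Polynomial ℕ} {c C k N : ℕ} {b : Bool}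
    (hA : ∀ w, w ∈ A ↔ ∃ y : List Bool, y.length ≤ p.eval w.length ∧ R (w, y) = true)

/-- The light strings in the oracle. -/
def Dset (A : Set (List Bool)) (Λ : List Bool × List Bool → Bool) (k : ℕ) (x : List Bool) :
    Set (List Bool) := {Q | Q ∈ A ∧ Q.length ≤ x.length ^ k + k ∧ Λ (x, Q) = true}

/-- The positions of the special heavy queries. -/
def Hset (A : Set (List Bool)) (q : List Bool × List Bool × List Bool → List Bool)
    (Λ : List Bool × List Bool → Bool) (b : Bool) (x a : List Bool) (N : ℕ) : Set ℕ :=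
  {i | i < N ∧ Λ (x, q (x, a, answers A q x a i)) = false ∧
    (q (x, a, answers A q x a i) ∈ A ↔ b = true)}

lemma Dset_finite (A : Set (List Bool)) (Λ : List Bool × List Bool → Bool) (k : ℕ)
    (x : List Bool) : (Dset A Λ k x).Finite :=
  (List.finite_length_le Bool (x.length ^ k + k)).subset fun _ hQ => hQ.2.1

lemma Hset_finite (A : Set (List Bool)) (q : List Bool × List Bool × List Bool → List Bool)
    (Λ : List Bool × List Bool → Bool) (b : Bool) (x a : List Bool) (N : ℕ) :
    (Hset A q Λ b x a N).Finite :=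
  (Set.finite_lt_nat N).subset fun _ hi => hi.1

include hA in
/-- A correct list of light strings is complete. -/
lemma chkL_complete {x y : List Bool} (h : chkL Λ R p k x y (Dset A Λ k x).ncard = true) :
    ∀ Q ∈ Dset A Λ k x, ∃ j < (Dset A Λ k x).ncard, Qs y j = Q := by
  classical
  unfold chkL at h
  simp only [Bool.and_eq_true, decide_eq_true_eq, List.all_eq_true, List.mem_range,
    Bool.not_eq_true', decide_eq_false_iff_not] at h
  obtain ⟨_, h1⟩ := h
  have hinj : Set.InjOn (Qs y) (Finset.range (Dset A Λ k x).ncard : Set ℕ) := by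
    intro i hi j hj hij
    rw [Finset.mem_coe, Finset.mem_range] at hi hj
    rcases lt_trichotomy i j with h2 | h2 | h2
    · exact absurd hij ((h1 j hj).2 i h2)
    · exact h2
    · exact absurd hij.symm ((h1 i hi).2 j h2)
  have hsub : ((Finset.range (Dset A Λ k x).ncard).image (Qs y) : Set (List Bool)) ⊆
      Dset A Λ k x := by
    intro Q hQ
    rw [Finset.coe_image] at hQ
    obtain ⟨j, hj, rfl⟩ := hQ
    rw [Finset.mem_coe, Finset.mem_range] at hj
    obtain ⟨⟨h2, h3, h4, h5⟩, _⟩ := h1 j hj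
    exact ⟨(hA _).mpr ⟨_, h4, h5⟩, h3, h2⟩
  have hcard : ((Finset.range (Dset A Λ k x).ncard).image (Qs y)).card =
      (Dset A Λ k x).ncard := by
    rw [Finset.card_image_of_injOn hinj, Finset.card_range]
  have heq := Set.eq_of_subset_of_ncard_le hsub (by rw [Set.ncard_coe_finset, hcard])
    (Dset_finite A Λ k x)
  intro Q hQ
  rw [← heq, Finset.coe_image] at hQ
  obtain ⟨j, hj, rfl⟩ := hQ
  rw [Finset.mem_coe, Finset.mem_range] at hj
  exact ⟨j, hj, rfl⟩

include hA in
lemma chkL_sound {x y : List Bool} {t : ℕ} (h : chkL Λ R p k x y t = true) :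
    ∀ j < t, Qs y j ∈ A := by
  unfold chkL at h
  simp only [Bool.and_eq_true, decide_eq_true_eq, List.all_eq_true, List.mem_range,
    Bool.not_eq_true', decide_eq_false_iff_not] at h
  obtain ⟨_, h1⟩ := h
  intro j hj
  obtain ⟨⟨h2, h3, h4, h5⟩, _⟩ := h1 j hj
  exact (hA _).mpr ⟨_, h4, h5⟩

include hA in
/-- Existence of a list of light strings. -/
lemma exists_chkL (x : List Bool) {m : ℕ} (hD : (Dset A Λ k x).ncard ≤ 2 ^ m) :
    ∃ y : List Bool, y.length ≤ 2 ^ m *
      (3 * (2 * (2 * (x.length ^ k + k) + 2 + p.eval (x.length ^ k + k)) + 2) + 2) ∧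
      chkL Λ R p k x y (Dset A Λ k x).ncard = true := by
  classical
  have hfin := Dset_finite A Λ k x
  obtain ⟨l, hl⟩ : ∃ l, l = hfin.toFinset.toList := ⟨_, rfl⟩
  have hlen : l.length = (Dset A Λ k x).ncard := by
    rw [hl, Finset.length_toList, Set.ncard_eq_toFinset_card _ hfin]
  have hmem' : ∀ Q, Q ∈ l → Q ∈ Dset A Λ k x := by
    intro Q hQ
    rw [hl, Finset.mem_toList, Set.Finite.mem_toFinset] at hQ
    exact hQ
  have hmem : ∀ j < (Dset A Λ k x).ncard, l.getD j [] ∈ Dset A Λ k x := by
    intro j hj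
    rw [List.getD_eq_getElem _ _ (by omega)]
    exact hmem' _ (List.getElem_mem _)
  have hnodup : l.Nodup := by rw [hl]; exact Finset.nodup_toList _
  obtain ⟨E, hE⟩ : ∃ E, E = 2 * (x.length ^ k + k) + 2 + p.eval (x.length ^ k + k) := ⟨_, rfl⟩
  rw [← hE]
  have hex : ∀ j, ∃ w : List Bool, 2 * w.length + 2 ≤ 2 * E + 2 ∧
      (j < (Dset A Λ k x).ncard → ∃ W : List Bool, w = encPair (l.getD j [], W) ∧
        W.length ≤ p.eval (l.getD j []).length ∧ R (l.getD j [], W) = true) := by
    intro j
    by_cases hj : j < (Dset A Λ k x).ncard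
    · obtain ⟨h1, h2, h3⟩ := hmem j hj
      obtain ⟨W, hW1, hW2⟩ := (hA _).mp h1
      refine ⟨encPair (l.getD j [], W), ?_, fun _ => ⟨W, rfl, hW1, hW2⟩⟩
      rw [length_encPair]
      have h4 : p.eval (l.getD j []).length ≤ p.eval (x.length ^ k + k) := evalMono p h2
      omega
    · exact ⟨[], by simp only [List.length_nil]; omega, fun h => absurd h hj⟩
  choose w hw1 hw2 using hex
  have hflen := length_mkFlat (B := 2 * E + 2) (M := (Dset A Λ k x).ncard) (w := w)
    fun i _ => hw1 i
  have hb : ∀ j < (Dset A Λ k x).ncard, ∃ W : List Bool,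
      unpair (blk (2 * E + 2) (mkFlat (2 * E + 2) (Dset A Λ k x).ncard w) j) =
        (l.getD j [], W) ∧ W.length ≤ p.eval (l.getD j []).length ∧
        R (l.getD j [], W) = true := by
    intro j hj
    obtain ⟨W, h1, h2, h3⟩ := hw2 j hj
    refine ⟨W, ?_, h2, h3⟩
    rw [blk_mkFlat (fun i _ => hw1 i) hj, h1, unpair_enc]
  refine ⟨encPair (List.replicate (2 * E + 2) true,
    mkFlat (2 * E + 2) (Dset A Λ k x).ncard w), ?_, ?_⟩
  · rw [length_encPair, List.length_replicate, hflen]
    have h1 : (Dset A Λ k x).ncard * (2 * E + 2) ≤ 2 ^ m * (2 * E + 2) :=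
      Nat.mul_le_mul_right _ hD
    have h2 : 1 ≤ 2 ^ m := Nat.one_le_pow _ _ (by norm_num)
    have h3 : 2 * E + 2 ≤ 2 ^ m * (2 * E + 2) := Nat.le_mul_of_pos_left _ (by omega)
    have h4 : 2 ^ m * (3 * (2 * E + 2) + 2) = 3 * (2 ^ m * (2 * E + 2)) + 2 * 2 ^ m := by ring
    rw [h4]
    omega
  · unfold chkL
    simp only [Bool.and_eq_true, decide_eq_true_eq, List.all_eq_true, List.mem_range,
      Bool.not_eq_true', decide_eq_false_iff_not, unpair_enc, List.length_replicate]
    refine ⟨?_, ?_⟩
    · rw [length_encPair, List.length_replicate, hflen]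
      have h1 : (Dset A Λ k x).ncard ≤ (Dset A Λ k x).ncard * (2 * E + 2) :=
        Nat.le_mul_of_pos_right _ (by omega)
      omega
    · intro j hj
      obtain ⟨W, h1, h2, h3⟩ := hb j hj
      obtain ⟨h4, h5, h6⟩ := hmem j hj
      rw [h1]
      refine ⟨⟨h6, h5, h2, h3⟩, ?_⟩
      intro i hi
      obtain ⟨W', h7, _, _⟩ := hb i (by omega)
      rw [h7]
      simp only
      rw [List.getD_eq_getElem _ _ (by omega), List.getD_eq_getElem _ _ (by omega)]
      intro h8
      have := (List.Nodup.getElem_inj_iff hnodup).mp h8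
      omega

/-- The description. -/
lemma exists_positions {H : Set ℕ} (hH : H.Finite) {m N : ℕ} (hm : H.ncard ≤ m)
    (hHN : ∀ i ∈ H, i < N) : ∃ pos : ℕ → ℕ, (∀ j, pos j ≤ N) ∧
      ∀ i < N, (∃ j < m, pos j = i) ↔ i ∈ H := by
  classical
  obtain ⟨l, hl⟩ : ∃ l, l = hH.toFinset.toList := ⟨_, rfl⟩
  have hlen : l.length = H.ncard := by
    rw [hl, Finset.length_toList, Set.ncard_eq_toFinset_card _ hH]
  have hmem : ∀ i, i ∈ l ↔ i ∈ H := by
    intro i
    rw [hl, Finset.mem_toList, Set.Finite.mem_toFinset]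
  refine ⟨fun j => l.getD j N, ?_, ?_⟩
  · intro j
    beta_reduce
    rcases Nat.lt_or_ge j l.length with h | h
    · rw [List.getD_eq_getElem _ _ h]
      exact (hHN _ ((hmem _).mp (List.getElem_mem _))).le
    · rw [List.getD_eq_default _ _ h]
  · intro i hi
    beta_reduce
    constructor
    · rintro ⟨j, _, hj2⟩
      rcases Nat.lt_or_ge j l.length with h | h
      · rw [List.getD_eq_getElem _ _ h] at hj2
        rw [← hj2]
        exact (hmem _).mp (List.getElem_mem _)
      · rw [List.getD_eq_default _ _ h] at hj2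
        omega
    · intro h
      obtain ⟨j, hj, hj2⟩ := List.mem_iff_getElem.mp ((hmem i).mpr h)
      exact ⟨j, by omega, by rw [List.getD_eq_getElem _ _ hj, hj2]⟩

end

end Pool.Agent.MP_92db0f_lc
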