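import Pool.Agent.MP_92db0f_lc.Few2

/-!
Computations with few heavy queries have answer sequences of small information.
-/

set_option autoImplicit false

namespace Pool.Agent.MP_92db0f_lc

open Lib.helper60 Function Turing Computability

section

variable {A : Set (List Bool)} {q : List Bool × List Bool × List Bool → List Bool}
    {Λ R : List Bool × List Bool → Bool} {p : Polynomial ℕ} {c C k N : ℕ} {b : Bool}
    (hA : ∀ w, w ∈ A ↔ ∃ y : List Bool, y.length ≤ p.eval w.length ∧ R (w, y) = true)

open Classical in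
lemma bool_aux (P : Prop) (b r : Bool) (h : r = true ↔ (P ↔ b = true)) :
    (bif r then b else !b) = decide P := by
  by_cases hP : P <;> cases b <;> cases r <;> simp_all

open Classical in
include hA in
lemma ansB_eq {x a y f : List Bool} {m : ℕ}
    (hlen : ∀ i < N, (q (x, a, answers A q x a i)).length ≤ x.length ^ k + k)
    (hy : chkL Λ R p k x y (Dset A Λ k x).ncard = true)
    (hf : ∀ i < N, (∃ j < m, blk (2 * (m + 1) + 2) f j = str i) ↔ i ∈ Hset A q Λ b x a N)
    {i : ℕ} (hi : i < N) : ansB Λ b x (q (x, a, answers A q x a i)) i y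
      (Dset A Λ k x).ncard f m = decide (q (x, a, answers A q x a i) ∈ A) := by
  unfold ansB
  obtain ⟨Q, hQ⟩ : ∃ Q, Q = q (x, a, answers A q x a i) := ⟨_, rfl⟩
  have hQl := hlen i hi
  have hfi := hf i hi
  unfold Hset at hfi
  rw [Set.mem_ofPred_eq] at hfi
  rw [← hQ] at hQl hfi ⊢
  cases hΛ : Λ (x, Q)
  · rw [cond_false]
    have h1 : ((List.range m).any fun j => decide (blk (2 * (m + 1) + 2) f j = str i)) = true ↔
        (Q ∈ A ↔ b = true) := by
      simp only [List.any_eq_true, List.mem_range, decide_eq_true_eq]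
      rw [hfi]
      exact ⟨fun h => h.2.2, fun h => ⟨hi, hΛ, h⟩⟩
    exact bool_aux _ _ _ h1
  · rw [cond_true, Bool.eq_iff_iff, decide_eq_true_eq]
    simp only [List.any_eq_true, List.mem_range, decide_eq_true_eq]
    constructor
    · rintro ⟨j, hj, h1⟩
      rw [← h1]
      exact chkL_sound hA hy j hj
    · intro h1
      exact chkL_complete hA hy Q ⟨h1, hQl, hΛ⟩

include hA in
lemma GBp_correct {x a f : List Bool} {E : ℕ}
    (hlen : ∀ i < N, (q (x, a, answers A q x a i)).length ≤ x.length ^ k + k)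
    (hf : ∀ i < N, (∃ j < x.length ^ c + C, blk (2 * (x.length ^ c + C + 1) + 2) f j = str i) ↔
      i ∈ Hset A q Λ b x a N)
    (hD : (Dset A Λ k x).ncard ≤ 2 ^ (x.length ^ c + C))
    (hE : 2 ^ (x.length ^ c + C) *
      (3 * (2 * (2 * (x.length ^ k + k) + 2 + p.eval (x.length ^ k + k)) + 2) + 2) ≤ 2 ^ E)
    (v : List Bool) :
    (∃ y : List Bool, y.length ≤ 2 ^ E ∧ GBp q Λ R p c C k b x a
      (encPair (str N, encPair (str (Dset A Λ k x).ncard, f))) v y = true) ↔
      v = answers A q x a N := by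
  classical
  constructor
  · rintro ⟨y, _, hy⟩
    unfold GBp at hy
    simp only [unpair_enc, Bool.and_eq_true, decide_eq_true_eq, List.all_eq_true,
      List.mem_range, vlc_eq, vl_str] at hy
    obtain ⟨h1, h2, h3⟩ := hy
    have h4 : v.length = N := by
      have := congrArg vl h1
      rwa [vl_str, vl_str] at this
    have h5 : min (y.length + 1) (Dset A Λ k x).ncard = (Dset A Λ k x).ncard := by
      have h6 := h2
      unfold chkL at h6
      simp only [Bool.and_eq_true, decide_eq_true_eq] at h6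
      have h7 := h6.1
      omega
    rw [h5] at h2 h3
    have key : ∀ i ≤ N, v.take i = answers A q x a i := by
      intro i
      induction i with
      | zero => intro _; rfl
      | succ i ih =>
        intro hi
        have h6 := ih (by omega)
        have h7 := h3 i (by omega)
        rw [h6, ansB_eq hA hlen h2 hf (by omega)] at h7
        rw [List.getD_eq_getElem _ _ (by omega)] at h7
        rw [List.take_succ_eq_append_getElem (by omega), h6, h7]
        simp only [answers]
    have h6 := key N le_rfl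
    rwa [List.take_of_length_le (by omega)] at h6
  · rintro rfl
    obtain ⟨y, hy1, hy2⟩ := exists_chkL hA x hD
    refine ⟨y, hy1.trans hE, ?_⟩
    have h5 : min (y.length + 1) (Dset A Λ k x).ncard = (Dset A Λ k x).ncard := by
      have h6 := hy2
      unfold chkL at h6
      simp only [Bool.and_eq_true, decide_eq_true_eq] at h6
      have h7 := h6.1
      omega
    unfold GBp
    simp only [unpair_enc, Bool.and_eq_true, decide_eq_true_eq, List.all_eq_true,
      List.mem_range, vlc_eq, vl_str]
    rw [h5, length_answers]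
    refine ⟨rfl, hy2, ?_⟩
    intro i hi
    rw [answers_getD _ _ _ _ _ _ hi, answers_take _ _ _ _ _ _ hi.le,
      ansB_eq hA hlen hy2 hf hi]

end

lemma pow_bound (α β e : ℕ) : ∃ C', ∀ n, α * n ^ e + β ≤ n ^ (e + 1) + C' := by
  refine ⟨α * α ^ e + β, fun n => ?_⟩
  rcases Nat.lt_or_ge n α with h | h
  · have h1 : α * n ^ e ≤ α * α ^ e := Nat.mul_le_mul_left _ (Nat.pow_le_pow_left h.le e)
    omega
  · have h1 : α * n ^ e ≤ n * n ^ e := Nat.mul_le_mul_right _ h
    rw [pow_succ, Nat.mul_comm (n ^ e)]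
    omega

lemma few_bound (c C κ : ℕ) : ∃ C', ∀ n, 2 * (n ^ c + C) ^ 2 + 8 * (n ^ c + C) + 8 + (n + κ) ≤
    n ^ (2 * c + 2) + C' := by
  obtain ⟨C', hC'⟩ := pow_bound 13 (4 + 8 + 4 * C ^ 2 + 8 * C + 8 + κ) (2 * c + 1)
  refine ⟨C', fun n => le_trans ?_ (hC' n)⟩
  have h1 : n ≤ n ^ (2 * c + 1) := Nat.le_self_pow (by omega) n
  have h2 : n ^ (2 * c) ≤ n ^ (2 * c + 1) + 1 := by
    rcases Nat.eq_zero_or_pos n with rfl | h
    · rcases Nat.eq_zero_or_pos c with rfl | hc
      · simp
      · rw [zero_pow (by omega)]; omega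
    · exact (Nat.pow_le_pow_right h (by omega)).trans (Nat.le_succ _)
  have h3 : n ^ c ≤ n ^ (2 * c + 1) + 1 := by
    rcases Nat.eq_zero_or_pos n with rfl | h
    · rcases Nat.eq_zero_or_pos c with rfl | hc
      · simp
      · rw [zero_pow (by omega)]; omega
    · exact (Nat.pow_le_pow_right h (by omega)).trans (Nat.le_succ _)
  have h4 : (n ^ c + C) ^ 2 ≤ 2 * n ^ (2 * c) + 2 * C ^ 2 := by
    have h5 : n ^ (2 * c) = (n ^ c) ^ 2 := by rw [← pow_mul, Nat.mul_comm]
    rw [h5]
    zify
    nlinarith [sq_nonneg (((n : ℤ) ^ c) - C)]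
  omega

theorem small_of_few {c : ℕ} {b : Bool} {L : Set (List Bool)} (h : InFewHeavy c b L) :
    InSmallInfo (2 * c + 2) L := by
  obtain ⟨A, q, d, a, N, C, k, Λ, ⟨⟨R, p, hR, hA⟩, hq, hd, ha, hN, hlen, hL⟩, hΛ, hx⟩ := h
  have hR' := PT_of_encPair hR
  have hΛ' := PT_of_encPair hΛ
  have hq' := PT_of_enc3 hq
  obtain ⟨κ, hκ⟩ := exists_poly_le
    (3 * (2 * (2 * (Polynomial.X ^ k + Polynomial.C k) + 2 +
      p.comp (Polynomial.X ^ k + Polynomial.C k)) + 2) + 2)
  have hκ' : ∀ n, 3 * (2 * (2 * (n ^ k + k) + 2 + p.eval (n ^ k + k)) + 2) + 2 ≤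
      2 ^ (κ + n) := by
    intro n
    have := hκ n
    simpa [Polynomial.eval_comp] using this
  obtain ⟨C', hC'⟩ := few_bound c C κ
  have hb1 : ∀ n, n ^ c + C ≤ n ^ (2 * c + 2) + C' := by
    intro n
    have := hC' n
    omega
  refine ⟨A, q, d, a, N, C', k, GB q Λ R p c C k b, ⟨⟨R, p, hR, hA⟩, hq, hd,
    fun n => (ha n).trans (hb1 n), fun n => (hN n).trans (Nat.pow_le_pow_right (by norm_num)
      (hb1 n)), hlen, hL⟩, PT.verifier (PT_GB hq' hΛ' hR' p c C k b), ?_⟩
  intro x
  obtain ⟨hD, hH⟩ := hx x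
  obtain ⟨pos, hp1, hp2⟩ := exists_positions (Hset_finite A q Λ b x (a x.length) (N x.length))
    hH (fun i hi => hi.1)
  have hw : ∀ j < x.length ^ c + C, 2 * (str (pos j)).length + 2 ≤
      2 * (x.length ^ c + C + 1) + 2 := by
    intro j _
    have h1 := length_str_le ((hp1 j).trans (hN x.length))
    omega
  refine ⟨encPair (str (N x.length), encPair (str (Dset A Λ k x).ncard,
    mkFlat (2 * (x.length ^ c + C + 1) + 2) (x.length ^ c + C) fun j => str (pos j))), ?_, ?_⟩
  · rw [length_encPair, length_encPair, length_mkFlat hw]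
    have h1 := length_str_le (hN x.length)
    have h2 := length_str_le hD
    have h3 := hC' x.length
    have h4 : (x.length ^ c + C) * (2 * (x.length ^ c + C + 1) + 2) =
      2 * (x.length ^ c + C) ^ 2 + 4 * (x.length ^ c + C) := by ring
    rw [h4]
    change 2 * (str (N x.length)).length + 2 + (2 * (str (Dset A Λ k x).ncard).length + 2 + _) ≤ _
    unfold Dset
    omega
  · intro v
    simp only [GB_enc4]
    refine GBp_correct hA (hlen x) ?_ hD ?_ v
    · intro i hi
      rw [← hp2 i hi]
      refine exists_congr fun j => and_congr_right fun hj => ?_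
      rw [blk_mkFlat hw hj]
      constructor
      · intro h1
        have := congrArg vl h1
        rwa [vl_str, vl_str] at this
      · intro h1
        rw [h1]
    · calc _ ≤ 2 ^ (x.length ^ c + C) * 2 ^ (κ + x.length) := Nat.mul_le_mul_left _ (hκ' _)
        _ = 2 ^ (x.length ^ c + C + (κ + x.length)) := (pow_add _ _ _).symm
        _ ≤ _ := Nat.pow_le_pow_right (by norm_num) (by have := hC' x.length; omega)

end Pool.Agent.MP_92db0f_lc
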