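import Pool.Agent.MP_92db0f_lc.Brute

/-!
Questions about answer sequences with nondeterministic descriptions.
-/

set_option autoImplicit false

namespace Pool.Agent.MP_92db0f_lc

open Lib.helper60 Function Turing Computability

/-! ### certificates -/

/-- The answer sequence in a certificate. -/
def cv (y : List Bool) : List Bool := (unpair y).1

/-- The certificate for the description. -/
def cg (y : List Bool) : List Bool := (unpair (unpair y).2).1

/-- The length of the blocks. -/
def cB (y : List Bool) : ℕ := (unpair (unpair (unpair y).2).2).1.length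

/-- The sequence of blocks. -/
def cf (y : List Bool) : List Bool := (unpair (unpair (unpair y).2).2).2

/-- A certificate. -/
def mkCert (v g : List Bool) (B : ℕ) (f : List Bool) : List Bool :=
  encPair (v, encPair (g, encPair (List.replicate B true, f)))

lemma cv_mkCert (v g : List Bool) (B : ℕ) (f : List Bool) : cv (mkCert v g B f) = v := by
  simp only [cv, mkCert, unpair_enc]

lemma cg_mkCert (v g : List Bool) (B : ℕ) (f : List Bool) : cg (mkCert v g B f) = g := by
  simp only [cg, mkCert, unpair_enc]

lemma cB_mkCert (v g : List Bool) (B : ℕ) (f : List Bool) : cB (mkCert v g B f) = B := by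
  simp only [cB, mkCert, unpair_enc, List.length_replicate]

lemma cf_mkCert (v g : List Bool) (B : ℕ) (f : List Bool) : cf (mkCert v g B f) = f := by
  simp only [cf, mkCert, unpair_enc]

lemma length_mkCert (v g : List Bool) (B : ℕ) (f : List Bool) :
    (mkCert v g B f).length = 2 * v.length + 2 + (2 * g.length + 2 + (2 * B + 2 + f.length)) := by
  unfold mkCert
  rw [length_encPair, length_encPair, length_encPair, List.length_replicate]

/-- The yes answer `i` is confirmed by the certificate. -/
def yesOK (q : List Bool × List Bool × List Bool → List Bool) (R : List Bool × List Bool → Bool)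
    (p : Polynomial ℕ) (k : ℕ) (x a y : List Bool) (i : ℕ) : Bool :=
  decide ((q (x, a, (cv y).take i)).length ≤ x.length ^ k + k) &&
  (decide ((blk (cB y) (cf y) i).length ≤ p.eval (q (x, a, (cv y).take i)).length) &&
    R (q (x, a, (cv y).take i), blk (cB y) (cf y) i))

/-- The check of a certificate. -/
def chk (q : List Bool × List Bool × List Bool → List Bool) (R G : List Bool × List Bool → Bool)
    (p : Polynomial ℕ) (c C k : ℕ) (x a s : List Bool) (N' cap : ℕ) (y : List Bool) : Bool :=
  decide ((cv y).length = N') && (decide ((cv y).length ≤ cap) &&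
  (decide ((cg y).length - 1 ≤ p2 cap (x.length ^ c + C)) &&
  (G (enc4 x a s (cv y), cg y) &&
  (List.range N').all fun i => (!((cv y).getD i false)) || yesOK q R p k x a y i)))

/-- The first answer sequence is larger than the second. -/
def beat (v v' : List Bool) (N' : ℕ) : Bool :=
  (List.range N').any fun i =>
    decide (v.take i = v'.take i) && (v.getD i false && !(v'.getD i false))

section PTs

variable {α : Type} [DEnc α]

lemma PT_cv {y : α → List Bool} (hy : PT y) : PT (fun z => cv (y z)) := (PT_unpair.comp hy).p1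

lemma PT_cg {y : α → List Bool} (hy : PT y) : PT (fun z => cg (y z)) :=
  (PT_unpair.comp (PT_unpair.comp hy).p2).p1

lemma PT_cB {y : α → List Bool} (hy : PT y) : PT (fun z => cB (y z)) :=
  PT.length (PT_unpair.comp (PT_unpair.comp (PT_unpair.comp hy).p2).p2).p1

lemma PT_cf {y : α → List Bool} (hy : PT y) : PT (fun z => cf (y z)) :=
  (PT_unpair.comp (PT_unpair.comp (PT_unpair.comp hy).p2).p2).p2

variable {q : List Bool × List Bool × List Bool → List Bool} {R G : List Bool × List Bool → Bool}
    (hq : PT q) (hR : PT R) (hG : PT G) (p : Polynomial ℕ) (c C k : ℕ)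

include hq hR in
lemma PT_yesOK {x a y : α → List Bool} {i : α → ℕ} (hx : PT x) (ha : PT a) (hy : PT y)
    (hi : PT i) : PT (fun z => yesOK q R p k (x z) (a z) (y z) (i z)) := by
  unfold yesOK
  have h1 : PT (fun z => q (x z, a z, (cv (y z)).take (i z))) :=
    hq.comp (PT.pair hx (PT.pair ha (PT_take hi (PT_cv hy))))
  have h2 : PT (fun z => blk (cB (y z)) (cf (y z)) (i z)) := PT_blk (PT_cB hy) (PT_cf hy) hi
  exact PT.band (PT.nle (PT.length h1) (PT.nadd (PT_npow (PT.length hx) k) (PT.const k)))
    (PT.band (PT.nle (PT.length h2) (PT_peval p (PT.length h1))) (hR.comp (PT.pair h1 h2)))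

include hq hR hG in
lemma PT_chk {x a s y : α → List Bool} {N' cap : α → ℕ} (hx : PT x) (ha : PT a) (hs : PT s)
    (hN : PT N') (hcap : PT cap) (hy : PT y) :
    PT (fun z => chk q R G p c C k (x z) (a z) (s z) (N' z) (cap z) (y z)) := by
  unfold chk enc4
  refine PT.band (PT.neq (PT.length (PT_cv hy)) hN) (PT.band (PT.nle (PT.length (PT_cv hy)) hcap)
    (PT.band (PT.nle (PT.nsub (PT.length (PT_cg hy)) (PT.const 1)) (PT_p2 hcap
      (PT.nadd (PT_npow (PT.length hx) c) (PT.const C)))) (PT.band (hG.comp (PT.pair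
        (PT_encPair hx (PT_encPair ha (PT_encPair hs (PT_cv hy)))) (PT_cg hy))) ?_)))
  refine PT.all (p := fun z : α × ℕ => (!((cv (y z.1)).getD z.2 false)) ||
    yesOK q R p k (x z.1) (a z.1) (y z.1) z.2) (PT.range hN) ?_
  exact PT.bor (PT.bnot (PT.getD (PT_cv (hy.comp PT.fst)) PT.snd (PT.const false)))
    (PT_yesOK hq hR p k (hx.comp PT.fst) (ha.comp PT.fst) (hy.comp PT.fst) PT.snd)

lemma PT_beat {v v' : α → List Bool} {N' : α → ℕ} (hv : PT v) (hv' : PT v') (hN : PT N') :
    PT (fun z => beat (v z) (v' z) (N' z)) := by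
  unfold beat
  refine PT.any (p := fun z : α × ℕ => decide ((v z.1).take z.2 = (v' z.1).take z.2) &&
    ((v z.1).getD z.2 false && !((v' z.1).getD z.2 false))) (PT.range hN) ?_
  have h1 := hv.comp (PT.fst (α := α) (β := ℕ))
  have h2 := hv'.comp (PT.fst (α := α) (β := ℕ))
  exact PT.band (PT_leq (PT_take PT.snd h1) (PT_take PT.snd h2))
    (PT.band (PT.getD h1 PT.snd (PT.const false)) (PT.bnot (PT.getD h2 PT.snd (PT.const false))))

end PTs

/-! ### semantics -/

/-- `v` is an acceptable answer sequence with description `s`. -/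
def Acc (A : Set (List Bool)) (q : List Bool × List Bool × List Bool → List Bool)
    (G : List Bool × List Bool → Bool) (c C k N : ℕ) (x a s v : List Bool) : Prop :=
  v.length = N ∧ (∃ g : List Bool, g.length ≤ 2 ^ (x.length ^ c + C) ∧
    G (enc4 x a s v, g) = true) ∧ ∀ i < N, v.getD i false = true →
      (q (x, a, v.take i)).length ≤ x.length ^ k + k ∧ q (x, a, v.take i) ∈ A

/-- The first answer sequence is larger than the second. -/
def Beat (v v' : List Bool) (N : ℕ) : Prop :=
  ∃ i < N, v.take i = v'.take i ∧ v.getD i false = true ∧ v'.getD i false = false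

lemma beat_iff (v v' : List Bool) (N : ℕ) : beat v v' N = true ↔ Beat v v' N := by
  unfold beat Beat
  simp only [List.any_eq_true, List.mem_range, Bool.and_eq_true, decide_eq_true_eq,
    Bool.not_eq_true']

section

variable {A : Set (List Bool)} {q : List Bool × List Bool × List Bool → List Bool}
    {R G : List Bool × List Bool → Bool} {p : Polynomial ℕ} {c C k N : ℕ}
    (hA : ∀ w, w ∈ A ↔ ∃ y : List Bool, y.length ≤ p.eval w.length ∧ R (w, y) = true)

include hA in
lemma chk_sound {cap : ℕ} {x a s y : List Bool}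
    (h : chk q R G p c C k x a s (min (cap + 1) N) cap y = true) :
    min (cap + 1) N = N ∧ Acc A q G c C k N x a s (cv y) := by
  unfold chk at h
  simp only [Bool.and_eq_true, decide_eq_true_eq, List.all_eq_true, List.mem_range,
    Bool.or_eq_true, Bool.not_eq_true'] at h
  obtain ⟨h1, h2, h3, h4, h5⟩ := h
  have hN : min (cap + 1) N = N := by omega
  rw [hN] at h1 h5
  refine ⟨hN, h1, ⟨cg y, ?_, h4⟩, ?_⟩
  · rw [p2_eq] at h3
    have h6 : 1 ≤ 2 ^ (x.length ^ c + C) := Nat.one_le_pow _ _ (by norm_num)
    omega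
  · intro i hi hv
    rcases h5 i hi with h6 | h6
    · rw [hv] at h6
      exact absurd h6 (by simp)
    · unfold yesOK at h6
      simp only [Bool.and_eq_true, decide_eq_true_eq] at h6
      exact ⟨h6.1, (hA _).mpr ⟨_, h6.2.1, h6.2.2⟩⟩

include hA in
lemma chk_complete {x a s v : List Bool} (h : Acc A q G c C k N x a s v)
    (hN : N ≤ 2 ^ (x.length ^ c + C)) :
    ∃ y : List Bool, y.length ≤ 2 ^ (x.length ^ c + C) *
      (3 * (2 * p.eval (x.length ^ k + k) + 2) + 10) ∧ cv y = v ∧
      ∀ cap, y.length ≤ cap → chk q R G p c C k x a s N cap y = true := by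
  classical
  obtain ⟨h1, ⟨g, h2, h3⟩, h4⟩ := h
  obtain ⟨B, hB⟩ : ∃ B, B = 2 * p.eval (x.length ^ k + k) + 2 := ⟨_, rfl⟩
  have hex : ∀ i, ∃ w : List Bool, 2 * w.length + 2 ≤ B ∧ (i < N → v.getD i false = true →
      w.length ≤ p.eval (q (x, a, v.take i)).length ∧ R (q (x, a, v.take i), w) = true) := by
    intro i
    by_cases hi : i < N ∧ v.getD i false = true
    · obtain ⟨h5, h6⟩ := h4 i hi.1 hi.2
      obtain ⟨w, hw1, hw2⟩ := (hA _).mp h6
      refine ⟨w, ?_, fun _ _ => ⟨hw1, hw2⟩⟩
      have h7 := hw1.trans (evalMono p h5)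
      beta_reduce at h7
      omega
    · refine ⟨[], by simp only [List.length_nil]; omega, fun h8 h9 => absurd ⟨h8, h9⟩ hi⟩
  choose w hw1 hw2 using hex
  have hlen := length_mkFlat (B := B) (M := N) (w := w) fun i _ => hw1 i
  refine ⟨mkCert v g B (mkFlat B N w), ?_, cv_mkCert _ _ _ _, ?_⟩
  · rw [length_mkCert, hlen, h1, ← hB]
    have h5 : N * B ≤ 2 ^ (x.length ^ c + C) * B := Nat.mul_le_mul_right _ hN
    have h6 : 1 ≤ 2 ^ (x.length ^ c + C) := Nat.one_le_pow _ _ (by norm_num)
    have h7 : B ≤ 2 ^ (x.length ^ c + C) * B := Nat.le_mul_of_pos_left _ (by omega)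
    have h8 : 2 ^ (x.length ^ c + C) * (3 * B + 10) = 3 * (2 ^ (x.length ^ c + C) * B) +
        10 * 2 ^ (x.length ^ c + C) := by ring
    rw [h8]
    omega
  · intro cap hcap
    rw [length_mkCert] at hcap
    unfold chk
    simp only [Bool.and_eq_true, decide_eq_true_eq, List.all_eq_true, List.mem_range,
      Bool.or_eq_true, Bool.not_eq_true', cv_mkCert, cg_mkCert]
    refine ⟨h1, by omega, ?_, h3, ?_⟩
    · rw [p2_eq]
      omega
    · intro i hi
      cases hv : v.getD i false
      · exact Or.inl rfl
      · right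
        obtain ⟨h5, h6⟩ := hw2 i hi hv
        unfold yesOK
        simp only [Bool.and_eq_true, decide_eq_true_eq, cv_mkCert, cB_mkCert, cf_mkCert]
        rw [blk_mkFlat (fun i _ => hw1 i) hi]
        exact ⟨(h4 i hi hv).1, h5, h6⟩

end

end Pool.Agent.MP_92db0f_lc
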