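import Pool.Agent.MP_92db0f_lc.Fixed

/-!
If the complete problem is in deterministic exponential time, then languages with answer sequences
of small information are in deterministic exponential time with a fixed exponent.
-/

set_option autoImplicit false

namespace Pool.Agent.MP_92db0f_lc

open Lib.helper60 Function Turing Computability

/-! ### the questions -/

/-- The parts of a question. -/
def kx (w : List Bool) : List Bool := (unpair (unpair w).1).1
def kr (w : List Bool) : List Bool := (unpair (unpair w).1).2
def ka (w : List Bool) : List Bool := (unpair (kr w)).1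
def kn (w : List Bool) : List Bool := (unpair (unpair (kr w)).2).1
def ku (w : List Bool) : List Bool := (unpair (unpair (kr w)).2).2
def ks (w : List Bool) : List Bool := (unpair (ku w)).1
def kt (w : List Bool) : List Bool := (unpair (unpair (ku w)).2).1
def kg (w : List Bool) : List Bool := (unpair (unpair (ku w)).2).2

/-- The core of a question. -/
def mkC (x a nS s t g : List Bool) : List Bool :=
  encPair (x, encPair (a, encPair (nS, encPair (s, encPair (t, g)))))

/-- A question. -/
def mkQ (x a nS s t g : List Bool) (P : ℕ) : List Bool :=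
  encPair (mkC x a nS s t g, List.replicate (2 * P - 2 * (mkC x a nS s t g).length) true)

lemma length_mkC (x a nS s t g : List Bool) : (mkC x a nS s t g).length =
    2 * x.length + 2 + (2 * a.length + 2 + (2 * nS.length + 2 + (2 * s.length + 2 +
      (2 * t.length + 2 + g.length)))) := by
  unfold mkC
  simp only [length_encPair]

lemma length_mkQ {x a nS s t g : List Bool} {P : ℕ} (h : (mkC x a nS s t g).length ≤ P) :
    (mkQ x a nS s t g P).length = 2 * P + 2 := by
  unfold mkQ
  rw [length_encPair, List.length_replicate]
  omega

/-- The verifier for the questions. -/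
def QV (q : List Bool × List Bool × List Bool → List Bool)
    (d : List Bool × List Bool × List Bool → Bool) (R G : List Bool × List Bool → Bool)
    (p : Polynomial ℕ) (c C k : ℕ) (z : List Bool × List Bool) : Bool :=
  bif decide ((kg z.1).length = 0) then
    chk q R G p c C k (kx z.1) (ka z.1) (ks z.1) (vlc (z.2.length + 1) (kn z.1)) z.2.length
      (unpair z.2).1 && d (kx z.1, ka z.1, cv (unpair z.2).1)
  else
    chk q R G p c C k (kx z.1) (ka z.1) (ks z.1) (vlc (z.2.length + 1) (kn z.1)) z.2.length
      (unpair z.2).1 &&
    (chk q R G p c C k (kx z.1) (ka z.1) (kt z.1) (vlc (z.2.length + 1) (kn z.1)) z.2.length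
      (unpair z.2).2 &&
    beat (cv (unpair z.2).1) (cv (unpair z.2).2) (vlc (z.2.length + 1) (kn z.1)))

section

variable {q : List Bool × List Bool × List Bool → List Bool}
    {d : List Bool × List Bool × List Bool → Bool} {R G : List Bool × List Bool → Bool}

lemma PT_QV (hq : PT q) (hd : PT d) (hR : PT R) (hG : PT G) (p : Polynomial ℕ) (c C k : ℕ) :
    PT (QV q d R G p c C k) := by
  unfold QV
  have hw : PT (fun z : List Bool × List Bool => z.1) := PT.fst
  have hy : PT (fun z : List Bool × List Bool => z.2) := PT.snd
  have hcore : PT (fun z : List Bool × List Bool => (unpair z.1).1) := (PT_unpair.comp hw).p1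
  have hkx : PT (fun z : List Bool × List Bool => kx z.1) := (PT_unpair.comp hcore).p1
  have hkr : PT (fun z : List Bool × List Bool => kr z.1) := (PT_unpair.comp hcore).p2
  have hka : PT (fun z : List Bool × List Bool => ka z.1) := (PT_unpair.comp hkr).p1
  have hkr2 : PT (fun z : List Bool × List Bool => (unpair (kr z.1)).2) :=
    (PT_unpair.comp hkr).p2
  have hkn : PT (fun z : List Bool × List Bool => kn z.1) := (PT_unpair.comp hkr2).p1
  have hku : PT (fun z : List Bool × List Bool => ku z.1) := (PT_unpair.comp hkr2).p2
  have hks : PT (fun z : List Bool × List Bool => ks z.1) := (PT_unpair.comp hku).p1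
  have hku2 : PT (fun z : List Bool × List Bool => (unpair (ku z.1)).2) :=
    (PT_unpair.comp hku).p2
  have hkt : PT (fun z : List Bool × List Bool => kt z.1) := (PT_unpair.comp hku2).p1
  have hkg : PT (fun z : List Bool × List Bool => kg z.1) := (PT_unpair.comp hku2).p2
  have hl : PT (fun z : List Bool × List Bool => z.2.length) := PT.length hy
  have hN : PT (fun z : List Bool × List Bool => vlc (z.2.length + 1) (kn z.1)) :=
    PT_vlc (PT.nsucc hl) hkn
  have hy1 : PT (fun z : List Bool × List Bool => (unpair z.2).1) := (PT_unpair.comp hy).p1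
  have hy2 : PT (fun z : List Bool × List Bool => (unpair z.2).2) := (PT_unpair.comp hy).p2
  have hc1 := PT_chk hq hR hG p c C k hkx hka hks hN hl hy1
  have hc2 := PT_chk hq hR hG p c C k hkx hka hkt hN hl hy2
  exact PT.cond (PT.neq (PT.length hkg) (PT.const 0))
    (PT.band hc1 (hd.comp (PT.pair hkx (PT.pair hka (PT_cv hy1)))))
    (PT.band hc1 (PT.band hc2 (PT_beat (PT_cv hy1) (PT_cv hy2) hN)))

variable {A : Set (List Bool)} {p : Polynomial ℕ} {c C k N : ℕ}
    (hA : ∀ w, w ∈ A ↔ ∃ y : List Bool, y.length ≤ p.eval w.length ∧ R (w, y) = true)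

lemma QV_nil (x a s t : List Bool) (P : ℕ) (y : List Bool) :
    QV q d R G p c C k (mkQ x a (str N) s t [] P, y) =
      (chk q R G p c C k x a s (min (y.length + 1) N) y.length (unpair y).1 &&
        d (x, a, cv (unpair y).1)) := by
  simp only [QV, kx, kr, ka, kn, ku, ks, kt, kg, mkQ, mkC, unpair_enc, vlc_eq, vl_str]
  rfl

lemma QV_one (x a s t : List Bool) (P : ℕ) (y : List Bool) :
    QV q d R G p c C k (mkQ x a (str N) s t [true] P, y) =
      (chk q R G p c C k x a s (min (y.length + 1) N) y.length (unpair y).1 &&
        (chk q R G p c C k x a t (min (y.length + 1) N) y.length (unpair y).2 &&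
        beat (cv (unpair y).1) (cv (unpair y).2) (min (y.length + 1) N))) := by
  simp only [QV, kx, kr, ka, kn, ku, ks, kt, kg, mkQ, mkC, unpair_enc, vlc_eq, vl_str]
  rfl

include hA in
/-- The question for the decision. -/
lemma ask_nil {x a s t : List Bool} {P E : ℕ} (hN : N ≤ 2 ^ (x.length ^ c + C))
    (hE : 2 ^ (x.length ^ c + C) * (9 * (2 * p.eval (x.length ^ k + k) + 2) + 32) ≤ 2 ^ E) :
    (∃ y : List Bool, y.length ≤ 2 ^ E ∧
      QV q d R G p c C k (mkQ x a (str N) s t [] P, y) = true) ↔
    ∃ v, Acc A q G c C k N x a s v ∧ d (x, a, v) = true := by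
  constructor
  · rintro ⟨y, _, hy⟩
    rw [QV_nil, Bool.and_eq_true] at hy
    exact ⟨_, (chk_sound hA hy.1).2, hy.2⟩
  · rintro ⟨v, hv, hd⟩
    obtain ⟨y, hy1, hy2, hy3⟩ := chk_complete hA hv hN
    have h0 : 1 ≤ 2 ^ (x.length ^ c + C) := Nat.one_le_pow _ _ (by norm_num)
    have hlen : (encPair (y, ([] : List Bool))).length = 2 * y.length + 2 := by
      rw [length_encPair, List.length_nil, Nat.add_zero]
    have hvy : v.length ≤ (encPair (y, ([] : List Bool))).length := by
      have h1 := hy3 y.length le_rfl
      unfold chk at h1
      simp only [Bool.and_eq_true, decide_eq_true_eq] at h1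
      rw [hlen, ← hy2]
      omega
    refine ⟨encPair (y, []), ?_, ?_⟩
    · rw [hlen]
      refine le_trans ?_ hE
      have h1 : 2 ^ (x.length ^ c + C) * (9 * (2 * p.eval (x.length ^ k + k) + 2) + 32) =
        3 * (2 ^ (x.length ^ c + C) * (3 * (2 * p.eval (x.length ^ k + k) + 2) + 10)) +
          2 * 2 ^ (x.length ^ c + C) := by ring
      rw [h1]
      omega
    · rw [QV_nil, Bool.and_eq_true]
      have h1 : min ((encPair (y, ([] : List Bool))).length + 1) N = N := by
        rw [min_eq_right]
        have := hv.1
        omega
      rw [h1]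
      simp only [unpair_enc]
      rw [hy2]
      exact ⟨hy3 _ (by rw [hlen]; omega), hd⟩

include hA in
/-- The question for the comparison. -/
lemma ask_one {x a s t : List Bool} {P E : ℕ} (hN : N ≤ 2 ^ (x.length ^ c + C))
    (hE : 2 ^ (x.length ^ c + C) * (9 * (2 * p.eval (x.length ^ k + k) + 2) + 32) ≤ 2 ^ E) :
    (∃ y : List Bool, y.length ≤ 2 ^ E ∧
      QV q d R G p c C k (mkQ x a (str N) s t [true] P, y) = true) ↔
    ∃ v v', Acc A q G c C k N x a s v ∧ Acc A q G c C k N x a t v' ∧ Beat v v' N := by
  constructor
  · rintro ⟨y, _, hy⟩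
    rw [QV_one, Bool.and_eq_true, Bool.and_eq_true] at hy
    obtain ⟨h1, h2⟩ := chk_sound hA hy.1
    obtain ⟨h3, h4⟩ := chk_sound hA hy.2.1
    rw [h1, beat_iff] at hy
    exact ⟨_, _, h2, h4, hy.2.2⟩
  · rintro ⟨v, v', hv, hv', hb⟩
    obtain ⟨y, hy1, hy2, hy3⟩ := chk_complete hA hv hN
    obtain ⟨z, hz1, hz2, hz3⟩ := chk_complete hA hv' hN
    have h0 : 1 ≤ 2 ^ (x.length ^ c + C) := Nat.one_le_pow _ _ (by norm_num)
    have hlen : (encPair (y, z)).length = 2 * y.length + 2 + z.length := length_encPair _ _
    have hvy : v.length ≤ (encPair (y, z)).length := by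
      have h1 := hy3 y.length le_rfl
      unfold chk at h1
      simp only [Bool.and_eq_true, decide_eq_true_eq] at h1
      rw [hlen, ← hy2]
      omega
    refine ⟨encPair (y, z), ?_, ?_⟩
    · rw [hlen]
      refine le_trans ?_ hE
      have h1 : 2 ^ (x.length ^ c + C) * (9 * (2 * p.eval (x.length ^ k + k) + 2) + 32) =
        3 * (2 ^ (x.length ^ c + C) * (3 * (2 * p.eval (x.length ^ k + k) + 2) + 10)) +
          2 * 2 ^ (x.length ^ c + C) := by ring
      rw [h1]
      omega
    · rw [QV_one, Bool.and_eq_true, Bool.and_eq_true]
      have h1 : min ((encPair (y, z)).length + 1) N = N := by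
        rw [min_eq_right]
        have := hv.1
        omega
      rw [h1, beat_iff]
      simp only [unpair_enc]
      rw [hy2, hz2]
      exact ⟨hy3 _ (by rw [hlen]; omega), hz3 _ (by rw [hlen]; omega), hb⟩

end

/-! ### correct answer sequences -/

lemma length_answers (A : Set (List Bool)) (q : List Bool × List Bool × List Bool → List Bool)
    (x a : List Bool) (i : ℕ) : (answers A q x a i).length = i := by
  induction i with
  | zero => rfl
  | succ i ih => simp [answers, ih]

lemma answers_take (A : Set (List Bool)) (q : List Bool × List Bool × List Bool → List Bool)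
    (x a : List Bool) (N i : ℕ) (hi : i ≤ N) : (answers A q x a N).take i = answers A q x a i := by
  induction N with
  | zero =>
    have : i = 0 := by omega
    subst this
    rfl
  | succ N ih =>
    rcases Nat.lt_or_ge N i with h | h
    · have : i = N + 1 := by omega
      subst this
      rw [List.take_of_length_le (by rw [length_answers])]
    · simp only [answers]
      rw [List.take_append_of_le_length (by rw [length_answers]; exact h)]
      exact ih h

open Classical in
lemma answers_getD (A : Set (List Bool)) (q : List Bool × List Bool × List Bool → List Bool)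
    (x a : List Bool) (N i : ℕ) (hi : i < N) : (answers A q x a N).getD i false =
      decide (q (x, a, answers A q x a i) ∈ A) := by
  have h1 : (answers A q x a N).getD i false = (answers A q x a (i + 1)).getD i false := by
    rw [← answers_take A q x a N (i + 1) (by omega)]
    simp [List.getD_eq_getElem?_getD]
  rw [h1]
  simp only [answers]
  rw [List.getD_append_right _ _ _ _ (by rw [length_answers])]
  rw [length_answers, Nat.sub_self]
  rfl

lemma not_beat_answers {A : Set (List Bool)}
    {q : List Bool × List Bool × List Bool → List Bool} {G : List Bool × List Bool → Bool}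
    {c C k N : ℕ} {x a s v : List Bool} (hv : Acc A q G c C k N x a s v) :
    ¬ Beat v (answers A q x a N) N := by
  rintro ⟨i, hi, h1, h2, h3⟩
  rw [answers_getD A q x a N i hi] at h3
  rw [answers_take A q x a N i hi.le] at h1
  have h4 := (hv.2.2 i hi h2).2
  rw [h1] at h4
  rw [decide_eq_false_iff_not] at h3
  exact h3 h4

lemma beat_total {v v' : List Bool} {N : ℕ} (hv : v.length = N) (hv' : v'.length = N)
    (h1 : ¬ Beat v v' N) (h2 : ¬ Beat v' v N) : v = v' := by
  have key : ∀ i ≤ N, v.take i = v'.take i := by
    intro i
    induction i with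
    | zero => intro _; rfl
    | succ i ih =>
      intro hi
      have h3 := ih (by omega)
      have h4 : v.getD i false = v'.getD i false := by
        cases h5 : v.getD i false <;> cases h6 : v'.getD i false
        · rfl
        · exact absurd ⟨i, by omega, h3.symm, h6, h5⟩ h2
        · exact absurd ⟨i, by omega, h3, h5, h6⟩ h1
        · rfl
      rw [List.getD_eq_getElem _ _ (by omega), List.getD_eq_getElem _ _ (by omega)] at h4
      rw [List.take_succ_eq_append_getElem (by omega), List.take_succ_eq_append_getElem (by omega),
        h3, h4]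
  have h3 := key N le_rfl
  rwa [List.take_of_length_le (by omega), List.take_of_length_le (by omega)] at h3

end Pool.Agent.MP_92db0f_lc
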