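import Pool.Agent.MP_92db0f_lc.Fixed2

/-!
If the complete problem is in deterministic exponential time, then languages with answer sequences
of small information are in deterministic exponential time with a fixed exponent.
-/

set_option autoImplicit false

namespace Pool.Agent.MP_92db0f_lc

open Lib.helper60 Function Turing Computability

/-- The bound for the length of the core of a question. -/
def PP (c C n : ℕ) : ℕ := 2 * n + 8 * (n ^ c + C) + 13

/-- A question, as an instance of the complete problem. -/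
def zz (u : List Bool) (K c C : ℕ) (x a nS s t g : List Bool) : List Bool :=
  encPair (u, encPair (mkQ x a nS s t g (PP c C x.length),
    List.replicate (K * ((mkQ x a nS s t g (PP c C x.length)).length + 1)) true))

/-- The length of the instances. -/
def lz (u : List Bool) (K c C n : ℕ) : ℕ :=
  2 * u.length + 2 + (2 * (2 * PP c C n + 2) + 2 + K * (2 * PP c C n + 2 + 1))

lemma length_zz {u : List Bool} {K c C : ℕ} {x a nS s t g : List Bool}
    (ha : a.length ≤ x.length ^ c + C) (hn : nS.length ≤ x.length ^ c + C + 1)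
    (hs : s.length ≤ x.length ^ c + C) (ht : t.length ≤ x.length ^ c + C) (hg : g.length ≤ 1) :
    (mkQ x a nS s t g (PP c C x.length)).length = 2 * PP c C x.length + 2 ∧
    (zz u K c C x a nS s t g).length = lz u K c C x.length := by
  have h1 : (mkQ x a nS s t g (PP c C x.length)).length = 2 * PP c C x.length + 2 := by
    apply length_mkQ
    rw [length_mkC]
    unfold PP
    omega
  refine ⟨h1, ?_⟩
  unfold zz lz
  rw [length_encPair, length_encPair, List.length_replicate, h1]

section

variable {α : Type} [DEnc α]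

lemma PT_mkC {x a nS s t g : α → List Bool} (hx : PT x) (ha : PT a) (hn : PT nS) (hs : PT s)
    (ht : PT t) (hg : PT g) : PT (fun z => mkC (x z) (a z) (nS z) (s z) (t z) (g z)) :=
  PT_encPair hx (PT_encPair ha (PT_encPair hn (PT_encPair hs (PT_encPair ht hg))))

lemma PT_zz (u : List Bool) (K c C : ℕ) {x a nS s t g : α → List Bool} (hx : PT x) (ha : PT a)
    (hn : PT nS) (hs : PT s) (ht : PT t) (hg : PT g) :
    PT (fun z => zz u K c C (x z) (a z) (nS z) (s z) (t z) (g z)) := by
  have hP : PT (fun z => PP c C (x z).length) := by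
    unfold PP
    exact PT.nadd (PT.nadd (PT.nmul (PT.const 2) (PT.length hx)) (PT.nmul (PT.const 8)
      (PT.nadd (PT_npow (PT.length hx) c) (PT.const C)))) (PT.const 13)
  have hC := PT_mkC hx ha hn hs ht hg
  have hQ : PT (fun z => mkQ (x z) (a z) (nS z) (s z) (t z) (g z) (PP c C (x z).length)) :=
    PT_encPair hC (PT.replicate (PT.nsub (PT.nmul (PT.const 2) hP)
      (PT.nmul (PT.const 2) (PT.length hC))) (PT.const true))
  exact PT_encPair (PT.const u) (PT_encPair hQ (PT.replicate (PT.nmul (PT.const K)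
    (PT.nadd (PT.length hQ) (PT.const 1))) (PT.const true)))

end

/-- The deterministic algorithm. -/
def algW (u : List Bool) (K c C : ℕ) (WK : List Bool × List Bool × ℕ → Bool)
    (z : List Bool × List Bool × ℕ) : Bool :=
  (List.range (p2 z.2.2 (z.1.length ^ c + C + 1))).any fun i =>
    WK (zz u K c C z.1 (unpair z.2.1).1 (unpair (unpair z.2.1).2).2 (str i) [] [],
      (unpair (unpair z.2.1).2).1, z.2.2) &&
    (List.range (p2 z.2.2 (z.1.length ^ c + C + 1))).all fun j =>
      !WK (zz u K c C z.1 (unpair z.2.1).1 (unpair (unpair z.2.1).2).2 (str j) (str i) [true],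
        (unpair (unpair z.2.1).2).1, z.2.2)

lemma PT_algW (u : List Bool) (K c C : ℕ) {WK : List Bool × List Bool × ℕ → Bool} (hW : PT WK) :
    PT (algW u K c C WK) := by
  unfold algW
  have hS : PT (fun z : List Bool × List Bool × ℕ => p2 z.2.2 (z.1.length ^ c + C + 1)) :=
    PT_p2 PT.snd.p2 (PT.nsucc (PT.nadd (PT_npow (PT.length PT.fst) c) (PT.const C)))
  have ha : PT (fun z : List Bool × List Bool × ℕ => (unpair z.2.1).1) :=
    (PT_unpair.comp PT.snd.p1).p1
  have h2 : PT (fun z : List Bool × List Bool × ℕ => (unpair z.2.1).2) :=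
    (PT_unpair.comp PT.snd.p1).p2
  have hn : PT (fun z : List Bool × List Bool × ℕ => (unpair (unpair z.2.1).2).2) :=
    (PT_unpair.comp h2).p2
  have hb : PT (fun z : List Bool × List Bool × ℕ => (unpair (unpair z.2.1).2).1) :=
    (PT_unpair.comp h2).p1
  refine PT.any (p := fun y : (List Bool × List Bool × ℕ) × ℕ =>
    WK (zz u K c C y.1.1 (unpair y.1.2.1).1 (unpair (unpair y.1.2.1).2).2 (str y.2) [] [],
      (unpair (unpair y.1.2.1).2).1, y.1.2.2) &&
    (List.range (p2 y.1.2.2 (y.1.1.length ^ c + C + 1))).all fun j =>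
      !WK (zz u K c C y.1.1 (unpair y.1.2.1).1 (unpair (unpair y.1.2.1).2).2 (str j) (str y.2)
        [true], (unpair (unpair y.1.2.1).2).1, y.1.2.2)) (PT.range hS) ?_
  refine PT.band (hW.comp (PT.pair (PT_zz u K c C PT.fst.p1 (ha.comp PT.fst) (hn.comp PT.fst)
    (PT_str PT.snd) (PT.const []) (PT.const [])) (PT.pair (hb.comp PT.fst) PT.fst.p2.p2))) ?_
  refine PT.all (p := fun y : ((List Bool × List Bool × ℕ) × ℕ) × ℕ =>
      !WK (zz u K c C y.1.1.1 (unpair y.1.1.2.1).1 (unpair (unpair y.1.1.2.1).2).2 (str y.2)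
        (str y.1.2) [true], (unpair (unpair y.1.1.2.1).2).1, y.1.1.2.2))
        (PT.range (hS.comp PT.fst)) ?_
  have h1 : PT (fun y : ((List Bool × List Bool × ℕ) × ℕ) × ℕ => y.1.1) := PT.fst.p1
  exact PT.bnot (hW.comp (PT.pair (PT_zz u K c C h1.p1 (ha.comp h1) (hn.comp h1)
    (PT_str PT.snd) (PT_str PT.fst.p2) (PT.const [true])) (PT.pair (hb.comp h1) h1.p2.p2)))

lemma exp_bound (u : List Bool) (K c C CK e : ℕ) : ∃ C3, ∀ n,
    (lz u K c C n + CK) ^ e ≤ (n + C3) ^ ((c + 2) * (e + 1)) ∧
    n ^ c + C ≤ (n + C3) ^ ((c + 2) * (e + 1)) ∧ 1 ≤ (n + C3) ^ ((c + 2) * (e + 1)) := by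
  obtain ⟨α, hα⟩ : ∃ α, α = (K + 2) * 16 := ⟨_, rfl⟩
  obtain ⟨β, hβ⟩ : ∃ β, β = 2 * u.length + 4 + K + (K + 2) * (16 * C + 28) + CK := ⟨_, rfl⟩
  refine ⟨2 * α + β + C + 2, fun n => ?_⟩
  obtain ⟨M, hM⟩ : ∃ M, M = n + (2 * α + β + C + 2) := ⟨_, rfl⟩
  rw [← hM]
  have h0 : 1 ≤ M ^ c := Nat.one_le_pow _ _ (by omega)
  have h1 : n ^ c ≤ M ^ c := Nat.pow_le_pow_left (by omega) c
  have h2 : M ^ c * M = M ^ (c + 1) := (pow_succ _ _).symm
  have h3 : n ≤ M ^ (c + 1) := by
    rw [← h2]
    calc n ≤ M := by omega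
      _ ≤ M ^ c * M := Nat.le_mul_of_pos_left _ (by omega)
  have h4 : n ^ c ≤ M ^ (c + 1) := by
    rw [← h2]
    calc n ^ c ≤ M ^ c := h1
      _ ≤ M ^ c * M := Nat.le_mul_of_pos_right _ (by omega)
  have h5 : lz u K c C n + CK ≤ α * n + α * n ^ c + β := by
    unfold lz PP
    rw [hα, hβ]
    ring_nf
    have h6 : n * K * 4 ≤ n * K * 16 := Nat.mul_le_mul_left _ (by norm_num)
    omega
  have h6 : α * n + α * n ^ c + β ≤ M ^ (c + 2) := by
    have h7 : 1 ≤ M ^ (c + 1) := Nat.one_le_pow _ _ (by omega)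
    calc α * n + α * n ^ c + β ≤ α * M ^ (c + 1) + α * M ^ (c + 1) + β * M ^ (c + 1) :=
          Nat.add_le_add (Nat.add_le_add (Nat.mul_le_mul_left _ h3) (Nat.mul_le_mul_left _ h4))
            (Nat.le_mul_of_pos_right _ (by omega))
      _ = M ^ (c + 1) * (2 * α + β) := by ring
      _ ≤ M ^ (c + 1) * M := Nat.mul_le_mul_left _ (by omega)
      _ = M ^ (c + 2) := (pow_succ _ _).symm
  have h7 : M ^ (c + 2) ≤ M ^ ((c + 2) * (e + 1)) :=
    Nat.pow_le_pow_right (by omega) (Nat.le_mul_of_pos_right _ (by omega))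
  refine ⟨?_, ?_, Nat.one_le_pow _ _ (by omega)⟩
  · calc (lz u K c C n + CK) ^ e ≤ (M ^ (c + 2)) ^ e :=
          Nat.pow_le_pow_left (h5.trans h6) e
      _ = M ^ ((c + 2) * e) := (pow_mul _ _ _).symm
      _ ≤ M ^ ((c + 2) * (e + 1)) :=
          Nat.pow_le_pow_right (by omega) (Nat.mul_le_mul_left _ (by omega))
  · refine le_trans ?_ h7
    have h8 : M ^ (c + 2) = M ^ (c + 1) * M := pow_succ _ _
    have h9 : 1 ≤ M ^ (c + 1) := Nat.one_le_pow _ _ (by omega)
    rw [h8]
    calc n ^ c + C ≤ M ^ (c + 1) * 1 + M ^ (c + 1) * (C + 1) := by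
          have : C + 1 ≤ M ^ (c + 1) * (C + 1) := Nat.le_mul_of_pos_left _ (by omega)
          omega
      _ = M ^ (c + 1) * (C + 2) := by ring
      _ ≤ M ^ (c + 1) * M := Nat.mul_le_mul_left _ (by omega)

theorem inEA_fixed {c e : ℕ} (hK : InEA e KL) {L : Set (List Bool)} (h : InSmallInfo c L) :
    InEA ((c + 2) * (e + 1) + 1) L := by
  obtain ⟨WK, bK, CK, hWK, hbK, hKL⟩ := hK
  obtain ⟨A, q, d, a, N, C, k, G, ⟨⟨R, p, hR, hA⟩, hq, hd, ha, hN, hlen, hL⟩, hG, hdesc⟩ := h
  have hR' := PT_of_encPair hR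
  have hG' := PT_of_encPair hG
  have hq' := PT_of_enc3 hq
  have hd' := PT_of_enc3' hd
  obtain ⟨κ, hκ⟩ := exists_poly_le
    (9 * (2 * p.comp (Polynomial.X ^ k + Polynomial.C k) + 2) + 32)
  have hκ' : ∀ n, 9 * (2 * p.eval (n ^ k + k) + 2) + 32 ≤ 2 ^ (κ + n) := by
    intro n
    have := hκ n
    simpa [Polynomial.eval_comp] using this
  obtain ⟨u, K, hu⟩ := KL_complete_exp (PT_QV hq' hd' hR' hG' p c C k) κ
  obtain ⟨C3, hC3⟩ := exp_bound u K c C CK e
  have hten : ∀ n, 10 * (n + C3) ^ ((c + 2) * (e + 1)) ≤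
      (n + (C3 + 10)) ^ ((c + 2) * (e + 1) + 1) := by
    intro n
    rw [pow_succ, Nat.mul_comm 10]
    exact Nat.mul_le_mul (Nat.pow_le_pow_left (by omega) _) (by omega)
  refine ⟨algW u K c C WK,
    fun n => encPair (a n, encPair (bK (lz u K c C n), str (N n))), C3 + 10,
    PT_algW u K c C hWK, ?_, ?_⟩
  · intro n
    rw [length_encPair, length_encPair]
    have h1 := ha n
    have h2 := length_str_le (hN n)
    obtain ⟨h3, h4, h5⟩ := hC3 n
    have h6 := hten n
    have h7 := hbK (lz u K c C n)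
    omega
  · intro x pad hpad
    obtain ⟨h3, h4, h5⟩ := hC3 x.length
    have h6 := hten x.length
    have hS : p2 pad (x.length ^ c + C + 1) = 2 ^ (x.length ^ c + C + 1) - 1 := by
      apply p2_eq'
      have : 2 ^ (x.length ^ c + C + 1) ≤ 2 ^ ((x.length + (C3 + 10)) ^ ((c + 2) * (e + 1) + 1)) :=
        Nat.pow_le_pow_right (by norm_num) (by omega)
      omega
    have hn := length_str_le (hN x.length)
    have hpow : 2 ^ ((lz u K c C x.length + CK) ^ e) ≤ pad :=
      (Nat.pow_le_pow_right (by norm_num) (by omega)).trans hpad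
    -- the answers to the questions
    have hask : ∀ s t g : List Bool, s.length ≤ x.length ^ c + C → t.length ≤ x.length ^ c + C →
        g.length ≤ 1 →
        (WK (zz u K c C x (a x.length) (str (N x.length)) s t g, bK (lz u K c C x.length), pad) =
          true ↔ ∃ y : List Bool, y.length ≤ 2 ^ (2 * PP c C x.length + 2 + κ) ∧
            QV q d R G p c C k (mkQ x (a x.length) (str (N x.length)) s t g
              (PP c C x.length), y) = true) := by
      intro s t g hs ht hg
      obtain ⟨h7, h8⟩ := length_zz (u := u) (K := K) (ha x.length) hn hs ht hg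
      have h9 := hKL (zz u K c C x (a x.length) (str (N x.length)) s t g) pad
        (by rw [h8]; exact hpow)
      rw [h8] at h9
      rw [← h9, ← h7]
      exact hu _
    have hE : 2 ^ (x.length ^ c + C) * (9 * (2 * p.eval (x.length ^ k + k) + 2) + 32) ≤
        2 ^ (2 * PP c C x.length + 2 + κ) := by
      calc _ ≤ 2 ^ (x.length ^ c + C) * 2 ^ (κ + x.length) := Nat.mul_le_mul_left _ (hκ' _)
        _ = 2 ^ (x.length ^ c + C + (κ + x.length)) := (pow_add _ _ _).symm
        _ ≤ _ := Nat.pow_le_pow_right (by norm_num) (by unfold PP; omega)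
    have hstr : ∀ i < 2 ^ (x.length ^ c + C + 1) - 1, (str i).length ≤ x.length ^ c + C := by
      intro i hi
      have := length_str_lt (n := i) (m := x.length ^ c + C + 1) (by omega)
      omega
    have hnil : ([] : List Bool).length ≤ x.length ^ c + C := Nat.zero_le _
    -- the correct answer sequence
    obtain ⟨s₀, hs₀, hdes⟩ := hdesc x
    have hacc : Acc A q G c C k (N x.length) x (a x.length) s₀
        (answers A q x (a x.length) (N x.length)) := by
      refine ⟨length_answers _ _ _ _ _, (hdes _).mpr rfl, ?_⟩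
      classical
      intro i hi h7
      rw [answers_getD _ _ _ _ _ _ hi, decide_eq_true_eq] at h7
      rw [answers_take _ _ _ _ _ _ hi.le]
      exact ⟨hlen x i hi, h7⟩
    have huniq : ∀ v, Acc A q G c C k (N x.length) x (a x.length) s₀ v →
        v = answers A q x (a x.length) (N x.length) := fun v hv => (hdes v).mp hv.2.1
    rw [hL x]
    unfold algW
    simp only [unpair_enc, hS, List.any_eq_true, List.all_eq_true, List.mem_range,
      Bool.and_eq_true, Bool.not_eq_true']
    constructor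
    · intro hd1
      refine ⟨vl s₀, ?_, ?_, ?_⟩
      · have h7 := vl_lt s₀
        have h8 : 2 ^ (s₀.length + 1) ≤ 2 ^ (x.length ^ c + C + 1) :=
          Nat.pow_le_pow_right (by norm_num) (by omega)
        omega
      · rw [str_vl, hask _ _ _ hs₀ hnil (Nat.zero_le _), ask_nil hA (hN _) hE]
        exact ⟨_, hacc, hd1⟩
      · intro j hj
        rw [str_vl, Bool.eq_false_iff]
        intro h7
        rw [hask _ _ _ (hstr j hj) hs₀ le_rfl, ask_one hA (hN _) hE] at h7
        obtain ⟨v, v', hv, hv', hb⟩ := h7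
        rw [huniq v' hv'] at hb
        exact not_beat_answers hv hb
    · rintro ⟨i, hi, h7, h8⟩
      rw [hask _ _ _ (hstr i hi) hnil (Nat.zero_le _), ask_nil hA (hN _) hE] at h7
      obtain ⟨v, hv, hdv⟩ := h7
      have h9 : (answers A q x (a x.length) (N x.length)) = v := by
        refine beat_total (length_answers _ _ _ _ _) hv.1 ?_ (not_beat_answers hv)
        intro hb
        have h10 := h8 (vl s₀) (by
          have h7 := vl_lt s₀
          have h8 : 2 ^ (s₀.length + 1) ≤ 2 ^ (x.length ^ c + C + 1) :=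
            Nat.pow_le_pow_right (by norm_num) (by omega)
          omega)
        rw [str_vl, Bool.eq_false_iff, ne_eq, hask _ _ _ hs₀ (hstr i hi) le_rfl,
          ask_one hA (hN _) hE] at h10
        exact h10 ⟨_, _, hacc, hv, hb⟩
      rw [h9]
      exact hdv

end Pool.Agent.MP_92db0f_lc
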