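import Pool.Agent.MP_92db0f_lc.Main

/-!
For every `c`, nondeterministic exponential time is not contained in the class of languages decided
with an NP oracle by computations whose oracle answers carry at most `n ^ c + O(1)` bits of
information, in a nondeterministic sense.
-/

namespace Pool.Agent.Results.MP_92db0f_lc.LowInformation

open Pool.Agent.MP_92db0f_lc

/-- For every `c` there is a language in NEXP that is not decided by a computation with an oracle
`A` in NP, with at most `n ^ c + C` bits of advice and at most `2 ^ (n ^ c + C)` queries of length
at most `n ^ k + k`, such that at most `2 ^ (n ^ c + C)` light strings are in `A` and the sequence
of the answers to the heavy queries has a nondeterministic description of length at most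
`n ^ c + C`. -/
theorem result (c : ℕ) : ∃ L : Set (List Bool), InNEXP L ∧ ¬ InLowInfo c L := main c

end Pool.Agent.Results.MP_92db0f_lc.LowInformation
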