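import Pool.Agent.MP_92db0f_lc.Univ
import Pool.Agent.Lib.helper66.CookLevin

/-!
Stack machines as tables.
-/

set_option autoImplicit false

namespace Pool.Agent.MP_92db0f_lc

open Lib.helper60 Function H66

/-- A list of numbers as a list of table entries. -/
def liftL (l : List ℕ) : List Lib.helper60.Lit := l.map fun a => (a, false)

lemma ent_liftL (φ : CNF) (a b : ℕ) (l : List ℕ) (h : φ.getD a [] = liftL l) :
    ent φ a b = l.getD b 0 := by
  unfold ent
  rw [h]
  by_cases hb : b < l.length
  · rw [List.getD_eq_getElem _ _ (by simpa [liftL] using hb), List.getD_eq_getElem _ _ hb]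
    simp [liftL]
  · rw [List.getD_eq_default _ _ (by simpa [liftL] using hb),
      List.getD_eq_default _ _ (by simpa using hb)]

theorem getD_flatMap_const {α β : Type*} (f : α → List β) (m : ℕ) (d : β) :
    ∀ (l : List α) (i j : ℕ) (hi : i < l.length), (∀ x, (f x).length = m) → j < m →
      (l.flatMap f).getD (i * m + j) d = (f l[i]).getD j d
  | [], i, j, hi, _, _ => by simp at hi
  | x :: l, i, j, hi, hf, hj => by
    rw [List.flatMap_cons]
    cases i with
    | zero =>
      rw [List.getD_append _ _ _ _ (by rw [hf]; omega)]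
      simp
    | succ i =>
      have h1 : (i + 1) * m + j = (f x).length + (i * m + j) := by rw [hf]; ring
      rw [List.getD_append_right _ _ _ _ (by omega), h1, Nat.add_sub_cancel_left]
      rw [getD_flatMap_const f m d l i j (by simpa using hi) hf hj]
      simp

section

variable {C K A : Type} [Fintype C] [Fintype K] [Fintype A]

/-- The number of an element of a finite type. -/
noncomputable def num {X : Type} [Fintype X] (x : X) : ℕ := Fintype.equivFin X x

lemma num_lt {X : Type} [Fintype X] (x : X) : num x < Fintype.card X := (Fintype.equivFin X x).isLt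

lemma num_inj {X : Type} [Fintype X] {x y : X} (h : num x = num y) : x = y :=
  (Fintype.equivFin X).injective (Fin.ext h)

/-- A function as a list. -/
noncomputable def tabL {X : Type} [Fintype X] (f : X → ℕ) : List ℕ :=
  (List.finRange (Fintype.card X)).map fun i => f ((Fintype.equivFin X).symm i)

lemma tabL_getD {X : Type} [Fintype X] (f : X → ℕ) (x : X) : (tabL f).getD (num x) 0 = f x := by
  rw [List.getD_eq_getElem _ _ (by simpa [tabL] using num_lt x)]
  simp only [tabL, List.getElem_map, List.getElem_finRange]
  congr 1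
  rw [Equiv.symm_apply_eq]
  ext
  simp [num]

/-- A function of two arguments as a list. -/
noncomputable def tabL2 {X : Type} [Fintype X] (m : ℕ) (f : X → ℕ → ℕ) : List ℕ :=
  (List.finRange (Fintype.card X)).flatMap fun i =>
    (List.range m).map fun j => f ((Fintype.equivFin X).symm i) j

lemma tabL2_getD {X : Type} [Fintype X] (m : ℕ) (f : X → ℕ → ℕ) (x : X) (j : ℕ) (hj : j < m) :
    (tabL2 m f).getD (num x * m + j) 0 = f x j := by
  unfold tabL2
  rw [getD_flatMap_const _ m 0 _ _ _ (by simpa using num_lt x) (by simp) hj]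
  rw [List.getD_eq_getElem _ _ (by simpa using hj)]
  simp only [List.getElem_map, List.getElem_range, List.getElem_finRange]
  congr 1
  rw [Equiv.symm_apply_eq]
  ext
  simp [num]

/-- The element of a finite type with a given number. -/
noncomputable def elt {X : Type} [Fintype X] (j : ℕ) : Option X :=
  if h : j < Fintype.card X then some ((Fintype.equivFin X).symm ⟨j, h⟩) else none

lemma elt_num {X : Type} [Fintype X] (x : X) : elt (num x) = some x := by
  unfold elt
  rw [dif_pos (num_lt x)]
  congr 1
  rw [Equiv.symm_apply_eq]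
  ext
  simp [num]

/-- The code of an action. -/
noncomputable def actCode : Act A → ℕ
  | .keep => 0
  | .pop => 1
  | .push a => num a + 2

/-- The table of a stack machine. -/
noncomputable def codeSM (M : SM C K A) (k₀ k₁ : K) (c₀ : C) (eF eT oT : A) (hlt : C → Bool) :
    CNF :=
  [liftL [Fintype.card K, Fintype.card A, num k₀, num k₁, num c₀, num eF, num eT, num oT],
    liftL (tabL fun c => num (M.rd c)),
    liftL (tabL fun c => if hlt c = true then 1 else 0),
    liftL (tabL2 (Fintype.card K) fun c j => match elt j with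
      | some k => actCode (M.ac c k)
      | none => 0),
    liftL (tabL2 (Fintype.card A + 1) fun c j => match j with
      | 0 => num (M.nx c none)
      | j + 1 => num (M.nx c (elt j)))]

variable (M : SM C K A) (k₀ k₁ : K) (c₀ : C) (eF eT oT : A) (hlt : C → Bool)

/-- The correspondence of configurations. -/
def RelT (s : C × (K → List A)) (t : TCfg) : Prop :=
  t.1 = num s.1 ∧ t.2 = (List.finRange (Fintype.card K)).map fun i =>
    (s.2 ((Fintype.equivFin K).symm i)).map num

lemma RelT.getD {s : C × (K → List A)} {t : TCfg} (h : RelT s t) (k : K) :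
    t.2.getD (num k) [] = (s.2 k).map num := by
  rw [h.2, List.getD_eq_getElem _ _ (by simpa using num_lt k)]
  simp only [List.getElem_map, List.getElem_finRange]
  refine congrArg (List.map num) (congrArg s.2 ?_)
  rw [Equiv.symm_apply_eq]
  ext
  simp [num]

lemma actOn_actCode (a : Act A) (l : List A) :
    actOn (actCode a) (l.map num) = (a.app l).map num := by
  cases a with
  | keep => rfl
  | pop => simp [actOn, actCode, Act.app]
  | push a => simp [actOn, actCode, Act.app]

lemma RelT.step {s : C × (K → List A)} {t : TCfg} (h : RelT s t) :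
    RelT (M.step s) (tstep (codeSM M k₀ k₁ c₀ eF eT oT hlt) t) := by
  have e0 : ∀ b, ent (codeSM M k₀ k₁ c₀ eF eT oT hlt) 0 b =
      [Fintype.card K, Fintype.card A, num k₀, num k₁, num c₀, num eF, num eT, num oT].getD b 0 :=
    fun b => ent_liftL _ _ _ _ rfl
  have e1 : ∀ b, ent (codeSM M k₀ k₁ c₀ eF eT oT hlt) 1 b =
      (tabL fun c => num (M.rd c)).getD b 0 :=
    fun b => ent_liftL _ _ _ _ rfl
  have e3 : ∀ b, ent (codeSM M k₀ k₁ c₀ eF eT oT hlt) 3 b =
      (tabL2 (Fintype.card K) fun c j => match elt j with
      | some k => actCode (M.ac c k)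
      | none => 0).getD b 0 :=
    fun b => ent_liftL _ _ _ _ rfl
  have e4 : ∀ b, ent (codeSM M k₀ k₁ c₀ eF eT oT hlt) 4 b =
      (tabL2 (Fintype.card A + 1) fun c j => match j with
      | 0 => num (M.nx c none)
      | j + 1 => num (M.nx c (elt j))).getD b 0 :=
    fun b => ent_liftL _ _ _ _ rfl
  have hK : ent (codeSM M k₀ k₁ c₀ eF eT oT hlt) 0 0 = Fintype.card K := e0 0
  have hA : ent (codeSM M k₀ k₁ c₀ eF eT oT hlt) 0 1 = Fintype.card A := e0 1
  unfold tstep SM.step
  rw [hK, hA, h.1]
  constructor
  · -- control state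
    change ent _ 4 _ = num (M.nx s.1 (s.2 (M.rd s.1)).head?)
    rw [e1, tabL_getD, h.getD, e4]
    cases hs : s.2 (M.rd s.1) with
    | nil =>
      simp only [List.map_nil, topOf, List.head?_nil]
      rw [tabL2_getD _ _ _ _ (by omega)]
    | cons a l =>
      simp only [List.map_cons, topOf, List.head?_cons]
      rw [tabL2_getD _ _ _ _ (by have := num_lt a; omega)]
      simp only [elt_num]
  · -- stacks
    change (List.range (Fintype.card K)).map _ = _
    have hr : List.range (Fintype.card K) =
        (List.finRange (Fintype.card K)).map Fin.val := by simp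
    rw [hr, List.map_map]
    apply List.map_congr_left
    intro i _
    obtain ⟨k, rfl⟩ := (Fintype.equivFin K).surjective i
    have hi : ((Fintype.equivFin K k : Fin _) : ℕ) = num k := rfl
    simp only [Function.comp_apply, Equiv.symm_apply_apply]
    rw [hi, h.getD, e3, tabL2_getD _ _ _ _ (num_lt k)]
    simp only [elt_num]
    exact actOn_actCode _ _

lemma RelT.iterate {s : C × (K → List A)} {t : TCfg} (h : RelT s t) (n : ℕ) :
    RelT (M.step^[n] s) ((tstep (codeSM M k₀ k₁ c₀ eF eT oT hlt))^[n] t) := by
  induction n with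
  | zero => exact h
  | succ n ih =>
    rw [iterate_succ_apply', iterate_succ_apply']
    exact ih.step M k₀ k₁ c₀ eF eT oT hlt

lemma RelT.init [DecidableEq K] (w : List Bool) :
    RelT (c₀, fun k => if k = k₀ then w.map (fun b => bif b then eT else eF) else ([] : List A))
      (tinit (codeSM M k₀ k₁ c₀ eF eT oT hlt) w) := by
  have e0 : ∀ b, ent (codeSM M k₀ k₁ c₀ eF eT oT hlt) 0 b =
      [Fintype.card K, Fintype.card A, num k₀, num k₁, num c₀, num eF, num eT, num oT].getD b 0 :=
    fun b => ent_liftL _ _ _ _ rfl
  unfold tinit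
  constructor
  · exact e0 4
  · have hK : ent (codeSM M k₀ k₁ c₀ eF eT oT hlt) 0 0 = Fintype.card K := e0 0
    have hk : ent (codeSM M k₀ k₁ c₀ eF eT oT hlt) 0 2 = num k₀ := e0 2
    have h5 : ent (codeSM M k₀ k₁ c₀ eF eT oT hlt) 0 5 = num eF := e0 5
    have h6 : ent (codeSM M k₀ k₁ c₀ eF eT oT hlt) 0 6 = num eT := e0 6
    rw [hK, hk, h5, h6]
    have hr : List.range (Fintype.card K) =
        (List.finRange (Fintype.card K)).map Fin.val := by simp
    change (List.range (Fintype.card K)).map _ = _
    rw [hr, List.map_map]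
    apply List.map_congr_left
    intro i _
    obtain ⟨k, rfl⟩ := (Fintype.equivFin K).surjective i
    have hi : ((Fintype.equivFin K k : Fin _) : ℕ) = num k := rfl
    simp only [Function.comp_apply, Equiv.symm_apply_apply]
    rw [hi]
    by_cases h : k = k₀
    · subst h
      rw [if_pos rfl, if_pos rfl, List.map_map]
      apply List.map_congr_left
      intro b _
      cases b <;> rfl
    · rw [if_neg (fun h' => h (num_inj h')), if_neg h]
      rfl

lemma RelT.halt {s : C × (K → List A)} {t : TCfg} (h : RelT s t) :
    thalt (codeSM M k₀ k₁ c₀ eF eT oT hlt) t = hlt s.1 := by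
  have e2 : ∀ b, ent (codeSM M k₀ k₁ c₀ eF eT oT hlt) 2 b =
      (tabL fun c => if hlt c = true then 1 else 0).getD b 0 :=
    fun b => ent_liftL _ _ _ _ rfl
  unfold thalt
  rw [h.1, e2, tabL_getD]
  cases hlt s.1 <;> simp

lemma RelT.out [DecidableEq A] {s : C × (K → List A)} {t : TCfg} (h : RelT s t) :
    tout (codeSM M k₀ k₁ c₀ eF eT oT hlt) t = (s.2 k₁).map fun a => decide (a = oT) := by
  have e0 : ∀ b, ent (codeSM M k₀ k₁ c₀ eF eT oT hlt) 0 b =
      [Fintype.card K, Fintype.card A, num k₀, num k₁, num c₀, num eF, num eT, num oT].getD b 0 :=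
    fun b => ent_liftL _ _ _ _ rfl
  have h3 : ent (codeSM M k₀ k₁ c₀ eF eT oT hlt) 0 3 = num k₁ := e0 3
  have h7 : ent (codeSM M k₀ k₁ c₀ eF eT oT hlt) 0 7 = num oT := e0 7
  unfold tout
  rw [h3, h7, h.getD, List.map_map]
  apply List.map_congr_left
  intro a _
  simp only [Function.comp_apply, decide_eq_decide]
  exact ⟨num_inj, fun h => by rw [h]⟩

end

end Pool.Agent.MP_92db0f_lc
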