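import Pool.Agent.Lib.helper60.ParseCNF

/-!
A universal table machine, evaluated in polynomial time.
-/

set_option autoImplicit false

namespace Pool.Agent.MP_92db0f_lc

open Lib.helper60 Function

/-- The entry with place `b` in the list with place `a`. -/
def ent (φ : CNF) (a b : ℕ) : ℕ := ((φ.getD a []).getD b (0, false)).1

/-- Configurations: control state and stacks. -/
abbrev TCfg := ℕ × List (List ℕ)

/-- The number of the top symbol, plus one; zero for the empty stack. -/
def topOf (l : List ℕ) : ℕ := match l with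
  | [] => 0
  | a :: _ => a + 1

/-- The effect of an action on a stack. -/
def actOn (a : ℕ) (l : List ℕ) : List ℕ :=
  if a = 0 then l else if a = 1 then l.tail else (a - 2) :: l

/-- One step of the table machine `φ`. -/
def tstep (φ : CNF) (s : TCfg) : TCfg :=
  (ent φ 4 (s.1 * (ent φ 0 1 + 1) + topOf (s.2.getD (ent φ 1 s.1) [])),
    (List.range (ent φ 0 0)).map fun k => actOn (ent φ 3 (s.1 * ent φ 0 0 + k)) (s.2.getD k []))

/-- The initial configuration. -/
def tinit (φ : CNF) (w : List Bool) : TCfg :=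
  (ent φ 0 4, (List.range (ent φ 0 0)).map fun k =>
    if k = ent φ 0 2 then w.map (fun b => bif b then ent φ 0 6 else ent φ 0 5) else [])

/-- The configuration after `t` steps. -/
def trun (φ : CNF) (w : List Bool) (t : ℕ) : TCfg := (tstep φ)^[t] (tinit φ w)

/-- The output of a configuration. -/
def tout (φ : CNF) (s : TCfg) : List Bool :=
  (s.2.getD (ent φ 0 3) []).map fun a => decide (a = ent φ 0 7)

/-- Is the configuration halted? -/
def thalt (φ : CNF) (s : TCfg) : Bool := decide (ent φ 2 s.1 = 1)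

/-! ### the evaluation is in polynomial time -/

section

variable {α : Type} [DEnc α]

lemma PT_ent {φ : α → CNF} {a b : α → ℕ} (hφ : PT φ) (ha : PT a) (hb : PT b) :
    PT (fun x => ent (φ x) (a x) (b x)) :=
  (PT.getD (PT.getD hφ ha (PT.const _)) hb (PT.const _)).p1

lemma PT_topOf {l : α → List ℕ} (hl : PT l) : PT (fun x => topOf (l x)) :=
  (PT.listCases (f := fun _ => 0) (g := fun z : α × ℕ × List ℕ => z.2.1 + 1) hl (PT.const 0)
    (PT.nsucc PT.snd.p1)).congr fun x => by
      cases l x <;> rfl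

lemma PT_actOn {a : α → ℕ} {l : α → List ℕ} (ha : PT a) (hl : PT l) :
    PT (fun x => actOn (a x) (l x)) := by
  unfold actOn
  exact PT.ite (PT.neq ha (PT.const 0)) hl (PT.ite (PT.neq ha (PT.const 1)) (PT.tail hl)
    (PT.cons (PT.nsub ha (PT.const 2)) hl))

lemma PT_tstep {φ : α → CNF} {s : α → TCfg} (hφ : PT φ) (hs : PT s) :
    PT (fun x => tstep (φ x) (s x)) := by
  unfold tstep
  refine PT.pair ?_ ?_
  · exact PT_ent hφ (PT.const 4) (PT.nadd (PT.nmul hs.p1
      (PT.nsucc (PT_ent hφ (PT.const 0) (PT.const 1))))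
      (PT_topOf (PT.getD hs.p2 (PT_ent hφ (PT.const 1) hs.p1) (PT.const _))))
  · refine PT.map (g := fun z : α × ℕ =>
      actOn (ent (φ z.1) 3 ((s z.1).1 * ent (φ z.1) 0 0 + z.2)) ((s z.1).2.getD z.2 []))
      (PT.range (PT_ent hφ (PT.const 0) (PT.const 0))) ?_
    have hφ' : PT (fun z : α × ℕ => φ z.1) := hφ.comp PT.fst
    have hs' : PT (fun z : α × ℕ => s z.1) := hs.comp PT.fst
    exact PT_actOn (PT_ent hφ' (PT.const 3) (PT.nadd (PT.nmul hs'.p1
      (PT_ent hφ' (PT.const 0) (PT.const 0))) PT.snd)) (PT.getD hs'.p2 PT.snd (PT.const _))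

lemma PT_tinit {φ : α → CNF} {w : α → List Bool} (hφ : PT φ) (hw : PT w) :
    PT (fun x => tinit (φ x) (w x)) := by
  unfold tinit
  refine PT.pair (PT_ent hφ (PT.const 0) (PT.const 4)) ?_
  refine PT.map (g := fun z : α × ℕ => if z.2 = ent (φ z.1) 0 2 then
      (w z.1).map (fun b => bif b then ent (φ z.1) 0 6 else ent (φ z.1) 0 5) else [])
    (PT.range (PT_ent hφ (PT.const 0) (PT.const 0))) ?_
  have hφ' : PT (fun z : α × ℕ => φ z.1) := hφ.comp PT.fst
  refine PT.ite (PT.neq PT.snd (PT_ent hφ' (PT.const 0) (PT.const 2))) ?_ (PT.const [])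
  have hφ2 : PT (fun z : (α × ℕ) × Bool => φ z.1.1) := hφ.comp PT.fst.p1
  exact PT.map (g := fun z : (α × ℕ) × Bool =>
      bif z.2 then ent (φ z.1.1) 0 6 else ent (φ z.1.1) 0 5) (hw.comp PT.fst)
    (PT.cond PT.snd (PT_ent hφ2 (PT.const 0) (PT.const 6)) (PT_ent hφ2 (PT.const 0) (PT.const 5)))

lemma PT_tout {φ : α → CNF} {s : α → TCfg} (hφ : PT φ) (hs : PT s) :
    PT (fun x => tout (φ x) (s x)) := by
  unfold tout
  refine PT.map (g := fun z : α × ℕ => decide (z.2 = ent (φ z.1) 0 7))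
    (PT.getD hs.p2 (PT_ent hφ (PT.const 0) (PT.const 3)) (PT.const _)) ?_
  exact PT.neq PT.snd (PT_ent (hφ.comp PT.fst) (PT.const 0) (PT.const 7))

lemma PT_thalt {φ : α → CNF} {s : α → TCfg} (hφ : PT φ) (hs : PT s) :
    PT (fun x => thalt (φ x) (s x)) :=
  PT.neq (PT_ent hφ (PT.const 2) hs.p1) (PT.const 1)

end

lemma tsize_getD_le {β : Type} [DEnc β] (l : List β) (n : ℕ) (d : β) (h : tsize d ≤ tsize l) :
    tsize (l.getD n d) ≤ tsize l := by
  by_cases hn : n < l.length
  · rw [List.getD_eq_getElem _ _ hn]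
    exact (tsize_mem_lt (List.getElem_mem hn)).le
  · rw [List.getD_eq_default _ _ (not_lt.mp hn)]
    exact h

lemma ent_le (φ : CNF) (a b : ℕ) : ent φ a b ≤ tsize φ := by
  unfold ent
  by_cases hb : b < (φ.getD a []).length
  · rw [List.getD_eq_getElem _ _ hb]
    have h1 := tsize_mem_lt (List.getElem_mem hb)
    have h2 : tsize (φ.getD a []) ≤ tsize φ := tsize_getD_le φ a [] (by
      rw [tsize_nil]; exact tsize_pos φ)
    have h3 : tsize ((φ.getD a [])[b]) =
        tsize ((φ.getD a [])[b]).1 + tsize ((φ.getD a [])[b]).2 + 1 := tsize_pair _ _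
    rw [tsize_nat] at h3
    omega
  · rw [List.getD_eq_default _ _ (not_lt.mp hb)]
    exact Nat.zero_le _

/-- Invariant of the runs. -/
def Bdd (φ : CNF) (L : ℕ) (s : TCfg) : Prop :=
  s.1 ≤ tsize φ ∧ s.2.length = ent φ 0 0 ∧ ∀ l ∈ s.2, l.length ≤ L ∧ ∀ a ∈ l, a ≤ tsize φ

lemma Bdd.step {φ : CNF} {L : ℕ} {s : TCfg} (h : Bdd φ L s) : Bdd φ (L + 1) (tstep φ s) := by
  obtain ⟨h1, h2, h3⟩ := h
  refine ⟨ent_le _ _ _, by simp [tstep], ?_⟩
  intro l hl
  simp only [tstep, List.mem_map, List.mem_range] at hl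
  obtain ⟨k, hk, rfl⟩ := hl
  have h4 : (s.2.getD k []).length ≤ L ∧ ∀ a ∈ s.2.getD k [], a ≤ tsize φ := by
    rw [List.getD_eq_getElem _ _ (by omega)]
    exact h3 _ (List.getElem_mem _)
  have h5 := ent_le φ 3 (s.1 * ent φ 0 0 + k)
  unfold actOn
  split_ifs
  · exact ⟨by omega, h4.2⟩
  · refine ⟨by rw [List.length_tail]; omega, fun a ha => h4.2 a (List.mem_of_mem_tail ha)⟩
  · refine ⟨by rw [List.length_cons]; omega, fun a ha => ?_⟩
    rw [List.mem_cons] at ha
    rcases ha with rfl | ha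
    · omega
    · exact h4.2 a ha

lemma Bdd.init (φ : CNF) (w : List Bool) : Bdd φ w.length (tinit φ w) := by
  refine ⟨ent_le _ _ _, by simp [tinit], ?_⟩
  intro l hl
  simp only [tinit, List.mem_map, List.mem_range] at hl
  obtain ⟨k, hk, rfl⟩ := hl
  split_ifs
  · refine ⟨by simp, fun a ha => ?_⟩
    rw [List.mem_map] at ha
    obtain ⟨b, _, rfl⟩ := ha
    cases b
    · exact ent_le _ _ _
    · exact ent_le _ _ _
  · simp

lemma Bdd.run (φ : CNF) (w : List Bool) (t : ℕ) : Bdd φ (w.length + t) (trun φ w t) := by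
  induction t with
  | zero => exact Bdd.init φ w
  | succ t ih =>
    have h : trun φ w (t + 1) = tstep φ (trun φ w t) := by
      unfold trun
      rw [iterate_succ_apply']
    rw [h]
    exact ih.step

lemma Bdd.size {φ : CNF} {L : ℕ} {s : TCfg} (h : Bdd φ L s) :
    tsize s ≤ 2 * tsize φ + (tsize φ * (L * (2 * tsize φ + 2) + 2) + 1) + 2 := by
  obtain ⟨h1, h2, h3⟩ := h
  have h4 : ∀ l ∈ s.2, tsize l ≤ L * (2 * tsize φ + 2) + 1 := by
    intro l hl
    obtain ⟨h5, h6⟩ := h3 l hl
    have h7 : tsize l ≤ l.length * ((2 * tsize φ + 1) + 1) + 1 := by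
      apply tsize_le_of_forall
      intro a ha
      rw [tsize_nat]
      have := h6 a ha
      omega
    have h8 := Nat.mul_le_mul_right (2 * tsize φ + 2) h5
    have e : 2 * tsize φ + 1 + 1 = 2 * tsize φ + 2 := rfl
    rw [e] at h7
    omega
  have h9 := tsize_le_of_forall h4
  have h10 : s.2.length ≤ tsize φ := by rw [h2]; exact ent_le _ _ _
  have h11 := Nat.mul_le_mul_right (L * (2 * tsize φ + 2) + 1 + 1) h10
  have h12 : tsize s = tsize s.1 + tsize s.2 + 1 := tsize_pair _ _
  rw [h12, tsize_nat]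
  have h13 : L * (2 * tsize φ + 2) + 1 + 1 = L * (2 * tsize φ + 2) + 2 := rfl
  rw [h13] at h11 h9
  omega

lemma PT_trun {α : Type} [DEnc α] {φ : α → CNF} {w : α → List Bool} {t : α → ℕ} (hφ : PT φ)
    (hw : PT w) (ht : PT t) : PT (fun x => trun (φ x) (w x) (t x)) := by
  have hstep : PT (fun z : CNF × TCfg => (z.1, tstep z.1 z.2)) :=
    PT.pair PT.fst (PT_tstep PT.fst PT.snd)
  have hit : ∀ (ψ : CNF) (s : TCfg) (i : ℕ),
      (fun z : CNF × TCfg => (z.1, tstep z.1 z.2))^[i] (ψ, s) = (ψ, (tstep ψ)^[i] s) := by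
    intro ψ s i
    induction i with
    | zero => rfl
    | succ i ih => rw [iterate_succ_apply', iterate_succ_apply', ih]
  have hb : PB (fun x => tsize (φ x) + (2 * tsize (φ x) + (tsize (φ x) *
      ((tsize (w x) + tsize (t x)) * (2 * tsize (φ x) + 2) + 2) + 1) + 2) + 1) := by
    have b1 := hφ.size
    have b2 := hw.size
    have b3 := ht.size
    have b4 : PB (fun x => 2 * tsize (φ x)) := (PB.const 2).mul b1
    exact (b1.add ((b4.add ((b1.mul (((b2.add b3).mul (b4.add (PB.const 2))).add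
      (PB.const 2))).add (PB.const 1))).add (PB.const 2))).add (PB.const 1)
  have h := PT.iterateNat (count := t) (init := fun x => (φ x, tinit (φ x) (w x))) ht
    (PT.pair hφ (PT_tinit hφ hw)) hstep ⟨_, hb, by
      intro x i hi
      rw [hit, tsize_pair]
      have h1 := (Bdd.run (φ x) (w x) i).size
      have h2 : trun (φ x) (w x) i = (tstep (φ x))^[i] (tinit (φ x) (w x)) := rfl
      rw [h2] at h1
      have h3 : (w x).length + i ≤ tsize (w x) + tsize (t x) := by
        have := length_lt_tsize (w x)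
        rw [tsize_nat]
        omega
      have h4 := Nat.mul_le_mul_right (2 * tsize (φ x) + 2) h3
      have h5 := Nat.mul_le_mul_left (tsize (φ x)) (Nat.add_le_add_right h4 2)
      omega⟩
  refine h.p2.congr fun x => ?_
  rw [hit]
  rfl

end Pool.Agent.MP_92db0f_lc
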